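import Pool.Agent.Lib.MP_4fb322_lc_h96.H25
import Pool.Agent.Lib.MP_4fb322_lc_h7.R12
import Pool.Agent.Lib.MP_4fb322_lc_h7.R14
import Pool.Agent.Lib.MP_4fb322_lc_h7.R15
import Pool.Agent.Lib.MP_4fb322_lc_h7.R17
import Pool.Agent.Lib.MP_4fb322_lc_h7.R20

set_option autoImplicit false

/-!
# The data of the first half are contradictory
-/

namespace Pool.Agent.Lib.MP_4fb322_lc_h96

open Set Filter Pool.Agent.Lib.MP_4fb322_lc_h7

variable {Θ V : Type} [Nonempty Θ]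

/-- the interface of the two halves -/
theorem half1 [Finite Θ] {op : Θ → Θ} {T : V → V → Θ} {a : ℕ → Finset V} {u : Ultrafilter (V → V)}
    {pt : ℕ → V → ℕ} {π : ℕ → V → V} {C : ℕ → V → Set V} {ρ : ℕ → V → Ultrafilter V}
    (D : Dat op T a u pt π C ρ) : Half1 op T a u pt π C ρ where
  recog N hN hF 𝒞 h𝒞 Y hY hv := recog D UF N hN hF hY hv h𝒞
  full_of N hN h := full_of D UF N hN h
  ns N n i l f hN hs hi 𝒞 h𝒞 hf := by
    have hi0 : 0 < i := by
      have : i ≠ 0 := (Finset.mem_erase.1 hi).1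
      omega
    obtain ⟨l', j, k, hk, h⟩ := nonsplit D hi0 hN hs hf.1 (fun y hy => (hf.2 y hy).1) (by
      intro x hx
      have hx0 : pt n x ≠ 0 := by rw [hx.2]; omega
      have hy : (Sum.inr (l, n, x) : Pt V) ∈ blk a pt l n {i} := ⟨x, hx.1, hx0, hx.2, rfl⟩
      exact ((hf.2 _ hy).2 _ (h𝒞 x hx.1)).2 (D.gpos.mem n x hx.1 hx0))
    exact ⟨l', j, k, by omega, h⟩
  pins p hp := pins_ae D hp
  posK n x hx h0 := ⟨mem_KK D hx h0, D.gpos.mem n x hx h0⟩

theorem second [Finite Θ] {op : Θ → Θ} {T : V → V → Θ} {a : ℕ → Finset V} {u : Ultrafilter (V → V)}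
    {pt : ℕ → V → ℕ} {π : ℕ → V → V} {C : ℕ → V → Set V} {ρ : ℕ → V → Ultrafilter V}
    (D : Dat op T a u pt π C ρ) : False :=
  half2 D (half1 D)

end Pool.Agent.Lib.MP_4fb322_lc_h96
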