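import Pool.Agent.Lib.MP_4fb322_lc_h7.Defs

set_option autoImplicit false

/-!
# Binary ages, second half: definitions

The words `a n` are arranged by locations: the part `k` of `a j` is placed in the block `loc j k`.
-/

namespace Pool.Agent.Lib.MP_4fb322_lc_h96

open Set Filter Pool.Agent.Lib.MP_4fb322_lc_h7

variable {Θ V : Type} [Nonempty Θ]

/-- the part numbers of `a n` -/
def prt (a : ℕ → Finset V) (pt : ℕ → V → ℕ) (n : ℕ) : Finset ℕ := ((a n).image (pt n)).erase 0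

/-- the results of the first half -/
structure Half1 (op : Θ → Θ) (T : V → V → Θ) (a : ℕ → Finset V) (u : Ultrafilter (V → V))
    (pt : ℕ → V → ℕ) (π : ℕ → V → V) (C : ℕ → V → Set V) (ρ : ℕ → V → Ultrafilter V) : Prop where
  /-- rooted fullness -/
  recog : ∀ N : ℕ → Set (Pt V), (∀ m, N m ⊆ Val u a pt) → Full T (TW op T pt ρ) UF N →
    ∀ 𝒞 : Set (Set V), 𝒞.Finite → ∀ Y : Set (Pt V), Y.Finite → Y ⊆ Val u a pt →
      ∀ᶠ m in (UF : Filter ℕ), NX op T pt ρ 𝒞 Y (N m)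
  /-- a criterion for fullness -/
  full_of : ∀ N : ℕ → Set (Pt V), (∀ m, N m ⊆ Val u a pt) →
    (∀ᶠ n in (UF : Filter ℕ), ∀ᶠ m in (UF : Filter ℕ),
      ∃ f : V → Pt V, PE T (TW op T pt ρ) (a n : Set V) f ∧ ∀ x ∈ a n, f x ∈ N m) →
    Full T (TW op T pt ρ) UF N
  /-- parts do not split -/
  ns : ∀ (N : Set (Pt V)) (n i l : ℕ) (f : Pt V → Pt V), N ⊆ Val u a pt → Simp pt N → i ∈ prt a pt n →
    ∀ 𝒞 : Set (Set V), (∀ x ∈ a n, C n x ∈ 𝒞) → NE op T pt ρ 𝒞 (blk a pt l n {i}) N f →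
      ∃ l' j k, k ≠ 0 ∧ ∀ x ∈ part a pt n i, ∃ y ∈ part a pt j k, f (Sum.inr (l, n, x)) = Sum.inr (l', j, y)
  /-- every pin is a pin of almost all words -/
  pins : ∀ p ∈ PN u, ∀ᶠ n in (UF : Filter ℕ), ∃ x ∈ a n, pt n x = 0 ∧ π n x = p
  /-- positions -/
  posK : ∀ n, ∀ x ∈ a n, pt n x ≠ 0 → ρ n x ∈ KK u ∧ C n x ∈ ρ n x

/-- the sets describing the robust position of `a n` -/
def cn (a : ℕ → Finset V) (C : ℕ → V → Set V) (n : ℕ) : Set (Set V) := C n '' (a n : Set V)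

/-- near embedding of the part `i` of `a n` into the part `k` of `a j` -/
def Fit (T : V → V → Θ) (a : ℕ → Finset V) (pt : ℕ → V → ℕ) (ρ : ℕ → V → Ultrafilter V)
    (𝒞 : Set (Set V)) (n i j k : ℕ) : Prop :=
  ∃ g : V → V, PE T T (part a pt n i) g ∧
    ∀ x ∈ part a pt n i, g x ∈ part a pt j k ∧ ∀ B ∈ 𝒞, (B ∈ ρ j (g x) ↔ B ∈ ρ n x)

/-- the points of the arrangement by locations, with the allowed pairs (index, location) in `A` -/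
def NA (u : Ultrafilter (V → V)) (a : ℕ → Finset V) (pt : ℕ → V → ℕ) (loc : ℕ → ℕ → ℕ)
    (A : Set (ℕ × ℕ)) : Set (Pt V) :=
  PP u ∪ {z | ∃ j x, x ∈ a j ∧ pt j x ≠ 0 ∧ (j, loc j (pt j x)) ∈ A ∧
    z = Sum.inr (loc j (pt j x), j, x)}

/-- `A` is a full family of arrangements -/
def FullA (op : Θ → Θ) (T : V → V → Θ) (u : Ultrafilter (V → V)) (a : ℕ → Finset V)
    (pt : ℕ → V → ℕ) (ρ : ℕ → V → Ultrafilter V) (loc : ℕ → ℕ → ℕ) (A : ℕ → Set (ℕ × ℕ)) : Prop :=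
  Full T (TW op T pt ρ) UF (fun m => NA u a pt loc (A m))

/-- A near embedding of `c` copies of the parts `i ∈ K` of `a n` into the arrangement `A`, in explicit form: the
part `i` of the copy `s` is mapped by `g s` to the part `Q s i` of `a (J s i)`. -/
structure CE (op : Θ → Θ) (T : V → V → Θ) (a : ℕ → Finset V) (pt : ℕ → V → ℕ)
    (ρ : ℕ → V → Ultrafilter V) (loc : ℕ → ℕ → ℕ) (𝒞 : Set (Set V)) (n c : ℕ) (K : Set ℕ)
    (A : Set (ℕ × ℕ)) (J Q : ℕ → ℕ → ℕ) (g : ℕ → V → V) : Prop where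
  mem : ∀ s < c, ∀ i ∈ prt a pt n, i ∈ K → (J s i, loc (J s i) (Q s i)) ∈ A ∧
    Q s i ∈ prt a pt (J s i)
  gm : ∀ s < c, ∀ x ∈ a n, pt n x ≠ 0 → pt n x ∈ K →
    g s x ∈ part a pt (J s (pt n x)) (Q s (pt n x)) ∧
    ∀ B ∈ 𝒞, (B ∈ ρ (J s (pt n x)) (g s x) ↔ B ∈ ρ n x)
  self : ∀ s < c, ∀ x ∈ a n, pt n x ≠ 0 → pt n x ∈ K → T (g s x) (g s x) = T x x
  emb : ∀ s < c, ∀ s' < c, ∀ x ∈ a n, ∀ x' ∈ a n, pt n x ≠ 0 → pt n x' ≠ 0 → pt n x ∈ K →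
    pt n x' ∈ K → (s, x) ≠ (s', x') →
    let z := ((loc (J s (pt n x)) (Q s (pt n x)), J s (pt n x), g s x) : ℕ × ℕ × V)
    let z' := ((loc (J s' (pt n x')) (Q s' (pt n x')), J s' (pt n x'), g s' x') : ℕ × ℕ × V)
    z ≠ z' ∧ TW op T pt ρ (Sum.inr z) (Sum.inr z') =
      TW op T pt ρ (Sum.inr (s, n, x)) (Sum.inr (s', n, x'))

/-- existence of a near embedding of copies -/
def CEX (op : Θ → Θ) (T : V → V → Θ) (a : ℕ → Finset V) (pt : ℕ → V → ℕ)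
    (ρ : ℕ → V → Ultrafilter V) (loc : ℕ → ℕ → ℕ) (𝒞 : Set (Set V)) (n c : ℕ) (K : Set ℕ)
    (A : Set (ℕ × ℕ)) : Prop :=
  ∃ J Q g, CE op T a pt ρ loc 𝒞 n c K A J Q g

/-- The decomposition of the words: `Ty` = typical indices, `L` = number of locations, `G` = the gaps, `Al l` = the
letters in the gap `l`, `loc m k` = the location of the part `k` of `a m`, `e m l` = the part at the location
`l ∉ G`, `col m k` = the letter of the part `k` of `a m`. -/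
structure Dec (P : ℕ → Finset ℕ) {α : Type} (col : ℕ → ℕ → α) (Ty : Set ℕ) (L : ℕ) (G : Set ℕ)
    (Al : ℕ → Set α) (loc e : ℕ → ℕ → ℕ) : Prop where
  typ : ∀ᶠ m in (UF : Filter ℕ), m ∈ Ty
  lt : ∀ m ∈ Ty, ∀ k ∈ P m, loc m k < L
  mono : ∀ m ∈ Ty, ∀ k ∈ P m, ∀ k' ∈ P m, k < k' → loc m k ≤ loc m k'
  sing : ∀ m ∈ Ty, ∀ l < L, l ∉ G → e m l ∈ P m ∧ loc m (e m l) = l ∧
    ∀ k ∈ P m, loc m k = l → k = e m l
  lett : ∀ m ∈ Ty, ∀ k ∈ P m, loc m k ∈ G → col m k ∈ Al (loc m k)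
  rich : ∀ l ∈ G, l < L → ∀ z : List α, (∀ c ∈ z, c ∈ Al l) → ∀ᶠ m in (UF : Filter ℕ),
    ∃ s : Fin z.length → ℕ, StrictMono s ∧ ∀ i, s i ∈ P m ∧ loc m (s i) = l ∧ col m (s i) = z.get i

/-- the single part at the location `l` of typical words fits into the location `l'` -/
def Arr (T : V → V → Θ) (a : ℕ → Finset V) (pt : ℕ → V → ℕ) (ρ : ℕ → V → Ultrafilter V)
    (loc e : ℕ → ℕ → ℕ) (l l' : ℕ) : Prop :=
  ∀ᶠ n in (UF : Filter ℕ), ∀ 𝒞 : Set (Set V), 𝒞.Finite → ∀ᶠ j in (UF : Filter ℕ),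
    ∃ k ∈ prt a pt j, loc j k = l' ∧ Fit T a pt ρ 𝒞 n (e n l) j k

/-- the parts `i`, `i'` of `a n` are different and do not commute -/
def Rig (T : V → V → Θ) (u : Ultrafilter (V → V)) (a : ℕ → Finset V)
    (pt : ℕ → V → ℕ) (C : ℕ → V → Set V) (n i i' : ℕ) : Prop :=
  i ∈ prt a pt n ∧ i' ∈ prt a pt n ∧
    ((i < i' ∧ ¬ Com T u a pt C n i i') ∨ (i' < i ∧ ¬ Com T u a pt C n i' i))

/-- the component of the part `i` in the graph of non commuting parts -/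
def Cmp (T : V → V → Θ) (u : Ultrafilter (V → V)) (a : ℕ → Finset V)
    (pt : ℕ → V → ℕ) (C : ℕ → V → Set V) (n i : ℕ) : Set ℕ :=
  {i' | Relation.ReflTransGen (Rig T u a pt C n) i i'}

/-- near embedding of the union of the parts `i ∈ I` of `a n` into the part `k` of `a j` -/
def FitS (T : V → V → Θ) (a : ℕ → Finset V) (pt : ℕ → V → ℕ) (ρ : ℕ → V → Ultrafilter V)
    (𝒞 : Set (Set V)) (n : ℕ) (I : Set ℕ) (j k : ℕ) : Prop :=
  ∃ g : V → V, PE T T {x | x ∈ a n ∧ pt n x ≠ 0 ∧ pt n x ∈ I} g ∧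
    ∀ x ∈ a n, pt n x ≠ 0 → pt n x ∈ I → g x ∈ part a pt j k ∧ ∀ B ∈ 𝒞, (B ∈ ρ j (g x) ↔ B ∈ ρ n x)

/-- the letter of the part `k` of `a m`: the sets of parts of `a 0` which fit into it -/
def colE (T : V → V → Θ) (a : ℕ → Finset V) (pt : ℕ → V → ℕ) (C : ℕ → V → Set V)
    (ρ : ℕ → V → Ultrafilter V) (m k : ℕ) : Set (Set ↥(prt a pt 0)) :=
  {I | FitS T a pt ρ (cn a C 0) 0 (Subtype.val '' I) m k}

/-- the rank of the piece `(j, k)` -/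
def rkp (loc : ℕ → ℕ → ℕ) (j k : ℕ) : ℕ ×ₗ ℕ ×ₗ ℕ := toLex (loc j k, toLex (j, k))

end Pool.Agent.Lib.MP_4fb322_lc_h96
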