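import Pool.Agent.Lib.MP_4fb322_lc_h96.Defs

set_option autoImplicit false

/-!
# Row H01

Basic facts on parts and `Fit`. `Fit.trans`: composition of the maps (PE.comp). `fit_of_ce`: take `g s`; the embedding
property from `CE.emb` with equal copies: both sides of the equation of `TW` are `T`-values, because source points are
in the same piece (`rk` equal: `simp [TW, rk]`) and target points too. (About 60 lines.)
-/

namespace Pool.Agent.Lib.MP_4fb322_lc_h96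

open Set Filter Pool.Agent.Lib.MP_4fb322_lc_h7

variable {Θ V : Type} [Nonempty Θ]

theorem mem_prt {a : ℕ → Finset V} {pt : ℕ → V → ℕ} {n i : ℕ} :
    i ∈ prt a pt n ↔ i ≠ 0 ∧ ∃ x ∈ a n, pt n x = i := by
  simp [prt, Finset.mem_erase, Finset.mem_image]

omit [Nonempty Θ] in
theorem Fit.refl (T : V → V → Θ) (a : ℕ → Finset V) (pt : ℕ → V → ℕ) (ρ : ℕ → V → Ultrafilter V)
    (𝒞 : Set (Set V)) (n i : ℕ) : Fit T a pt ρ 𝒞 n i n i := by
  exact ⟨fun x => x, PE.id T _, fun x hx => ⟨hx, fun B _ => Iff.rfl⟩⟩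

omit [Nonempty Θ] in
theorem Fit.trans {T : V → V → Θ} {a : ℕ → Finset V} {pt : ℕ → V → ℕ} {ρ : ℕ → V → Ultrafilter V}
    {𝒞 : Set (Set V)} {n i j k m r : ℕ} (h : Fit T a pt ρ 𝒞 n i j k)
    (h' : Fit T a pt ρ 𝒞 j k m r) : Fit T a pt ρ 𝒞 n i m r := by
  obtain ⟨g, hg, hg2⟩ := h
  obtain ⟨g', hg', hg2'⟩ := h'
  refine ⟨fun x => g' (g x), hg.comp hg' (fun x hx => (hg2 x hx).1), fun x hx => ?_⟩
  obtain ⟨a1, a2⟩ := hg2 x hx
  obtain ⟨b1, b2⟩ := hg2' (g x) a1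
  exact ⟨b1, fun B hB => (b2 B hB).trans (a2 B hB)⟩

omit [Nonempty Θ] in
theorem Fit.mono {T : V → V → Θ} {a : ℕ → Finset V} {pt : ℕ → V → ℕ} {ρ : ℕ → V → Ultrafilter V}
    {𝒞 𝒞' : Set (Set V)} {n i j k : ℕ} (h : Fit T a pt ρ 𝒞' n i j k) (h' : 𝒞 ⊆ 𝒞') :
    Fit T a pt ρ 𝒞 n i j k := by
  obtain ⟨g, hg, hg2⟩ := h
  exact ⟨g, hg, fun x hx => ⟨(hg2 x hx).1, fun B hB => (hg2 x hx).2 B (h' hB)⟩⟩

theorem fit_of_ce {op : Θ → Θ} {T : V → V → Θ} {a : ℕ → Finset V} {u : Ultrafilter (V → V)}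
    {pt : ℕ → V → ℕ} {π : ℕ → V → V} {C : ℕ → V → Set V} {ρ : ℕ → V → Ultrafilter V} {loc : ℕ → ℕ → ℕ} {𝒞 : Set (Set V)} {n c : ℕ} {K : Set ℕ}
    {A : Set (ℕ × ℕ)} {J Q : ℕ → ℕ → ℕ} {g : ℕ → V → V} (h : CE op T a pt ρ loc 𝒞 n c K A J Q g)
    {s i : ℕ} (hs : s < c) (hi : i ∈ prt a pt n) (hK : i ∈ K) :
    Fit T a pt ρ 𝒞 n i (J s i) (Q s i) := by
  have hi0 : i ≠ 0 := (Finset.mem_erase.1 hi).1
  have hpt : ∀ x ∈ part a pt n i, x ∈ a n ∧ pt n x ≠ 0 ∧ pt n x ∈ K ∧ pt n x = i := by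
    rintro x ⟨hx, rfl⟩
    exact ⟨hx, hi0, hK, rfl⟩
  have hgm : ∀ x ∈ part a pt n i, g s x ∈ part a pt (J s i) (Q s i) ∧
      ∀ B ∈ 𝒞, (B ∈ ρ (J s i) (g s x) ↔ B ∈ ρ n x) := by
    intro x hx
    obtain ⟨h1, h2, h3, h4⟩ := hpt x hx
    have := h.gm s hs x h1 h2 h3
    rwa [h4] at this
  have hemb : ∀ x ∈ part a pt n i, ∀ y ∈ part a pt n i, x ≠ y →
      g s x ≠ g s y ∧ T (g s x) (g s y) = T x y := by
    intro x hx y hy hxy
    obtain ⟨h1, h2, h3, h4⟩ := hpt x hx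
    obtain ⟨k1, k2, k3, k4⟩ := hpt y hy
    have := h.emb s hs s hs x h1 y k1 h2 k2 h3 k3 (fun e => hxy (congrArg Prod.snd e))
    rw [h4, k4] at this
    obtain ⟨e1, e2⟩ := this
    have r1 : TW op T pt ρ (Sum.inr (loc (J s i) (Q s i), J s i, g s x))
        (Sum.inr (loc (J s i) (Q s i), J s i, g s y)) = T (g s x) (g s y) := by
      have hr : rk pt (loc (J s i) (Q s i), J s i, g s x) =
          rk pt (loc (J s i) (Q s i), J s i, g s y) := by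
        simp only [rk, (hgm x hx).1.2, (hgm y hy).1.2]
      exact if_pos hr
    have r2 : TW op T pt ρ (Sum.inr (s, n, x)) (Sum.inr (s, n, y)) = T x y := by
      have hr : rk pt (s, n, x) = rk pt (s, n, y) := by
        simp only [rk, h4, k4]
      exact if_pos hr
    refine ⟨fun e => e1 (by rw [e]), ?_⟩
    rw [← r1, ← r2]
    exact e2
  refine ⟨g s, ⟨?_, ?_⟩, hgm⟩
  · intro x hx y hy hxy
    by_contra hne
    exact (hemb x hx y hy hne).1 hxy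
  · intro x hx y hy
    by_cases hxy : x = y
    · subst hxy
      obtain ⟨h1, h2, h3, -⟩ := hpt x hx
      exact h.self s hs x h1 h2 h3
    · exact (hemb x hx y hy hxy).2

end Pool.Agent.Lib.MP_4fb322_lc_h96
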