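import Pool.Agent.Lib.MP_4fb322_lc_h96.Defs

set_option autoImplicit false

/-!
# Row H02

The structure `TW` between near points. Let `z`, `z'` be valid points (nonpins) near `x`, `y` with respect to `cn a C
n`, `x`, `y` in different parts of `a n`, `rk pt z < rk pt z'`. If the part of `x` comes before the part of `y` (or
the two parts commute) then `TW z z' = T x y`. PROOF: `TW (inr z) (inr z') = QQ T (ρ z) (ρ z')` (`rk` different and
smaller); by nearness and `H.posK` the sets `C n x`, `C n y` are in `ρ z`, `ρ z'`, and both are in `KK u` (`H.posK`),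
so `(D.mrob n).rob.cross` resp. the second component of `Com` (with `i := pt n y`, `i' := pt n x`) gives `QQ T (ρ z)
(ρ z') = T x y`. `TW (inr z') (inr z) = op (..) = op (T x y) = T y x` (`D.opT`). `z ≠ z'` because the ranks differ.
(About 60 lines.)
-/

namespace Pool.Agent.Lib.MP_4fb322_lc_h96

open Set Filter Pool.Agent.Lib.MP_4fb322_lc_h7

variable {Θ V : Type} [Nonempty Θ]

theorem pair_lt {op : Θ → Θ} {T : V → V → Θ} {a : ℕ → Finset V} {u : Ultrafilter (V → V)}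
    {pt : ℕ → V → ℕ} {π : ℕ → V → V} {C : ℕ → V → Set V} {ρ : ℕ → V → Ultrafilter V} (D : Dat op T a u pt π C ρ) (H : Half1 op T a u pt π C ρ) {n : ℕ} {x y : V}
    (hx : x ∈ a n) (hy : y ∈ a n) (hx0 : pt n x ≠ 0) (hy0 : pt n y ≠ 0)
    (hord : pt n x < pt n y ∨ (pt n y < pt n x ∧ Com T u a pt C n (pt n y) (pt n x)))
    {z z' : ℕ × ℕ × V} (hz : z.2.2 ∈ a z.2.1 ∧ pt z.2.1 z.2.2 ≠ 0)
    (hz' : z'.2.2 ∈ a z'.2.1 ∧ pt z'.2.1 z'.2.2 ≠ 0)
    (hnz : ∀ B ∈ cn a C n, (B ∈ ρ z.2.1 z.2.2 ↔ B ∈ ρ n x))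
    (hnz' : ∀ B ∈ cn a C n, (B ∈ ρ z'.2.1 z'.2.2 ↔ B ∈ ρ n y)) (hlt : rk pt z < rk pt z') :
    z ≠ z' ∧ TW op T pt ρ (Sum.inr z) (Sum.inr z') = T x y ∧
      TW op T pt ρ (Sum.inr z') (Sum.inr z) = T y x := by
  have kz := (H.posK z.2.1 z.2.2 hz.1 hz.2).1
  have kz' := (H.posK z'.2.1 z'.2.2 hz'.1 hz'.2).1
  have cx : C n x ∈ ρ z.2.1 z.2.2 :=
    (hnz (C n x) ⟨x, Finset.mem_coe.2 hx, rfl⟩).2 (H.posK n x hx hx0).2
  have cy : C n y ∈ ρ z'.2.1 z'.2.2 :=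
    (hnz' (C n y) ⟨y, Finset.mem_coe.2 hy, rfl⟩).2 (H.posK n y hy hy0).2
  have hq : QQ T (ρ z.2.1 z.2.2) (ρ z'.2.1 z'.2.2) = T x y := by
    rcases hord with h | ⟨_, hc⟩
    · exact (D.mrob n).rob.cross x hx y hy (Nat.pos_of_ne_zero hx0) h _ kz _ kz' cx cy
    · exact (hc y ⟨hy, rfl⟩ x ⟨hx, rfl⟩ _ kz' _ kz cy cx).2
  refine ⟨fun h => hlt.ne (by rw [h]), ?_, ?_⟩
  · simp only [TW]
    rw [if_neg hlt.ne, if_pos hlt, hq]
  · simp only [TW]
    rw [if_neg hlt.ne', if_neg hlt.not_gt, hq]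
    exact (D.opT x y).symm

end Pool.Agent.Lib.MP_4fb322_lc_h96
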