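import Pool.Agent.Lib.MP_4fb322_lc_h96.Defs
import Pool.Agent.Lib.MP_4fb322_lc_h96.H02

set_option autoImplicit false

/-!
# Row H03

The structure between source points. (1) `src_same`: two points of the same copy: if the parts are equal then `rk` is
equal and `TW = T`; otherwise `pair_lt` (with `z = (s,n,x)`, `z' = (s,n,y)`) or its converse. (2) `src_com`: points of
commuting parts in arbitrary copies: `rk` is different; if `rk pt z < rk pt z'` use pair_lt (with `hord` from the case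
distinction on the parts; if `pt n x < pt n y` the first alternative, else the second), if `rk pt z' < rk pt z` use
pair_lt for the exchanged points: its `hord` is `pt n y < pt n x` or (`pt n x < pt n y` and Com), and its last
component. (About 50 lines.)
-/

namespace Pool.Agent.Lib.MP_4fb322_lc_h96

open Set Filter Pool.Agent.Lib.MP_4fb322_lc_h7

variable {Θ V : Type} [Nonempty Θ]

private theorem rk_lt_same {pt : ℕ → V → ℕ} {s n : ℕ} {x y : V} (h : pt n x < pt n y) :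
    rk pt (s, n, x) < rk pt (s, n, y) := by
  unfold rk
  rw [Prod.Lex.toLex_lt_toLex]
  refine Or.inr ⟨rfl, ?_⟩
  simp only
  rw [Prod.Lex.toLex_lt_toLex]
  exact Or.inr ⟨rfl, h⟩

theorem src_same {op : Θ → Θ} {T : V → V → Θ} {a : ℕ → Finset V} {u : Ultrafilter (V → V)}
    {pt : ℕ → V → ℕ} {π : ℕ → V → V} {C : ℕ → V → Set V} {ρ : ℕ → V → Ultrafilter V} (D : Dat op T a u pt π C ρ) (H : Half1 op T a u pt π C ρ) {n s : ℕ} {x y : V}
    (hx : x ∈ a n) (hy : y ∈ a n) (hx0 : pt n x ≠ 0) (hy0 : pt n y ≠ 0) :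
    TW op T pt ρ (Sum.inr (s, n, x)) (Sum.inr (s, n, y)) = T x y := by
  rcases lt_trichotomy (pt n x) (pt n y) with h | h | h
  · exact (pair_lt D H hx hy hx0 hy0 (Or.inl h) (z := (s, n, x)) (z' := (s, n, y)) ⟨hx, hx0⟩
      ⟨hy, hy0⟩ (fun _ _ => Iff.rfl) (fun _ _ => Iff.rfl) (rk_lt_same h)).2.1
  · have e : rk pt (s, n, x) = rk pt (s, n, y) := by
      simp only [rk, h]
    simp only [TW]
    rw [if_pos e]
  · exact (pair_lt D H hy hx hy0 hx0 (Or.inl h) (z := (s, n, y)) (z' := (s, n, x)) ⟨hy, hy0⟩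
      ⟨hx, hx0⟩ (fun _ _ => Iff.rfl) (fun _ _ => Iff.rfl) (rk_lt_same h)).2.2

theorem src_com {op : Θ → Θ} {T : V → V → Θ} {a : ℕ → Finset V} {u : Ultrafilter (V → V)}
    {pt : ℕ → V → ℕ} {π : ℕ → V → V} {C : ℕ → V → Set V} {ρ : ℕ → V → Ultrafilter V} (D : Dat op T a u pt π C ρ) (H : Half1 op T a u pt π C ρ) {n : ℕ} (s s' : ℕ) {x y : V}
    (hx : x ∈ a n) (hy : y ∈ a n) (hx0 : pt n x ≠ 0) (hy0 : pt n y ≠ 0) (hne : pt n x ≠ pt n y)
    (hc : ¬ Rig T u a pt C n (pt n x) (pt n y)) :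
    TW op T pt ρ (Sum.inr (s, n, x)) (Sum.inr (s', n, y)) = T x y := by
  have px : pt n x ∈ prt a pt n := by
    unfold prt
    exact Finset.mem_erase.2 ⟨hx0, Finset.mem_image_of_mem _ hx⟩
  have py : pt n y ∈ prt a pt n := by
    unfold prt
    exact Finset.mem_erase.2 ⟨hy0, Finset.mem_image_of_mem _ hy⟩
  have c1 : pt n x < pt n y → Com T u a pt C n (pt n x) (pt n y) := by
    intro h
    by_contra hcon
    exact hc ⟨px, py, Or.inl ⟨h, hcon⟩⟩
  have c2 : pt n y < pt n x → Com T u a pt C n (pt n y) (pt n x) := by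
    intro h
    by_contra hcon
    exact hc ⟨px, py, Or.inr ⟨h, hcon⟩⟩
  have hrk : rk pt (s, n, x) ≠ rk pt (s', n, y) := by
    intro h
    have h1 := congrArg (fun t => (ofLex (ofLex t).2).2) h
    exact hne h1
  rcases lt_or_gt_of_ne hrk with h | h
  · refine (pair_lt D H hx hy hx0 hy0 ?_ (z := (s, n, x)) (z' := (s', n, y)) ⟨hx, hx0⟩
      ⟨hy, hy0⟩ (fun _ _ => Iff.rfl) (fun _ _ => Iff.rfl) h).2.1
    rcases lt_or_gt_of_ne hne with h2 | h2
    · exact Or.inl h2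
    · exact Or.inr ⟨h2, c2 h2⟩
  · refine (pair_lt D H hy hx hy0 hx0 ?_ (z := (s', n, y)) (z' := (s, n, x)) ⟨hy, hy0⟩
      ⟨hx, hx0⟩ (fun _ _ => Iff.rfl) (fun _ _ => Iff.rfl) h).2.2
    rcases lt_or_gt_of_ne hne with h2 | h2
    · exact Or.inr ⟨h2, c1 h2⟩
    · exact Or.inl h2

end Pool.Agent.Lib.MP_4fb322_lc_h96
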