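import Pool.Agent.Lib.MP_4fb322_lc_h96.Defs

set_option autoImplicit false

/-!
# Row H04

Gluing along the pins. A map of `a n` into the valid points which sends the pins to the pins, every other point to a
near nonpin, and which preserves the structure between nonpins is an embedding. PROOF: pins/pins: `pinj`, `pinT` of
`(D.mrob n).rob`; pin `x` and nonpin `y`: `f x = inl (π n x)`, `f y = inr z`; `TW (inl p) (inr z) = lim (ρ z) (T p)`
and `pinQ` with `v = ρ z ∈ KK u`, `C n y ∈ ρ z` (near, `H.posK`) gives `T x y`; the converse by `op` and `D.opT`. `T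
(f x) (f x)`-values: for `x = y` nonpin: `TW (inr z) (inr z) = T z.2.2 z.2.2` — this is the hypothesis `hself`; for a
pin `T (π x) (π x) = T x x` by `pinT`. (About 70 lines.)
-/

namespace Pool.Agent.Lib.MP_4fb322_lc_h96

open Set Filter Pool.Agent.Lib.MP_4fb322_lc_h7

variable {Θ V : Type} [Nonempty Θ]

theorem glue_pins {op : Θ → Θ} {T : V → V → Θ} {a : ℕ → Finset V} {u : Ultrafilter (V → V)}
    {pt : ℕ → V → ℕ} {π : ℕ → V → V} {C : ℕ → V → Set V} {ρ : ℕ → V → Ultrafilter V} (D : Dat op T a u pt π C ρ) (H : Half1 op T a u pt π C ρ) {n : ℕ} (f : V → Pt V)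
    (hpin : ∀ x ∈ a n, pt n x = 0 → f x = Sum.inl (π n x))
    (hnp : ∀ x ∈ a n, pt n x ≠ 0 → ∃ z : ℕ × ℕ × V, f x = Sum.inr z ∧ z.2.2 ∈ a z.2.1 ∧
      pt z.2.1 z.2.2 ≠ 0 ∧ ∀ B ∈ cn a C n, (B ∈ ρ z.2.1 z.2.2 ↔ B ∈ ρ n x))
    (hself : ∀ x ∈ a n, pt n x ≠ 0 → TW op T pt ρ (f x) (f x) = T x x)
    (hpair : ∀ x ∈ a n, ∀ y ∈ a n, pt n x ≠ 0 → pt n y ≠ 0 → x ≠ y →
      f x ≠ f y ∧ TW op T pt ρ (f x) (f y) = T x y) :
    PE T (TW op T pt ρ) (a n : Set V) f := by
  have hR := (D.mrob n).rob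
  have hpn : ∀ x ∈ a n, ∀ y ∈ a n, pt n x = 0 → pt n y ≠ 0 →
      TW op T pt ρ (f x) (f y) = T x y ∧ TW op T pt ρ (f y) (f x) = T y x := by
    intro x hx y hy h0 h1
    obtain ⟨z, hz, hz1, hz2, hz3⟩ := hnp y hy h1
    have hK := (H.posK z.2.1 z.2.2 hz1 hz2).1
    have hC : C n y ∈ ρ z.2.1 z.2.2 :=
      (hz3 (C n y) (Set.mem_image_of_mem (C n) (Finset.mem_coe.2 hy))).2 (H.posK n y hy h1).2
    have hl := (hR.pinQ x hx y hy h0 h1 _ hK hC).1
    rw [hpin x hx h0, hz]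
    refine ⟨hl, ?_⟩
    have e1 : TW op T pt ρ (Sum.inr z) (Sum.inl (π n x)) =
        op (lim (ρ z.2.1 z.2.2) (fun b => T (π n x) b)) := rfl
    rw [e1, hl, D.opT x y]
  refine ⟨?_, ?_⟩
  · intro x hx y hy hxy
    rw [Finset.mem_coe] at hx hy
    by_contra hne
    by_cases h0 : pt n x = 0
    · by_cases h1 : pt n y = 0
      · rw [hpin x hx h0, hpin y hy h1] at hxy
        exact hne (hR.pinj x hx y hy h0 h1 (Sum.inl_injective hxy))
      · obtain ⟨z, hz, -⟩ := hnp y hy h1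
        rw [hpin x hx h0, hz] at hxy
        cases hxy
    · by_cases h1 : pt n y = 0
      · obtain ⟨z, hz, -⟩ := hnp x hx h0
        rw [hpin y hy h1, hz] at hxy
        cases hxy
      · exact (hpair x hx y hy h0 h1 hne).1 hxy
  · intro x hx y hy
    rw [Finset.mem_coe] at hx hy
    by_cases h0 : pt n x = 0
    · by_cases h1 : pt n y = 0
      · rw [hpin x hx h0, hpin y hy h1]
        exact hR.pinT x hx y hy h0 h1
      · exact (hpn x hx y hy h0 h1).1
    · by_cases h1 : pt n y = 0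
      · exact (hpn y hy x hx h1 h0).2
      · by_cases hxy : x = y
        · rw [← hxy]
          exact hself x hx h0
        · exact (hpair x hx y hy h0 h1 hxy).2

end Pool.Agent.Lib.MP_4fb322_lc_h96
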