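import Pool.Agent.Lib.MP_4fb322_lc_h96.Defs

set_option autoImplicit false

/-!
# Row H05

Concatenation of decompositions (pure). `P m` is cut at the element `k₁ m`. Put `L = L₁ + 1 + L₂`, `loc m k = loc₁ m
k` for `k < k₁ m`, `L₁` for `k = k₁ m`, `L₁ + 1 + loc₂ m k` for `k > k₁ m`; `G = {l | l < L₁ ∧ l ∈ G₁} ∪ {L₁ + 1 + l |
l < L₂, l ∈ G₂}`, `Al`, `e` accordingly (`e m L₁ = k₁ m`), `Ty = Ty₁ ∩ Ty₂ ∩ Ty₀`. All fields are immediate by cases.
(About 120 lines.)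
-/

namespace Pool.Agent.Lib.MP_4fb322_lc_h96

open Set Filter Pool.Agent.Lib.MP_4fb322_lc_h7

variable {Θ V : Type} [Nonempty Θ]

omit [Nonempty Θ] in
theorem dec_concat {P P₁ P₂ : ℕ → Finset ℕ} {α : Type} {col : ℕ → ℕ → α} {k₁ : ℕ → ℕ}
    {Ty₁ Ty₂ : Set ℕ} {L₁ L₂ : ℕ} {G₁ G₂ : Set ℕ} {Al₁ Al₂ : ℕ → Set α} {loc₁ e₁ loc₂ e₂ : ℕ → ℕ → ℕ}
    (h₁ : Dec P₁ col Ty₁ L₁ G₁ Al₁ loc₁ e₁) (h₂ : Dec P₂ col Ty₂ L₂ G₂ Al₂ loc₂ e₂)
    (h : ∀ᶠ m in (UF : Filter ℕ), k₁ m ∈ P m ∧ P₁ m = (P m).filter (fun k => k < k₁ m) ∧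
      P₂ m = (P m).filter (fun k => k₁ m < k)) :
    ∃ (Ty : Set ℕ) (L : ℕ) (G : Set ℕ) (Al : ℕ → Set α) (loc e : ℕ → ℕ → ℕ),
      Dec P col Ty L G Al loc e := by
  classical
  let loc : ℕ → ℕ → ℕ := fun m k =>
    if k < k₁ m then loc₁ m k else if k = k₁ m then L₁ else L₁ + 1 + loc₂ m k
  let e : ℕ → ℕ → ℕ := fun m l =>
    if l < L₁ then e₁ m l else if l = L₁ then k₁ m else e₂ m (l - (L₁ + 1))
  let Al : ℕ → Set α := fun l => if l < L₁ then Al₁ l else Al₂ (l - (L₁ + 1))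
  let G : Set ℕ := {l | (l < L₁ ∧ l ∈ G₁) ∨ ∃ l', l' < L₂ ∧ l' ∈ G₂ ∧ l = L₁ + 1 + l'}
  let Ty : Set ℕ := {m | m ∈ Ty₁ ∧ m ∈ Ty₂ ∧ k₁ m ∈ P m ∧
    P₁ m = (P m).filter (fun k => k < k₁ m) ∧ P₂ m = (P m).filter (fun k => k₁ m < k)}
  have hl1 : ∀ m k, k < k₁ m → loc m k = loc₁ m k := fun m k hk => by
    simp only [loc, if_pos hk]
  have hl2 : ∀ m, loc m (k₁ m) = L₁ := fun m => by
    simp only [loc, lt_irrefl, if_false, if_true]
  have hl3 : ∀ m k, k₁ m < k → loc m k = L₁ + 1 + loc₂ m k := fun m k hk => by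
    have h1 : ¬ k < k₁ m := by omega
    have h2 : ¬ k = k₁ m := by omega
    simp only [loc, if_neg h1, if_neg h2]
  have he1 : ∀ m l, l < L₁ → e m l = e₁ m l := fun m l hl => by
    simp only [e, if_pos hl]
  have he2 : ∀ m, e m L₁ = k₁ m := fun m => by
    simp only [e, lt_irrefl, if_false, if_true]
  have he3 : ∀ m l, e m (L₁ + 1 + l) = e₂ m l := fun m l => by
    have h1 : ¬ L₁ + 1 + l < L₁ := by omega
    have h2 : ¬ L₁ + 1 + l = L₁ := by omega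
    have h3 : L₁ + 1 + l - (L₁ + 1) = l := by omega
    simp only [e, if_neg h1, if_neg h2, h3]
  have hA1 : ∀ l, l < L₁ → Al l = Al₁ l := fun l hl => by
    simp only [Al, if_pos hl]
  have hA2 : ∀ l, Al (L₁ + 1 + l) = Al₂ l := fun l => by
    have h1 : ¬ L₁ + 1 + l < L₁ := by omega
    have h3 : L₁ + 1 + l - (L₁ + 1) = l := by omega
    simp only [Al, if_neg h1, h3]
  have hP1 : ∀ m ∈ Ty, ∀ k ∈ P m, k < k₁ m → k ∈ P₁ m := by
    rintro m ⟨-, -, -, h4, -⟩ k hk hlt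
    rw [h4]
    exact Finset.mem_filter.2 ⟨hk, hlt⟩
  have hP2 : ∀ m ∈ Ty, ∀ k ∈ P m, k₁ m < k → k ∈ P₂ m := by
    rintro m ⟨-, -, -, -, h5⟩ k hk hlt
    rw [h5]
    exact Finset.mem_filter.2 ⟨hk, hlt⟩
  have hP1' : ∀ m ∈ Ty, ∀ k ∈ P₁ m, k ∈ P m ∧ k < k₁ m := by
    rintro m ⟨-, -, -, h4, -⟩ k hk
    rw [h4] at hk
    exact Finset.mem_filter.1 hk
  have hP2' : ∀ m ∈ Ty, ∀ k ∈ P₂ m, k ∈ P m ∧ k₁ m < k := by
    rintro m ⟨-, -, -, -, h5⟩ k hk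
    rw [h5] at hk
    exact Finset.mem_filter.1 hk
  have htyp : ∀ᶠ m in (UF : Filter ℕ), m ∈ Ty := by
    filter_upwards [h₁.typ, h₂.typ, h] with m a1 a2 a3
    exact ⟨a1, a2, a3⟩
  refine ⟨Ty, L₁ + 1 + L₂, G, Al, loc, e, htyp, ?_, ?_, ?_, ?_, ?_⟩
  · intro m hm k hk
    rcases lt_trichotomy k (k₁ m) with hlt | heq | hgt
    · rw [hl1 m k hlt]
      have := h₁.lt m hm.1 k (hP1 m hm k hk hlt)
      omega
    · rw [heq, hl2]
      omega
    · rw [hl3 m k hgt]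
      have := h₂.lt m hm.2.1 k (hP2 m hm k hk hgt)
      omega
  · intro m hm k hk k' hk' hkk
    rcases lt_trichotomy k (k₁ m) with hlt | heq | hgt
    · rw [hl1 m k hlt]
      have a1 := h₁.lt m hm.1 k (hP1 m hm k hk hlt)
      rcases lt_trichotomy k' (k₁ m) with hlt' | heq' | hgt'
      · rw [hl1 m k' hlt']
        exact h₁.mono m hm.1 k (hP1 m hm k hk hlt) k' (hP1 m hm k' hk' hlt') hkk
      · rw [heq', hl2]
        omega
      · rw [hl3 m k' hgt']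
        omega
    · have hgt' : k₁ m < k' := by omega
      rw [heq, hl2, hl3 m k' hgt']
      omega
    · have hgt' : k₁ m < k' := by omega
      rw [hl3 m k hgt, hl3 m k' hgt']
      have := h₂.mono m hm.2.1 k (hP2 m hm k hk hgt) k' (hP2 m hm k' hk' hgt') hkk
      omega
  · intro m hm l hl hlG
    rcases lt_trichotomy l L₁ with hlt | heq | hgt
    · have hG1 : l ∉ G₁ := fun hh => hlG (Or.inl ⟨hlt, hh⟩)
      obtain ⟨b1, b2, b3⟩ := h₁.sing m hm.1 l hlt hG1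
      obtain ⟨c1, c2⟩ := hP1' m hm _ b1
      rw [he1 m l hlt]
      refine ⟨c1, by rw [hl1 m _ c2, b2], fun k hk hkl => ?_⟩
      rcases lt_trichotomy k (k₁ m) with hlt' | heq' | hgt'
      · rw [hl1 m k hlt'] at hkl
        exact b3 k (hP1 m hm k hk hlt') hkl
      · rw [heq', hl2] at hkl
        omega
      · rw [hl3 m k hgt'] at hkl
        omega
    · subst heq
      rw [he2]
      refine ⟨hm.2.2.1, hl2 m, fun k hk hkl => ?_⟩
      rcases lt_trichotomy k (k₁ m) with hlt' | heq' | hgt'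
      · rw [hl1 m k hlt'] at hkl
        have := h₁.lt m hm.1 k (hP1 m hm k hk hlt')
        omega
      · exact heq'
      · rw [hl3 m k hgt'] at hkl
        omega
    · obtain ⟨l', rfl⟩ : ∃ l', l = L₁ + 1 + l' := ⟨l - (L₁ + 1), by omega⟩
      have hl' : l' < L₂ := by omega
      have hG2 : l' ∉ G₂ := fun hh => hlG (Or.inr ⟨l', hl', hh, rfl⟩)
      obtain ⟨b1, b2, b3⟩ := h₂.sing m hm.2.1 l' hl' hG2
      obtain ⟨c1, c2⟩ := hP2' m hm _ b1
      rw [he3]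
      refine ⟨c1, by rw [hl3 m _ c2, b2], fun k hk hkl => ?_⟩
      rcases lt_trichotomy k (k₁ m) with hlt' | heq' | hgt'
      · rw [hl1 m k hlt'] at hkl
        have := h₁.lt m hm.1 k (hP1 m hm k hk hlt')
        omega
      · rw [heq', hl2] at hkl
        omega
      · rw [hl3 m k hgt'] at hkl
        exact b3 k (hP2 m hm k hk hgt') (by omega)
  · intro m hm k hk hG
    rcases lt_trichotomy k (k₁ m) with hlt' | heq' | hgt'
    · rw [hl1 m k hlt'] at hG ⊢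
      have a1 := h₁.lt m hm.1 k (hP1 m hm k hk hlt')
      rw [hA1 _ a1]
      rcases hG with hG | ⟨l', -, -, hG⟩
      · exact h₁.lett m hm.1 k (hP1 m hm k hk hlt') hG.2
      · omega
    · rw [heq', hl2] at hG
      rcases hG with hG | ⟨l', -, -, hG⟩
      · exact absurd hG.1 (lt_irrefl _)
      · omega
    · rw [hl3 m k hgt'] at hG ⊢
      rw [hA2]
      rcases hG with hG | ⟨l', -, hG2, hG⟩
      · have := hG.1
        omega
      · have : loc₂ m k = l' := by omega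
        rw [← this] at hG2
        exact h₂.lett m hm.2.1 k (hP2 m hm k hk hgt') hG2
  · intro l hlG hl z hz
    rcases hlG with ⟨hlt, hG1⟩ | ⟨l', hl', hG2, rfl⟩
    · rw [hA1 l hlt] at hz
      filter_upwards [h₁.rich l hG1 hlt z hz, htyp] with m hm hmT
      obtain ⟨s, hs, hs2⟩ := hm
      refine ⟨s, hs, fun i => ?_⟩
      obtain ⟨b1, b2, b3⟩ := hs2 i
      obtain ⟨c1, c2⟩ := hP1' m hmT _ b1
      exact ⟨c1, by rw [hl1 m _ c2, b2], b3⟩
    · rw [hA2] at hz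
      filter_upwards [h₂.rich l' hG2 hl' z hz, htyp] with m hm hmT
      obtain ⟨s, hs, hs2⟩ := hm
      refine ⟨s, hs, fun i => ?_⟩
      obtain ⟨b1, b2, b3⟩ := hs2 i
      obtain ⟨c1, c2⟩ := hP2' m hmT _ b1
      exact ⟨c1, by rw [hl3 m _ c2, b2], b3⟩

end Pool.Agent.Lib.MP_4fb322_lc_h96
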