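import Pool.Agent.Lib.MP_4fb322_lc_h96.Defs
import Pool.Agent.Lib.MP_4fb322_lc_h96.H05

set_option autoImplicit false

/-!
# Row H06

Every sequence of words over a finite alphabet has a decomposition (pure). Show for every `S : Finset α` (induction on
`S.card`) and all `P`: if for almost all `m` all `k ∈ P m` have `col m k ∈ S`, then there is a `Dec`. If for all lists
`z` over `S` almost all `P m` contain `z` as a subword (strictly increasing `s` with `col m (s i) = z.get i`): take `L
= 1`, `G = {0}`, `Al 0 = S`, `loc = 0`, `Ty` = the indices with `col m k ∈ S`. Otherwise there is a list `z` over `S`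
such that for almost all `m` (`Ultrafilter.eventually_not`) `z` is not a subword of `P m`. Inner induction on `z` (all
`P`): `z = []` is impossible (the empty word is always a subword). `z = b :: z'`: either almost no `P m` contains the
letter `b`: apply the outer induction to `S.erase b` (if `b ∉ P m` for almost all `m`); or almost all `P m` contain
`b`: `k₁ m` = least `k ∈ P m` with `col m k = b` (Finset.min'/exists_min_image); `P₁ m` (below) does not contain `b`:
outer induction; `P₂ m` (above) does not contain the subword `z'`: inner induction; `dec_concat`. Finally take `S =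
Finset.univ` (`Fintype.ofFinite α`). (About 130 lines.)
-/

namespace Pool.Agent.Lib.MP_4fb322_lc_h96

open Set Filter Pool.Agent.Lib.MP_4fb322_lc_h7

variable {Θ V : Type} [Nonempty Θ]

/-- `z` is a subword of the word `P m` -/
private def SubW {α : Type} (P : ℕ → Finset ℕ) (col : ℕ → ℕ → α) (z : List α) (m : ℕ) : Prop :=
  ∃ s : Fin z.length → ℕ, StrictMono s ∧ ∀ i, s i ∈ P m ∧ col m (s i) = z.get i

private def HasDec {α : Type} (P : ℕ → Finset ℕ) (col : ℕ → ℕ → α) : Prop :=
  ∃ (Ty : Set ℕ) (L : ℕ) (G : Set ℕ) (Al : ℕ → Set α) (loc e : ℕ → ℕ → ℕ),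
      Dec P col Ty L G Al loc e

private theorem subW_cons {α : Type} {P P₂ : ℕ → Finset ℕ} {col : ℕ → ℕ → α} {b : α} {z : List α}
    {m k : ℕ} (hk : k ∈ P m) (hb : col m k = b) (h2 : P₂ m = (P m).filter (fun j => k < j))
    (h : SubW P₂ col z m) : SubW P col (b :: z) m := by
  obtain ⟨s, hs, hs'⟩ := h
  have hs2 : ∀ i, s i ∈ P m ∧ k < s i := by
    intro i
    have := (hs' i).1
    rw [h2, Finset.mem_filter] at this
    exact this
  let t : Fin (z.length + 1) → ℕ := Fin.cons k s
  have ht0 : t 0 = k := rfl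
  have hts : ∀ i, t (Fin.succ i) = s i := fun i => rfl
  refine ⟨t, ?_, ?_⟩
  · show StrictMono t
    intro i j hij
    induction i using Fin.cases with
    | zero =>
      induction j using Fin.cases with
      | zero => exact absurd hij (lt_irrefl _)
      | succ j =>
        rw [ht0, hts]
        exact (hs2 j).2
    | succ i =>
      induction j using Fin.cases with
      | zero => exact absurd hij (Fin.not_lt_zero _)
      | succ j =>
        rw [hts, hts]
        exact hs (Fin.succ_lt_succ_iff.mp hij)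
  · show ∀ i : Fin (z.length + 1), t i ∈ P m ∧ col m (t i) = (b :: z).get i
    intro i
    induction i using Fin.cases with
    | zero =>
      rw [ht0]
      exact ⟨hk, hb⟩
    | succ i =>
      rw [hts]
      exact ⟨(hs2 i).1, (hs' i).2⟩

private theorem dec_full {α : Type} (P : ℕ → Finset ℕ) (col : ℕ → ℕ → α) (S : Finset α)
    (hS : ∀ᶠ m in (UF : Filter ℕ), ∀ k ∈ P m, col m k ∈ S)
    (h : ∀ z : List α, (∀ c ∈ z, c ∈ S) → ∀ᶠ m in (UF : Filter ℕ), SubW P col z m) :
    HasDec P col := by
  refine ⟨{m | ∀ k ∈ P m, col m k ∈ S}, 1, {0}, fun _ => (S : Set α), fun _ _ => 0, fun _ _ => 0, ?_⟩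
  refine ⟨hS, ?_, ?_, ?_, ?_, ?_⟩
  · intro m _ k _
    exact Nat.zero_lt_one
  · intro m _ k _ k' _ _
    exact le_rfl
  · intro m _ l hl hlG
    exact absurd (Set.mem_singleton_iff.mpr (by omega)) hlG
  · intro m hm k hk _
    exact hm k hk
  · intro l hl _ z hz
    have hl0 : l = 0 := hl
    subst hl0
    refine (h z (fun c hc => hz c hc)).mono ?_
    rintro m ⟨s, hs, hs'⟩
    exact ⟨s, hs, fun i => ⟨(hs' i).1, rfl, (hs' i).2⟩⟩

private theorem dec_of_not {α : Type} [DecidableEq α] (col : ℕ → ℕ → α) (S : Finset α)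
    (ih : ∀ S' : Finset α, S' ⊂ S → ∀ P : ℕ → Finset ℕ,
      (∀ᶠ m in (UF : Filter ℕ), ∀ k ∈ P m, col m k ∈ S') → HasDec P col) (z : List α) :
    (∀ c ∈ z, c ∈ S) → ∀ P : ℕ → Finset ℕ, (∀ᶠ m in (UF : Filter ℕ), ∀ k ∈ P m, col m k ∈ S) →
      (∀ᶠ m in (UF : Filter ℕ), ¬ SubW P col z m) → HasDec P col := by
  classical
  induction z with
  | nil =>
    intro _ P _ hno
    obtain ⟨m, hm⟩ := hno.exists
    exact absurd ⟨fun i => i.elim0, fun i => i.elim0, fun i => i.elim0⟩ hm
  | cons b z ihz =>
    intro hz P hP hno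
    have hbS : b ∈ S := hz b List.mem_cons_self
    by_cases hb : ∀ᶠ m in (UF : Filter ℕ), ∃ k, k ∈ P m ∧ col m k = b
    · let k₁ : ℕ → ℕ := fun m => if h : ∃ k, k ∈ P m ∧ col m k = b then Nat.find h else 0
      let P₁ : ℕ → Finset ℕ := fun m => (P m).filter (fun k => k < k₁ m)
      let P₂ : ℕ → Finset ℕ := fun m => (P m).filter (fun k => k₁ m < k)
      have hk : ∀ m, (∃ k, k ∈ P m ∧ col m k = b) → k₁ m ∈ P m ∧ col m (k₁ m) = b ∧
          ∀ k ∈ P m, k < k₁ m → col m k ≠ b := by
        intro m h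
        have e1 : k₁ m = Nat.find h := dif_pos h
        rw [e1]
        refine ⟨(Nat.find_spec h).1, (Nat.find_spec h).2, ?_⟩
        intro k hkP hkl hcol
        exact Nat.find_min h hkl ⟨hkP, hcol⟩
      obtain ⟨Ty₁, L₁, G₁, Al₁, loc₁, e₁, D₁⟩ := ih (S.erase b) (Finset.erase_ssubset hbS) P₁ (by
        filter_upwards [hP, hb] with m h1 h2 k hkm
        rw [Finset.mem_filter] at hkm
        exact Finset.mem_erase.mpr ⟨(hk m h2).2.2 k hkm.1 hkm.2, h1 k hkm.1⟩)
      obtain ⟨Ty₂, L₂, G₂, Al₂, loc₂, e₂, D₂⟩ := ihz (fun c hc => hz c (List.mem_cons_of_mem _ hc)) P₂ (by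
        filter_upwards [hP] with m h1 k hkm
        rw [Finset.mem_filter] at hkm
        exact h1 k hkm.1) (by
        filter_upwards [hno, hb] with m h1 h2 h3
        exact h1 (subW_cons (hk m h2).1 (hk m h2).2.1 rfl h3))
      refine dec_concat D₁ D₂ (k₁ := k₁) ?_
      filter_upwards [hb] with m h2
      exact ⟨(hk m h2).1, rfl, rfl⟩
    · have hb' : ∀ᶠ m in (UF : Filter ℕ), ¬ ∃ k, k ∈ P m ∧ col m k = b := by
        rw [Ultrafilter.eventually_not]
        exact hb
      refine ih (S.erase b) (Finset.erase_ssubset hbS) P ?_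
      filter_upwards [hP, hb'] with m h1 h2 k hkm
      exact Finset.mem_erase.mpr ⟨fun h => h2 ⟨k, hkm, h⟩, h1 k hkm⟩

private theorem dec_all {α : Type} [DecidableEq α] (col : ℕ → ℕ → α) (S : Finset α) :
    ∀ P : ℕ → Finset ℕ, (∀ᶠ m in (UF : Filter ℕ), ∀ k ∈ P m, col m k ∈ S) → HasDec P col := by
  induction S using Finset.strongInduction with
  | H S ih =>
    intro P hP
    by_cases hall : ∀ z : List α, (∀ c ∈ z, c ∈ S) → ∀ᶠ m in (UF : Filter ℕ), SubW P col z m
    · exact dec_full P col S hP hall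
    · push Not at hall
      obtain ⟨z, hz, hno⟩ := hall
      refine dec_of_not col S ih z hz P hP ?_
      rw [Ultrafilter.eventually_not]
      simpa using hno

omit [Nonempty Θ] in
theorem words_dec {α : Type} [Finite α] (P : ℕ → Finset ℕ) (col : ℕ → ℕ → α) :
    ∃ (Ty : Set ℕ) (L : ℕ) (G : Set ℕ) (Al : ℕ → Set α) (loc e : ℕ → ℕ → ℕ),
      Dec P col Ty L G Al loc e := by
  classical
  have : Fintype α := Fintype.ofFinite α
  exact dec_all col Finset.univ P (Eventually.of_forall (fun m k _ => Finset.mem_univ _))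

end Pool.Agent.Lib.MP_4fb322_lc_h96
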