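import Pool.Agent.Lib.MP_4fb322_lc_h96.Defs

set_option autoImplicit false

/-!
# Row H07

From fullness to explicit near embeddings of copies. Let `Y = ⋃ s < c, blk a pt s n K` (finite: contained in the image
of `range c × a n`), contained in `Val`. `NA .. ⊆ Val` (pins: PP), `Simp pt (NA ..)`: the block is `loc j (pt j x)`.
`H.recog` gives for almost all `m` an `f` with `NE .. Y (NA (A m)) f`. For `s < c`, `i ∈ prt n`, `i ∈ K`: `blk a pt s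
n {i} ⊆ Y`, `H.ns` gives `l', j, k` and for `x ∈ part n i` a `y ∈ part j k` with `f (inr (s,n,x)) = inr (l',j,y)`;
since the part is nonempty and `f (..) ∈ NA (A m)`: `l' = loc j k`, `(j, loc j k) ∈ A m`, `k ∈ prt j`. Choose `J`, `Q`
(depending on `s`, `i`) and `g s x := y`. `CE.gm`: from `NE` (`rho (inr z) = ρ z.2.1 z.2.2` by rfl). `CE.emb`: from
`PE` (injectivity: `Sum.inr` injective) for the two points of `Y`. (About 120 lines.)
-/

namespace Pool.Agent.Lib.MP_4fb322_lc_h96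

open Set Filter Pool.Agent.Lib.MP_4fb322_lc_h7

variable {Θ V : Type} [Nonempty Θ]

private theorem H07_mem {u : Ultrafilter (V → V)} {a : ℕ → Finset V} {pt : ℕ → V → ℕ}
    {loc : ℕ → ℕ → ℕ} {A : Set (ℕ × ℕ)} {l j : ℕ} {x : V}
    (h : (Sum.inr (l, j, x) : Pt V) ∈ NA u a pt loc A) :
    x ∈ a j ∧ pt j x ≠ 0 ∧ (j, loc j (pt j x)) ∈ A ∧ l = loc j (pt j x) := by
  rcases h with h | h
  · obtain ⟨p, _, he⟩ := h
    cases he
  · obtain ⟨j', x', h1, h2, h3, h4⟩ := h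
    simp only [Sum.inr.injEq, Prod.mk.injEq] at h4
    obtain ⟨h5, h6, h7⟩ := h4
    subst h6
    subst h7
    exact ⟨h1, h2, h3, h5⟩

theorem ce_of_full {op : Θ → Θ} {T : V → V → Θ} {a : ℕ → Finset V} {u : Ultrafilter (V → V)}
    {pt : ℕ → V → ℕ} {π : ℕ → V → V} {C : ℕ → V → Set V} {ρ : ℕ → V → Ultrafilter V} (H : Half1 op T a u pt π C ρ) {loc : ℕ → ℕ → ℕ}
    {A : ℕ → Set (ℕ × ℕ)} (hA : FullA op T u a pt ρ loc A) (n c : ℕ) (K : Set ℕ) {𝒞 : Set (Set V)} (h𝒞 : 𝒞.Finite)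
    (hcn : cn a C n ⊆ 𝒞) :
    ∀ᶠ m in (UF : Filter ℕ), CEX op T a pt ρ loc 𝒞 n c K (A m) := by
  classical
  let Y : Set (Pt V) := {z | ∃ s < c, ∃ x ∈ a n, pt n x ≠ 0 ∧ pt n x ∈ K ∧ z = Sum.inr (s, n, x)}
  have hYfin : Y.Finite := by
    refine ((Finset.range c ×ˢ a n).finite_toSet.image
      (fun q : ℕ × V => (Sum.inr (q.1, n, q.2) : Pt V))).subset ?_
    rintro z ⟨s, hs, x, hx, -, -, rfl⟩
    exact ⟨(s, x), by rw [Finset.mem_coe, Finset.mem_product]; exact ⟨Finset.mem_range.2 hs, hx⟩, rfl⟩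
  have hYval : Y ⊆ Val u a pt := by
    rintro z ⟨s, -, x, hx, h0, -, rfl⟩
    exact Or.inr ⟨s, n, x, hx, h0, rfl⟩
  have hNval : ∀ m, NA u a pt loc (A m) ⊆ Val u a pt := by
    rintro m z (h | h)
    · exact Or.inl h
    · obtain ⟨j, x, h1, h2, -, h4⟩ := h
      exact Or.inr ⟨_, j, x, h1, h2, h4⟩
  have hsimp : ∀ m, Simp pt (NA u a pt loc (A m)) := by
    intro m l l' j x x' h1 h2 he
    rw [(H07_mem h1).2.2.2, (H07_mem h2).2.2.2, he]
  have hrec := H.recog (fun m => NA u a pt loc (A m)) hNval hA 𝒞 h𝒞 Y hYfin hYval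
  filter_upwards [hrec] with m hm
  obtain ⟨f, hf⟩ := hm
  have hY : ∀ s < c, ∀ x ∈ a n, pt n x ≠ 0 → pt n x ∈ K → (Sum.inr (s, n, x) : Pt V) ∈ Y :=
    fun s hs x hx h0 hK => ⟨s, hs, x, hx, h0, hK, rfl⟩
  have key : ∀ s i, s < c → i ∈ prt a pt n → i ∈ K → ∃ j k, (j, loc j k) ∈ A m ∧ k ∈ prt a pt j ∧
      ∀ x ∈ part a pt n i, ∃ y ∈ part a pt j k, f (Sum.inr (s, n, x)) = Sum.inr (loc j k, j, y) := by
    intro s i hs hi hiK
    have hi' := hi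
    unfold prt at hi'
    rw [Finset.mem_erase, Finset.mem_image] at hi'
    obtain ⟨hi0, x₀, hx₀, hpx₀⟩ := hi'
    have hsub : blk a pt s n {i} ⊆ Y := by
      rintro z ⟨x, hx, h0, hxi, rfl⟩
      have hxi' : pt n x = i := hxi
      exact hY s hs x hx h0 (by rw [hxi']; exact hiK)
    have hNE : NE op T pt ρ 𝒞 (blk a pt s n {i}) (NA u a pt loc (A m)) f :=
      ⟨hf.1.mono hsub, fun y hy => hf.2 y (hsub hy)⟩
    obtain ⟨l', j, k, hk0, hall⟩ := H.ns (NA u a pt loc (A m)) n i s f (hNval m) (hsimp m) hi 𝒞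
      (fun x hx => hcn ⟨x, Finset.mem_coe.2 hx, rfl⟩) hNE
    obtain ⟨y₀, hy₀, hfy₀⟩ := hall x₀ ⟨hx₀, hpx₀⟩
    have hmem : (Sum.inr (l', j, y₀) : Pt V) ∈ NA u a pt loc (A m) := by
      rw [← hfy₀]
      exact (hf.2 _ (hY s hs x₀ hx₀ (by rw [hpx₀]; exact hi0) (by rw [hpx₀]; exact hiK))).1
    obtain ⟨g1, g2, g3, g4⟩ := H07_mem hmem
    have hyk : pt j y₀ = k := hy₀.2
    rw [hyk] at g3 g4
    refine ⟨j, k, g3, ?_, ?_⟩
    · unfold prt
      rw [Finset.mem_erase, Finset.mem_image]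
      exact ⟨hk0, y₀, hy₀.1, hyk⟩
    · intro x hx
      obtain ⟨y, hy, hfy⟩ := hall x hx
      exact ⟨y, hy, by rw [hfy, g4]⟩
  choose! J Q hA' hQ hJQ using key
  have hprt : ∀ x ∈ a n, pt n x ≠ 0 → pt n x ∈ prt a pt n := by
    intro x hx h0
    unfold prt
    rw [Finset.mem_erase, Finset.mem_image]
    exact ⟨h0, x, hx, rfl⟩
  have key2 : ∀ (s : ℕ) (x : V), ∃ y : V, s < c → x ∈ a n → pt n x ≠ 0 → pt n x ∈ K →
      y ∈ part a pt (J s (pt n x)) (Q s (pt n x)) ∧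
      f (Sum.inr (s, n, x)) =
        Sum.inr (loc (J s (pt n x)) (Q s (pt n x)), J s (pt n x), y) := by
    intro s x
    by_cases hc : s < c ∧ x ∈ a n ∧ pt n x ≠ 0 ∧ pt n x ∈ K
    · obtain ⟨h1, h2, h3, h4⟩ := hc
      obtain ⟨y, hy, hfy⟩ := hJQ s (pt n x) h1 (hprt x h2 h3) h4 x ⟨h2, rfl⟩
      exact ⟨y, fun _ _ _ _ => ⟨hy, hfy⟩⟩
    · exact ⟨x, fun h1 h2 h3 h4 => absurd ⟨h1, h2, h3, h4⟩ hc⟩
  choose g hg using key2
  refine ⟨J, Q, g, ?_, ?_, ?_, ?_⟩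
  · intro s hs i hi hiK
    exact ⟨hA' s i hs hi hiK, hQ s i hs hi hiK⟩
  · intro s hs x hx h0 hK
    obtain ⟨g1, g2⟩ := hg s x hs hx h0 hK
    refine ⟨g1, fun B hB => ?_⟩
    have := (hf.2 _ (hY s hs x hx h0 hK)).2 B hB
    rw [g2] at this
    exact this
  · intro s hs x hx h0 hK
    obtain ⟨g1, g2⟩ := hg s x hs hx h0 hK
    have := hf.1.2 _ (hY s hs x hx h0 hK) _ (hY s hs x hx h0 hK)
    rw [g2] at this
    simpa [TW] using this
  · intro s hs s' hs' x hx x' hx' h0 h0' hK hK' hne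
    obtain ⟨g1, g2⟩ := hg s x hs hx h0 hK
    obtain ⟨g1', g2'⟩ := hg s' x' hs' hx' h0' hK'
    have hy1 := hY s hs x hx h0 hK
    have hy2 := hY s' hs' x' hx' h0' hK'
    refine ⟨fun he => ?_, ?_⟩
    · have hff : f (Sum.inr (s, n, x)) = f (Sum.inr (s', n, x')) := by
        rw [g2, g2', he]
      have h3 := hf.1.1 hy1 hy2 hff
      simp only [Sum.inr.injEq, Prod.mk.injEq, true_and] at h3
      exact hne (by rw [h3.1, h3.2])
    · have h3 := hf.1.2 _ hy1 _ hy2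
      rw [g2, g2'] at h3
      exact h3

end Pool.Agent.Lib.MP_4fb322_lc_h96
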