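import Pool.Agent.Lib.MP_4fb322_lc_h96.Defs
import Pool.Agent.Lib.MP_4fb322_lc_h96.H01
import Pool.Agent.Lib.MP_4fb322_lc_h96.H02
import Pool.Agent.Lib.MP_4fb322_lc_h96.H04

set_option autoImplicit false

/-!
# Row H08

The standard embedding of `a n` (`n ∈ Ty`) into the arrangement, and fullness of the basic arrangements. `emb_word`:
glue_pins for `f x = inl (π n x)` if `pt n x = 0`, else `inr (loc n (pt n x), n, x)`. Same part: same `rk`, `TW = T`.
Different parts `pt n x < pt n y`: `loc n (pt n x) ≤ loc n (pt n y)` (`hd.mono`), so `rk` is smaller and pair_lt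
applies (nearness is trivial). `full_typ`: `H.full_of`: for `n ∈ Ω ∩ Ty` and `m > n` the map of emb_word has its
values in `NA (A m)` (`π n x ∈ PN u` by `(D.mrob n).rob.pin`); `∀ᶠ m, n < m` holds for the hyperfilter
(`Filter.Tendsto`/`Nat.hyperfilter_le_atTop`, eventually_gt_atTop). (About 90 lines.)
-/

namespace Pool.Agent.Lib.MP_4fb322_lc_h96

open Set Filter Pool.Agent.Lib.MP_4fb322_lc_h7

variable {Θ V : Type} [Nonempty Θ]

theorem emb_word {op : Θ → Θ} {T : V → V → Θ} {a : ℕ → Finset V} {u : Ultrafilter (V → V)}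
    {pt : ℕ → V → ℕ} {π : ℕ → V → V} {C : ℕ → V → Set V} {ρ : ℕ → V → Ultrafilter V} (D : Dat op T a u pt π C ρ) (H : Half1 op T a u pt π C ρ) {α : Type}
    {col : ℕ → ℕ → α} {Ty : Set ℕ} {L : ℕ} {G : Set ℕ} {Al : ℕ → Set α} {loc e : ℕ → ℕ → ℕ}
    (hd : Dec (prt a pt) col Ty L G Al loc e) {n : ℕ} (hn : n ∈ Ty) :
    PE T (TW op T pt ρ) (a n : Set V) (fun x => if pt n x = 0 then Sum.inl (π n x) else
      Sum.inr (loc n (pt n x), n, x)) := by
  classical
  have hne : ∀ x ∈ a n, pt n x ≠ 0 → pt n x ∈ prt a pt n := fun x hx h0 =>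
    mem_prt.2 ⟨h0, x, hx, rfl⟩
  refine glue_pins D H _ (fun x _ h0 => by simp only [if_pos h0]) (fun x hx h0 => ?_)
    (fun x hx h0 => ?_) (fun x hx y hy hx0 hy0 hxy => ?_)
  · exact ⟨(loc n (pt n x), n, x), by simp only [if_neg h0], hx, h0, fun B _ => Iff.rfl⟩
  · simp only [if_neg h0]
    change (if rk pt _ = rk pt _ then _ else _) = _
    rw [if_pos rfl]
  · simp only [if_neg hx0, if_neg hy0]
    rcases lt_trichotomy (pt n x) (pt n y) with hlt | heq | hgt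
    · have hl : loc n (pt n x) ≤ loc n (pt n y) :=
        hd.mono n hn _ (hne x hx hx0) _ (hne y hy hy0) hlt
      have hrk : rk pt (loc n (pt n x), n, x) < rk pt (loc n (pt n y), n, y) := by
        unfold rk
        rw [Prod.Lex.toLex_lt_toLex]
        rcases hl.lt_or_eq with h | h
        · exact Or.inl h
        · refine Or.inr ⟨h, ?_⟩
          rw [Prod.Lex.toLex_lt_toLex]
          exact Or.inr ⟨rfl, hlt⟩
      have h3 := pair_lt D H hx hy hx0 hy0 (Or.inl hlt) (z := (loc n (pt n x), n, x))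
        (z' := (loc n (pt n y), n, y)) ⟨hx, hx0⟩ ⟨hy, hy0⟩ (fun B _ => Iff.rfl)
        (fun B _ => Iff.rfl) hrk
      exact ⟨fun h => h3.1 (Sum.inr.inj h), h3.2.1⟩
    · refine ⟨fun h => hxy ?_, ?_⟩
      · have := Sum.inr.inj h
        exact congrArg (fun z : ℕ × ℕ × V => z.2.2) this
      · change (if rk pt _ = rk pt _ then _ else _) = _
        rw [if_pos]
        simp only [rk, heq]
    · have hl : loc n (pt n y) ≤ loc n (pt n x) :=
        hd.mono n hn _ (hne y hy hy0) _ (hne x hx hx0) hgt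
      have hrk : rk pt (loc n (pt n y), n, y) < rk pt (loc n (pt n x), n, x) := by
        unfold rk
        rw [Prod.Lex.toLex_lt_toLex]
        rcases hl.lt_or_eq with h | h
        · exact Or.inl h
        · refine Or.inr ⟨h, ?_⟩
          rw [Prod.Lex.toLex_lt_toLex]
          exact Or.inr ⟨rfl, hgt⟩
      have h3 := pair_lt D H hy hx hy0 hx0 (Or.inl hgt) (z := (loc n (pt n y), n, y))
        (z' := (loc n (pt n x), n, x)) ⟨hy, hy0⟩ ⟨hx, hx0⟩ (fun B _ => Iff.rfl)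
        (fun B _ => Iff.rfl) hrk
      exact ⟨fun h => h3.1 (Sum.inr.inj h).symm, h3.2.2⟩

theorem full_typ {op : Θ → Θ} {T : V → V → Θ} {a : ℕ → Finset V} {u : Ultrafilter (V → V)}
    {pt : ℕ → V → ℕ} {π : ℕ → V → V} {C : ℕ → V → Set V} {ρ : ℕ → V → Ultrafilter V} (D : Dat op T a u pt π C ρ) (H : Half1 op T a u pt π C ρ) {α : Type}
    {col : ℕ → ℕ → α} {Ty : Set ℕ} {L : ℕ} {G : Set ℕ} {Al : ℕ → Set α} {loc e : ℕ → ℕ → ℕ}
    (hd : Dec (prt a pt) col Ty L G Al loc e) {Ω : Set ℕ} (hΩ : ∀ᶠ j in (UF : Filter ℕ), j ∈ Ω) (hΩT : Ω ⊆ Ty) :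
    FullA op T u a pt ρ loc (fun m => {p | p.1 ∈ Ω ∧ p.1 < m ∧ p.2 < L}) := by
  classical
  have hval : ∀ m, NA u a pt loc {p : ℕ × ℕ | p.1 ∈ Ω ∧ p.1 < m ∧ p.2 < L} ⊆ Val u a pt := by
    rintro m z (⟨p, hp, rfl⟩ | ⟨j, x, hx, h0, -, rfl⟩)
    · exact Or.inl ⟨p, hp, rfl⟩
    · exact Or.inr ⟨_, j, x, hx, h0, rfl⟩
  refine H.full_of _ hval ?_
  filter_upwards [hΩ] with n hn
  have hgt : ∀ᶠ m in (UF : Filter ℕ), n < m := by
    have h1 : ∀ᶠ m in (Filter.cofinite : Filter ℕ), n < m := by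
      rw [Nat.cofinite_eq_atTop]
      exact Filter.eventually_gt_atTop n
    exact h1.filter_mono Filter.hyperfilter_le_cofinite
  filter_upwards [hgt] with m hm
  refine ⟨_, emb_word D H hd (hΩT hn), fun x hx => ?_⟩
  by_cases h0 : pt n x = 0
  · simp only [if_pos h0]
    exact Or.inl ⟨_, (D.mrob n).rob.pin x hx h0, rfl⟩
  · simp only [if_neg h0]
    exact Or.inr ⟨n, x, hx, h0, ⟨hn, hm, hd.lt n (hΩT hn) _ (mem_prt.2 ⟨h0, x, hx, rfl⟩)⟩, rfl⟩

end Pool.Agent.Lib.MP_4fb322_lc_h96
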