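import Pool.Agent.Lib.MP_4fb322_lc_h96.Defs
import Pool.Agent.Lib.MP_4fb322_lc_h96.H01
import Pool.Agent.Lib.MP_4fb322_lc_h96.H07
import Pool.Agent.Lib.MP_4fb322_lc_h96.H08

set_option autoImplicit false

/-!
# Row H09

Every part fits into almost all words, and arrows exist. `fit_some`: otherwise `Ω = {j ∈ Ty | ∀ k ∈ prt j, ¬ Fit 𝒞 n i
j k}` is in UF; full_typ for `Ω`; ce_of_full with `c = 1`, `K = {i}`, `𝒞 ∪ cn a C n` (finite: `cn` is an image of a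
finite set) gives for some `m` a CE; `J 0 i ∈ Ω` by `CE.mem`, and `fit_of_ce` (+ Fit.mono) contradicts it. `arr_out`:
for `n ∈ Ty` put `i = e n l ∈ prt n` (`hd.sing`). For every finite `𝒞`, for almost all `j` there is `k ∈ prt j` with
Fit and `loc j k < L`; so some `l' < L` works for `𝒞` (finite union: `Filter.eventually` over an ultrafilter
distributes over finite disjunctions, `Ultrafilter.finite_biUnion_mem_iff` or induction). Some `l' < L` works for all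
`𝒞`: else choose a bad `𝒞_l'` for every `l' < L`, and the finite union of them contradicts (Fit.mono). So for almost
all `n` some `l' < L` works; again by finiteness one `l'` works for almost all `n`. (About 120 lines.)
-/

namespace Pool.Agent.Lib.MP_4fb322_lc_h96

open Set Filter Pool.Agent.Lib.MP_4fb322_lc_h7

variable {Θ V : Type} [Nonempty Θ]

private theorem uf_pigeon {ι : Type} (U : Ultrafilter ι) (L : ℕ) (p : ℕ → ι → Prop)
    (h : ∀ᶠ j in (U : Filter ι), ∃ l' < L, p l' j) :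
    ∃ l' < L, ∀ᶠ j in (U : Filter ι), p l' j := by
  by_contra hc
  have h1 : ∀ l' ∈ {l' : ℕ | l' < L}, ∀ᶠ j in (U : Filter ι), ¬ p l' j := by
    intro l' hl'
    rw [Ultrafilter.eventually_not]
    intro h2
    exact hc ⟨l', hl', h2⟩
  have h2 : ∀ᶠ j in (U : Filter ι), ∀ l' ∈ {l' : ℕ | l' < L}, ¬ p l' j :=
    (Filter.eventually_all_finite (Set.finite_lt_nat L)).2 h1
  obtain ⟨j, ⟨l', hl', hp⟩, h3⟩ := (h.and h2).exists
  exact h3 l' hl' hp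

theorem fit_some {op : Θ → Θ} {T : V → V → Θ} {a : ℕ → Finset V} {u : Ultrafilter (V → V)}
    {pt : ℕ → V → ℕ} {π : ℕ → V → V} {C : ℕ → V → Set V} {ρ : ℕ → V → Ultrafilter V} (D : Dat op T a u pt π C ρ) (H : Half1 op T a u pt π C ρ) {α : Type}
    {col : ℕ → ℕ → α} {Ty : Set ℕ} {L : ℕ} {G : Set ℕ} {Al : ℕ → Set α} {loc e : ℕ → ℕ → ℕ}
    (hd : Dec (prt a pt) col Ty L G Al loc e) (n i : ℕ) (hi : i ∈ prt a pt n) (𝒞 : Set (Set V)) (h𝒞 : 𝒞.Finite) :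
    ∀ᶠ j in (UF : Filter ℕ), ∃ k ∈ prt a pt j, Fit T a pt ρ 𝒞 n i j k := by
  by_contra hcon
  rw [← Ultrafilter.eventually_not] at hcon
  have hΩ : ∀ᶠ j in (UF : Filter ℕ),
      j ∈ {j | j ∈ Ty ∧ ¬ ∃ k ∈ prt a pt j, Fit T a pt ρ 𝒞 n i j k} := by
    filter_upwards [hcon, hd.typ] with j h1 h2
    exact ⟨h2, h1⟩
  have hA := full_typ D H hd hΩ (fun j hj => hj.1)
  have hfin : (𝒞 ∪ cn a C n).Finite := h𝒞.union ((a n).finite_toSet.image _)
  obtain ⟨m, J, Q, g, hce⟩ := (ce_of_full H hA n 1 {i} hfin Set.subset_union_right).exists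
  have hfit := fit_of_ce (u := u) (π := π) (C := C) hce (s := 0) Nat.one_pos hi rfl
  obtain ⟨⟨hmem, -, -⟩, hQ⟩ := hce.mem 0 Nat.one_pos i hi rfl
  exact hmem.2 ⟨Q 0 i, hQ, hfit.mono Set.subset_union_left⟩

theorem arr_out {op : Θ → Θ} {T : V → V → Θ} {a : ℕ → Finset V} {u : Ultrafilter (V → V)}
    {pt : ℕ → V → ℕ} {π : ℕ → V → V} {C : ℕ → V → Set V} {ρ : ℕ → V → Ultrafilter V} (D : Dat op T a u pt π C ρ) (H : Half1 op T a u pt π C ρ) {α : Type}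
    {col : ℕ → ℕ → α} {Ty : Set ℕ} {L : ℕ} {G : Set ℕ} {Al : ℕ → Set α} {loc e : ℕ → ℕ → ℕ}
    (hd : Dec (prt a pt) col Ty L G Al loc e) {l : ℕ} (hl : l < L) (hlG : l ∉ G) :
    ∃ l' < L, Arr T a pt ρ loc e l l' := by
  have hA : ∀ n ∈ Ty, ∀ 𝒞 : Set (Set V), 𝒞.Finite → ∃ l' < L, ∀ᶠ j in (UF : Filter ℕ),
      ∃ k ∈ prt a pt j, loc j k = l' ∧ Fit T a pt ρ 𝒞 n (e n l) j k := by
    intro n hn 𝒞 h𝒞
    apply uf_pigeon UF L (fun l' j => ∃ k ∈ prt a pt j, loc j k = l' ∧ Fit T a pt ρ 𝒞 n (e n l) j k)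
    have h1 := fit_some D H hd n (e n l) (hd.sing n hn l hl hlG).1 𝒞 h𝒞
    filter_upwards [h1, hd.typ] with j h2 h3
    obtain ⟨k, hk, hf⟩ := h2
    exact ⟨loc j k, hd.lt j h3 k hk, k, hk, rfl, hf⟩
  have hB : ∀ n ∈ Ty, ∃ l' < L, ∀ 𝒞 : Set (Set V), 𝒞.Finite → ∀ᶠ j in (UF : Filter ℕ),
      ∃ k ∈ prt a pt j, loc j k = l' ∧ Fit T a pt ρ 𝒞 n (e n l) j k := by
    intro n hn
    by_contra hc
    have h1 : ∀ l' : ℕ, ∃ 𝒞 : Set (Set V), 𝒞.Finite ∧ (l' < L → ¬ ∀ᶠ j in (UF : Filter ℕ),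
        ∃ k ∈ prt a pt j, loc j k = l' ∧ Fit T a pt ρ 𝒞 n (e n l) j k) := by
      intro l'
      by_cases hl' : l' < L
      · by_contra h2
        apply hc
        refine ⟨l', hl', fun 𝒞 h𝒞 => ?_⟩
        by_contra h3
        exact h2 ⟨𝒞, h𝒞, fun _ => h3⟩
      · exact ⟨∅, Set.finite_empty, fun h => absurd h hl'⟩
    choose F hF1 hF2 using h1
    have hfin : (⋃ l' ∈ {l' : ℕ | l' < L}, F l').Finite :=
      (Set.finite_lt_nat L).biUnion (fun l' _ => hF1 l')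
    obtain ⟨l', hl', h4⟩ := hA n hn _ hfin
    apply hF2 l' hl'
    filter_upwards [h4] with j h5
    obtain ⟨k, hk, hk2, hf⟩ := h5
    exact ⟨k, hk, hk2, hf.mono (Set.subset_biUnion_of_mem (u := F) (show l' ∈ {l' : ℕ | l' < L} from hl'))⟩
  unfold Arr
  apply uf_pigeon UF L (fun l' n => ∀ 𝒞 : Set (Set V), 𝒞.Finite → ∀ᶠ j in (UF : Filter ℕ),
      ∃ k ∈ prt a pt j, loc j k = l' ∧ Fit T a pt ρ 𝒞 n (e n l) j k)
  filter_upwards [hd.typ] with n hn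
  exact hB n hn

end Pool.Agent.Lib.MP_4fb322_lc_h96
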