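import Pool.Agent.Lib.MP_4fb322_lc_h96.Defs
import Pool.Agent.Lib.MP_4fb322_lc_h96.H01

set_option autoImplicit false

/-!
# Row H10

Arrows are transitive through a single location, and the negation of an arrow. `arr_trans`: for almost all `n`: given
finite `𝒞`; for almost all `j`: `j ∈ Ty`, there is `k ∈ prt j` with `loc j k = l'` and Fit 𝒞 n (e n l) j k; `k = e j
l'` by `hd.sing`; and `j` is good for the second arrow; pick one such `j` (`.exists`); for almost all `j'` there is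
`k'` with `loc j' k' = l''` and Fit 𝒞 j (e j l') j' k'; Fit.trans. `not_arr`: push the negations through the
quantifiers (`Ultrafilter.eventually_not`, `Filter.not_eventually`). (About 50 lines.)
-/

namespace Pool.Agent.Lib.MP_4fb322_lc_h96

open Set Filter Pool.Agent.Lib.MP_4fb322_lc_h7

variable {Θ V : Type} [Nonempty Θ]

omit [Nonempty Θ] in
theorem arr_trans {T : V → V → Θ} {a : ℕ → Finset V} {pt : ℕ → V → ℕ} {ρ : ℕ → V → Ultrafilter V}
    {α : Type} {col : ℕ → ℕ → α} {Ty : Set ℕ} {L : ℕ} {G : Set ℕ} {Al : ℕ → Set α} {loc e : ℕ → ℕ → ℕ}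
    (hd : Dec (prt a pt) col Ty L G Al loc e) {l l' l'' : ℕ} (hl : l' < L) (hlG : l' ∉ G)
    (h : Arr T a pt ρ loc e l l') (h' : Arr T a pt ρ loc e l' l'') : Arr T a pt ρ loc e l l'' := by
  refine h.mono fun n hn 𝒞 h𝒞 => ?_
  obtain ⟨j, ⟨k, hk, hkl, hf⟩, hj2, hjT⟩ := ((hn 𝒞 h𝒞).and (h'.and hd.typ)).exists
  have hke : k = e j l' := (hd.sing j hjT l' hl hlG).2.2 k hk hkl
  refine (hj2 𝒞 h𝒞).mono fun j' hj' => ?_
  obtain ⟨k', hk', hkl', hf'⟩ := hj'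
  rw [← hke] at hf'
  exact ⟨k', hk', hkl', hf.trans hf'⟩

omit [Nonempty Θ] in
theorem not_arr {T : V → V → Θ} {a : ℕ → Finset V} {pt : ℕ → V → ℕ} {ρ : ℕ → V → Ultrafilter V}
    {loc e : ℕ → ℕ → ℕ} {l l' : ℕ} (h : ¬ Arr T a pt ρ loc e l l') :
    ∀ᶠ n in (UF : Filter ℕ), ∃ 𝒞 : Set (Set V), 𝒞.Finite ∧ ∀ᶠ j in (UF : Filter ℕ),
      ∀ k ∈ prt a pt j, loc j k = l' → ¬ Fit T a pt ρ 𝒞 n (e n l) j k := by
  unfold Arr at h
  rw [← Ultrafilter.eventually_not] at h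
  refine h.mono fun n hn => ?_
  simp only [not_forall] at hn
  obtain ⟨𝒞, h𝒞, hn⟩ := hn
  refine ⟨𝒞, h𝒞, ?_⟩
  rw [← Ultrafilter.eventually_not] at hn
  refine hn.mono fun j hj k hk hkl hf => hj ⟨k, hk, hkl, hf⟩

end Pool.Agent.Lib.MP_4fb322_lc_h96
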