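import Pool.Agent.Lib.MP_4fb322_lc_h96.Defs

set_option autoImplicit false

/-!
# Row H11

Terminal locations (pure). `R₁ = {l < L | l ∉ G, no arrow to an element of G below L}`. For `l ∈ R₁` and `R l l'`, `l'
< L`: `l' ∉ G` and `l' ∈ R₁` (transitivity). `T = {l ∈ R₁ | ∀ l' < L, R l l' → R l' l}`. If `t ∈ T`: `R t l'` for some
`l' < L` (hout), so `R l' t` and `R t t`. If `t ∈ T`, `R t l'`, `l' < L`: `l' ∈ R₁`, `R l' t`; if `R l' l''` then `R t
l''`, so `R l'' t` and `R l'' l'`: `l' ∈ T`. For `l ∈ R₁` there is `t ∈ T` with `R l t`: choose among the `l' < L`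
with `R l l'` one with the smallest number of `l'' < L` with `R l' l''`; for `R l' l''` the successors of `l''` are
successors of `l'`, so by minimality they are the same, hence (as `R l'' ..`: `l'` has a successor.. ) show `R l''
l'`: `R l' l'`? PROOF: `l'` has the successor `l''`; the set of successors of `l''` equals that of `l'`, which
contains `l''`; so `R l'' l''`. Apply this with `l''` in place of `l'`: `l''` is again minimal, `R l'' l''`, and every
successor `w` of `l''` has the same successors as `l''`, in particular `R w l''`. So `l'' ∈ T` and `R l l''`. (About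
80 lines.)
-/

namespace Pool.Agent.Lib.MP_4fb322_lc_h96

open Set Filter Pool.Agent.Lib.MP_4fb322_lc_h7

variable {Θ V : Type} [Nonempty Θ]

omit [Nonempty Θ] in
theorem exists_term {L : ℕ} {G : Set ℕ} {R : ℕ → ℕ → Prop}
    (hout : ∀ l < L, l ∉ G → ∃ l' < L, R l l')
    (htr : ∀ l l' l'', l' < L → l' ∉ G → R l l' → R l' l'' → R l l'') :
    ∃ S : Set ℕ, (∀ t ∈ S, t < L ∧ t ∉ G ∧ R t t) ∧ (∀ t ∈ S, ∀ l' < L, R t l' → l' ∈ S) ∧
      ∀ l < L, l ∉ G → (∃ l' < L, l' ∈ G ∧ R l l') ∨ ∃ t ∈ S, R l t := by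
  classical
  let R1 : Set ℕ := {l | l < L ∧ l ∉ G ∧ ∀ l' < L, l' ∈ G → ¬ R l l'}
  have hR1 : ∀ l ∈ R1, ∀ l' < L, R l l' → l' ∈ R1 := by
    rintro l ⟨_, _, h3⟩ l' hl' hR
    have hG : l' ∉ G := fun hG => h3 l' hl' hG hR
    exact ⟨hl', hG, fun g hg hgG hRg => h3 g hg hgG (htr l l' g hl' hG hR hRg)⟩
  refine ⟨{l | l ∈ R1 ∧ ∀ l' < L, R l l' → R l' l}, ?_, ?_, ?_⟩
  · rintro t ⟨ht1, ht2⟩
    obtain ⟨l', hl', hR⟩ := hout t ht1.1 ht1.2.1
    have h1 := hR1 t ht1 l' hl' hR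
    exact ⟨ht1.1, ht1.2.1, htr t l' t hl' h1.2.1 hR (ht2 l' hl' hR)⟩
  · rintro t ⟨ht1, ht2⟩ l' hl' hR
    have h1 := hR1 t ht1 l' hl' hR
    refine ⟨h1, ?_⟩
    intro l'' hl'' hR'
    have h2 := htr t l' l'' hl' h1.2.1 hR hR'
    exact htr l'' t l' ht1.1 ht1.2.1 (ht2 l'' hl'' h2) hR
  · intro l hl hlG
    by_cases hex : ∃ l' < L, l' ∈ G ∧ R l l'
    · exact Or.inl hex
    · right
      have hl1 : l ∈ R1 := ⟨hl, hlG, fun l' hl' hG hR => hex ⟨l', hl', hG, hR⟩⟩
      let sc : ℕ → Finset ℕ := fun x => (Finset.range L).filter (R x)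
      have hmem : ∀ x z, z ∈ sc x ↔ z < L ∧ R x z := by
        intro x z
        simp [sc]
      obtain ⟨l0, hl0, hR0⟩ := hout l hl hlG
      obtain ⟨m, hm, hmin⟩ := Finset.exists_min_image (sc l) (fun x => (sc x).card)
        ⟨l0, (hmem _ _).2 ⟨hl0, hR0⟩⟩
      obtain ⟨hmL, hRm⟩ := (hmem _ _).1 hm
      have hm1 := hR1 l hl1 m hmL hRm
      obtain ⟨k, hkL, hRk⟩ := hout m hm1.1 hm1.2.1
      have hk1 := hR1 m hm1 k hkL hRk
      have hlk : R l k := htr l m k hmL hm1.2.1 hRm hRk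
      -- the successors of a successor
      have hsub : sc k ⊆ sc m := by
        intro x hx
        obtain ⟨hxL, hRx⟩ := (hmem _ _).1 hx
        exact (hmem _ _).2 ⟨hxL, htr m k x hkL hk1.2.1 hRk hRx⟩
      have heq : sc k = sc m :=
        Finset.eq_of_subset_of_card_le hsub (hmin k ((hmem _ _).2 ⟨hkL, hlk⟩))
      have hkk : R k k := by
        have : k ∈ sc k := by
          rw [heq]
          exact (hmem _ _).2 ⟨hkL, hRk⟩
        exact ((hmem _ _).1 this).2
      refine ⟨k, ⟨hk1, ?_⟩, hlk⟩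
      intro w hwL hRw
      have hw1 := hR1 k hk1 w hwL hRw
      have hlw : R l w := htr l k w hkL hk1.2.1 hlk hRw
      have hsub' : sc w ⊆ sc k := by
        intro x hx
        obtain ⟨hxL, hRx⟩ := (hmem _ _).1 hx
        exact (hmem _ _).2 ⟨hxL, htr k w x hwL hw1.2.1 hRw hRx⟩
      have heq' : sc w = sc k := by
        refine Finset.eq_of_subset_of_card_le hsub' ?_
        rw [heq]
        exact hmin w ((hmem _ _).2 ⟨hwL, hlw⟩)
      have : k ∈ sc w := by
        rw [heq']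
        exact (hmem _ _).2 ⟨hkL, hkk⟩
      exact ((hmem _ _).1 this).2

end Pool.Agent.Lib.MP_4fb322_lc_h96
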