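import Pool.Agent.Lib.MP_4fb322_lc_h96.Defs
import Pool.Agent.Lib.MP_4fb322_lc_h96.H02
import Pool.Agent.Lib.MP_4fb322_lc_h96.H03

set_option autoImplicit false

/-!
# Row H12

Monotonicity along non commuting parts. Suppose `rkp loc (J s' i') (Q s' i') < rkp loc (J s i) (Q s i)`; let `z x =
(loc .., J s i, g s x)` for `x ∈ part n i` and `z' y` for `y ∈ part n i'`; `rk pt (z x) = rkp loc (J s i) (Q s i)`
because `pt (J s i) (g s x) = Q s i`. So for `x ∈ part i`, `y ∈ part i'`: `TW (inr (z' y)) (inr (z x)) = QQ T (ρ (z'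
y)) (ρ (z x))`, which by `CE.emb` equals `TW (inr (s',n,y)) (inr (s,n,x))`. The positions `ρ (z x)`, `ρ (z' y)` are in
`KK u`, and contain `C n x`, `C n y` (`CE.gm` with `hcn`, `H.posK`). Case `i < i'`: `crossS` gives `θ` with `QQ T w v
= θ` for all `v ∋ C n x`, `w ∋ C n y`; the source value is `T y x` (`s = s'`: src_same; `s < s'`: `rk` of `(s,n,x)` is
smaller, so it is `op (QQ T (ρ n x) (ρ n y)) = op (T x y) = T y x` by cross). So `θ = T y x` for all `x`, `y`: `Com n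
i i'`, contradiction. Case `i' < i` (then `s < s'`): `cross` (with `y` first) gives `QQ T (ρ (z' y)) (ρ (z x)) = T y
x`; the source value is `op (QQ T (ρ n x) (ρ n y))` (`rk (s,n,x) < rk (s',n,y)`), so `QQ T (ρ n x) (ρ n y) = T x y`
(`op (op ..)`: apply `D.opT` twice: `op (T y x) = T x y`, and if `op θ = T y x` with `θ = QQ ..`: write `θ = T x' y'`
for suitable points (QQ is a value of `T`: lim_spec twice, `.exists`), so `op (op θ) = θ`); by `crossS` (`y` first: `∃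
θ, ∀ v w, C n y ∈ v → C n x ∈ w → QQ T w v = θ`) it is the constant, so `Com n i' i`: contradiction. (About 120
lines.)
-/

namespace Pool.Agent.Lib.MP_4fb322_lc_h96

open Set Filter Pool.Agent.Lib.MP_4fb322_lc_h7

variable {Θ V : Type} [Nonempty Θ]

private theorem h12_tw_lt {op : Θ → Θ} {T : V → V → Θ} {pt : ℕ → V → ℕ} {ρ : ℕ → V → Ultrafilter V}
    {z z' : ℕ × ℕ × V} (h : rk pt z < rk pt z') :
    TW op T pt ρ (Sum.inr z) (Sum.inr z') = QQ T (ρ z.2.1 z.2.2) (ρ z'.2.1 z'.2.2) := by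
  simp only [TW]
  rw [if_neg h.ne, if_pos h]

private theorem h12_tw_gt {op : Θ → Θ} {T : V → V → Θ} {pt : ℕ → V → ℕ} {ρ : ℕ → V → Ultrafilter V}
    {z z' : ℕ × ℕ × V} (h : rk pt z' < rk pt z) :
    TW op T pt ρ (Sum.inr z) (Sum.inr z') = op (QQ T (ρ z'.2.1 z'.2.2) (ρ z.2.1 z.2.2)) := by
  simp only [TW]
  rw [if_neg h.ne', if_neg (lt_asymm h)]

omit [Nonempty Θ] in
private theorem h12_rk_lt {pt : ℕ → V → ℕ} {s s' n : ℕ} {x y : V} (h : s < s') :
    rk pt (s, n, x) < rk pt (s', n, y) := by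
  unfold rk
  rw [Prod.Lex.toLex_lt_toLex]
  exact Or.inl h

theorem ce_mono [Finite Θ] {op : Θ → Θ} {T : V → V → Θ} {a : ℕ → Finset V} {u : Ultrafilter (V → V)}
    {pt : ℕ → V → ℕ} {π : ℕ → V → V} {C : ℕ → V → Set V} {ρ : ℕ → V → Ultrafilter V} (D : Dat op T a u pt π C ρ) (H : Half1 op T a u pt π C ρ)
    {loc : ℕ → ℕ → ℕ} {𝒞 : Set (Set V)} {n c : ℕ} {K : Set ℕ}
    {A : Set (ℕ × ℕ)} {J Q : ℕ → ℕ → ℕ} {g : ℕ → V → V} (h : CE op T a pt ρ loc 𝒞 n c K A J Q g)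
    (hcn : cn a C n ⊆ 𝒞) {i i' s s' : ℕ} (hr : Rig T u a pt C n i i') (hi : i ∈ K) (hi' : i' ∈ K)
    (hs : s < c) (hs' : s' < c) (hss : s < s' ∨ (s = s' ∧ i < i')) :
    rkp loc (J s i) (Q s i) ≤ rkp loc (J s' i') (Q s' i') := by
  classical
  by_contra hle
  have hlt : rkp loc (J s' i') (Q s' i') < rkp loc (J s i) (Q s i) := not_le.1 hle
  obtain ⟨hin, hin', hcase⟩ := hr
  have hi0 : i ≠ 0 := fun e => by
    rw [e] at hin
    exact Finset.notMem_erase 0 _ hin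
  have hi0' : i' ≠ 0 := fun e => by
    rw [e] at hin'
    exact Finset.notMem_erase 0 _ hin'
  have hne : i ≠ i' := by
    rcases hcase with ⟨h1, _⟩ | ⟨h1, _⟩
    · exact h1.ne
    · exact h1.ne'
  have rob := (D.mrob n).rob
  -- the positions of the images
  have posx : ∀ x ∈ part a pt n i, ρ (J s i) (g s x) ∈ KK u ∧ C n x ∈ ρ (J s i) (g s x) ∧
      rk pt (loc (J s i) (Q s i), J s i, g s x) = rkp loc (J s i) (Q s i) := by
    rintro x ⟨hxa, hxi⟩
    have hx0 : pt n x ≠ 0 := by rw [hxi]; exact hi0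
    have h1 := h.gm s hs x hxa hx0 (by rw [hxi]; exact hi)
    rw [hxi] at h1
    obtain ⟨⟨h2, h3⟩, h4⟩ := h1
    have h5 := (h.mem s hs i hin hi).2
    have h6 : Q s i ≠ 0 := fun e => by
      rw [e] at h5
      exact Finset.notMem_erase 0 _ h5
    refine ⟨(H.posK (J s i) (g s x) h2 (by rw [h3]; exact h6)).1, ?_, ?_⟩
    · exact (h4 _ (hcn ⟨x, hxa, rfl⟩)).2 (H.posK n x hxa hx0).2
    · unfold rk rkp
      simp only [h3]
  have posy : ∀ y ∈ part a pt n i', ρ (J s' i') (g s' y) ∈ KK u ∧ C n y ∈ ρ (J s' i') (g s' y) ∧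
      rk pt (loc (J s' i') (Q s' i'), J s' i', g s' y) = rkp loc (J s' i') (Q s' i') := by
    rintro x ⟨hxa, hxi⟩
    have hx0 : pt n x ≠ 0 := by rw [hxi]; exact hi0'
    have h1 := h.gm s' hs' x hxa hx0 (by rw [hxi]; exact hi')
    rw [hxi] at h1
    obtain ⟨⟨h2, h3⟩, h4⟩ := h1
    have h5 := (h.mem s' hs' i' hin' hi').2
    have h6 : Q s' i' ≠ 0 := fun e => by
      rw [e] at h5
      exact Finset.notMem_erase 0 _ h5
    refine ⟨(H.posK (J s' i') (g s' x) h2 (by rw [h3]; exact h6)).1, ?_, ?_⟩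
    · exact (h4 _ (hcn ⟨x, hxa, rfl⟩)).2 (H.posK n x hxa hx0).2
    · unfold rk rkp
      simp only [h3]
  -- the embedding
  have E : ∀ x ∈ part a pt n i, ∀ y ∈ part a pt n i',
      QQ T (ρ (J s' i') (g s' y)) (ρ (J s i) (g s x)) =
        TW op T pt ρ (Sum.inr (s', n, y)) (Sum.inr (s, n, x)) := by
    rintro x hx y hy
    obtain ⟨_, _, rx⟩ := posx x hx
    obtain ⟨_, _, ry⟩ := posy y hy
    obtain ⟨hxa, hxi⟩ := hx
    obtain ⟨hya, hyi⟩ := hy
    have hx0 : pt n x ≠ 0 := by rw [hxi]; exact hi0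
    have hy0 : pt n y ≠ 0 := by rw [hyi]; exact hi0'
    have h1 := h.emb s' hs' s hs y hya x hxa hy0 hx0 (by rw [hyi]; exact hi')
      (by rw [hxi]; exact hi) (fun e => hne (by
        have : y = x := congrArg Prod.snd e
        rw [← hxi, ← hyi, this]))
    simp only at h1
    rw [hxi, hyi] at h1
    rw [← h1.2]
    symm
    exact h12_tw_lt (by rw [rx, ry]; exact hlt)
  rcases hcase with ⟨hii, hcom⟩ | ⟨hii, hcom⟩
  · apply hcom
    intro x hx y hy v hv w hw hCv hCw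
    obtain ⟨kx, cx, _⟩ := posx x hx
    obtain ⟨ky, cy, _⟩ := posy y hy
    have hE := E x hx y hy
    obtain ⟨hxa, hxi⟩ := hx
    obtain ⟨hya, hyi⟩ := hy
    have hx0 : pt n x ≠ 0 := by rw [hxi]; exact hi0
    have hy0 : pt n y ≠ 0 := by rw [hyi]; exact hi0'
    have hxy : pt n x < pt n y := by rw [hxi, hyi]; exact hii
    refine ⟨rob.cross x hxa y hya (Nat.pos_of_ne_zero hx0) hxy v hv w hw hCv hCw, ?_⟩
    obtain ⟨θ, hθ⟩ := rob.crossS x hxa y hya (Nat.pos_of_ne_zero hx0) hxy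
    have h1 := hθ _ kx _ ky cx cy
    rw [hE] at h1
    have h2 : TW op T pt ρ (Sum.inr (s', n, y)) (Sum.inr (s, n, x)) = T y x := by
      rcases hss with hss | ⟨hss, _⟩
      · rw [h12_tw_gt (h12_rk_lt hss)]
        simp only
        rw [rob.cross x hxa y hya (Nat.pos_of_ne_zero hx0) hxy _ (H.posK n x hxa hx0).1 _
          (H.posK n y hya hy0).1 (H.posK n x hxa hx0).2 (H.posK n y hya hy0).2]
        exact (D.opT x y).symm
      · subst hss
        exact src_same D H hya hxa hy0 hx0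
    rw [hθ v hv w hw hCv hCw, ← h1, h2]
  · have hss' : s < s' := by
      rcases hss with hss | ⟨_, h1⟩
      · exact hss
      · omega
    apply hcom
    intro y hy x hx v hv w hw hCv hCw
    obtain ⟨kx, cx, _⟩ := posx x hx
    obtain ⟨ky, cy, _⟩ := posy y hy
    have hE := E x hx y hy
    obtain ⟨hxa, hxi⟩ := hx
    obtain ⟨hya, hyi⟩ := hy
    have hx0 : pt n x ≠ 0 := by rw [hxi]; exact hi0
    have hy0 : pt n y ≠ 0 := by rw [hyi]; exact hi0'
    have hyx : pt n y < pt n x := by rw [hxi, hyi]; exact hii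
    refine ⟨rob.cross y hya x hxa (Nat.pos_of_ne_zero hy0) hyx v hv w hw hCv hCw, ?_⟩
    obtain ⟨θ, hθ⟩ := rob.crossS y hya x hxa (Nat.pos_of_ne_zero hy0) hyx
    have h1 := hθ _ (H.posK n y hya hy0).1 _ (H.posK n x hxa hx0).1 (H.posK n y hya hy0).2
      (H.posK n x hxa hx0).2
    rw [rob.cross y hya x hxa (Nat.pos_of_ne_zero hy0) hyx _ ky _ kx cy cx,
      h12_tw_gt (h12_rk_lt hss')] at hE
    simp only at hE
    rw [h1] at hE
    -- `θ` is a value of `T`
    obtain ⟨x', hx'⟩ := (lim_spec (ρ n x) (fun b => lim (ρ n y) (fun c => T b c))).exists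
    obtain ⟨y', hy'⟩ := (lim_spec (ρ n y) (fun c => T x' c)).exists
    have h3 : T x' y' = θ := by
      rw [hy', hx', ← h1]
      rfl
    rw [hθ v hv w hw hCv hCw, ← h3, D.opT y' x', D.opT x' y', h3, ← hE]
    exact (D.opT y x).symm

end Pool.Agent.Lib.MP_4fb322_lc_h96
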