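import Pool.Agent.Lib.MP_4fb322_lc_h96.Defs
import Pool.Agent.Lib.MP_4fb322_lc_h96.H12

set_option autoImplicit false

/-!
# Row H13

Copies of a component with at least two parts are ordered in time. For `i' ∈ Cmp n i` there is a path of length `q`
from `i` to `i'` in the graph `Rig` (`Relation.ReflTransGen` to a number: induction), and we may take `q ≥ 1` (if `i'
= i` use `i → i₁ → i`; `Rig` is symmetric). Claim: if `q ≥ 1` and `s + q ≤ s' < c` then `rkp (s,i) ≤ rkp (s',i')`: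
induction on `q`: `q = 1`: ce_mono with `s < s'`; `q + 1`: first step from `(s,i)` to `(s+1, i₂)` (ce_mono, `s < s+1 <
c`), then induction. All vertices of the path are in `Cmp n i ⊆ K`. Let `d` be the maximum of the chosen lengths over
all pairs `(i,i')` of parts in the finite set `prt n` (`Rig` implies membership in `prt`). (About 80 lines.)
-/

namespace Pool.Agent.Lib.MP_4fb322_lc_h96

open Set Filter Pool.Agent.Lib.MP_4fb322_lc_h7

variable {Θ V : Type} [Nonempty Θ]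

private theorem rig_symm {T : V → V → Θ} {u : Ultrafilter (V → V)} {a : ℕ → Finset V}
    {pt : ℕ → V → ℕ} {C : ℕ → V → Set V} {n i i' : ℕ} (h : Rig T u a pt C n i i') :
    Rig T u a pt C n i' i := by
  obtain ⟨h1, h2, h3⟩ := h
  exact ⟨h2, h1, h3.elim (fun h => Or.inr h) (fun h => Or.inl h)⟩

private theorem far_aux [Finite Θ] {op : Θ → Θ} {T : V → V → Θ} {a : ℕ → Finset V}
    {u : Ultrafilter (V → V)}
    {pt : ℕ → V → ℕ} {π : ℕ → V → V} {C : ℕ → V → Set V} {ρ : ℕ → V → Ultrafilter V}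
    (D : Dat op T a u pt π C ρ) (H : Half1 op T a u pt π C ρ)
    (loc : ℕ → ℕ → ℕ) (n : ℕ) (i i' : ℕ) (hp : Relation.ReflTransGen (Rig T u a pt C n) i i') :
    (∃ i₁, Rig T u a pt C n i i₁) →
    ∃ q : ℕ, ∀ (𝒞 : Set (Set V)) (c : ℕ) (K : Set ℕ) (A : Set (ℕ × ℕ)) (J Q : ℕ → ℕ → ℕ)
      (g : ℕ → V → V),
      CE op T a pt ρ loc 𝒞 n c K A J Q g → cn a C n ⊆ 𝒞 →
      Cmp T u a pt C n i ⊆ K → ∀ s s', s + q ≤ s' → s' < c →
        rkp loc (J s i) (Q s i) ≤ rkp loc (J s' i') (Q s' i') := by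
  induction hp using Relation.ReflTransGen.head_induction_on with
  | refl =>
    rintro ⟨i₁, hi₁⟩
    refine ⟨2, fun 𝒞 c K A J Q g hce hcn hK s s' hs hs' => ?_⟩
    have m0 : i' ∈ K := hK (Relation.ReflTransGen.refl)
    have m1 : i₁ ∈ K := hK (Relation.ReflTransGen.single hi₁)
    exact (ce_mono D H hce hcn hi₁ m0 m1 (by omega : s < c) (by omega : s + 1 < c)
      (Or.inl (by omega))).trans
      (ce_mono D H hce hcn (rig_symm hi₁) m1 m0 (by omega) (by omega) (Or.inl (by omega)))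
  | head h1 h2 ih =>
    rename_i j₁ j₂
    intro _
    obtain ⟨q, hq⟩ := ih ⟨_, rig_symm h1⟩
    refine ⟨q + 1, fun 𝒞 c K A J Q g hce hcn hK s s' hs hs' => ?_⟩
    have m0 : j₁ ∈ K := hK (Relation.ReflTransGen.refl)
    have m1 : j₂ ∈ K := hK (Relation.ReflTransGen.single h1)
    have hK' : Cmp T u a pt C n j₂ ⊆ K := fun x hx => hK (Relation.ReflTransGen.head h1 hx)
    exact (ce_mono D H hce hcn h1 m0 m1 (by omega : s < c) (by omega : s + 1 < c)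
      (Or.inl (by omega))).trans
      (hq 𝒞 c K A J Q g hce hcn hK' (s + 1) s' (by omega) hs')

private theorem mem_prt_of {T : V → V → Θ} {u : Ultrafilter (V → V)} {a : ℕ → Finset V}
    {pt : ℕ → V → ℕ} {C : ℕ → V → Set V} {n i i' : ℕ} (hi : i ∈ prt a pt n)
    (hp : Relation.ReflTransGen (Rig T u a pt C n) i i') : i' ∈ prt a pt n := by
  induction hp with
  | refl => exact hi
  | tail _ h _ => exact h.2.1

theorem exists_far [Finite Θ] {op : Θ → Θ} {T : V → V → Θ} {a : ℕ → Finset V} {u : Ultrafilter (V → V)}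
    {pt : ℕ → V → ℕ} {π : ℕ → V → V} {C : ℕ → V → Set V} {ρ : ℕ → V → Ultrafilter V} (D : Dat op T a u pt π C ρ) (H : Half1 op T a u pt π C ρ)
    (loc : ℕ → ℕ → ℕ) (n : ℕ) :
    ∃ d : ℕ, ∀ (𝒞 : Set (Set V)) (c : ℕ) (K : Set ℕ) (A : Set (ℕ × ℕ)) (J Q : ℕ → ℕ → ℕ) (g : ℕ → V → V),
      CE op T a pt ρ loc 𝒞 n c K A J Q g → cn a C n ⊆ 𝒞 → ∀ i, (∃ i₁, Rig T u a pt C n i i₁) →
      Cmp T u a pt C n i ⊆ K → ∀ i' ∈ Cmp T u a pt C n i, ∀ s s', s + d ≤ s' → s' < c →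
        rkp loc (J s i) (Q s i) ≤ rkp loc (J s' i') (Q s' i') := by
  classical
  have key : ∀ p : ℕ × ℕ, ∃ q : ℕ, Relation.ReflTransGen (Rig T u a pt C n) p.1 p.2 →
      (∃ i₁, Rig T u a pt C n p.1 i₁) →
      ∀ (𝒞 : Set (Set V)) (c : ℕ) (K : Set ℕ) (A : Set (ℕ × ℕ)) (J Q : ℕ → ℕ → ℕ)
      (g : ℕ → V → V),
      CE op T a pt ρ loc 𝒞 n c K A J Q g → cn a C n ⊆ 𝒞 →
      Cmp T u a pt C n p.1 ⊆ K → ∀ s s', s + q ≤ s' → s' < c →
        rkp loc (J s p.1) (Q s p.1) ≤ rkp loc (J s' p.2) (Q s' p.2) := by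
    intro p
    by_cases h : Relation.ReflTransGen (Rig T u a pt C n) p.1 p.2 ∧
        (∃ i₁, Rig T u a pt C n p.1 i₁)
    · obtain ⟨q, hq⟩ := far_aux D H loc n p.1 p.2 h.1 h.2
      exact ⟨q, fun _ _ => hq⟩
    · exact ⟨0, fun h1 h2 => absurd ⟨h1, h2⟩ h⟩
  choose q hq using key
  refine ⟨((prt a pt n) ×ˢ (prt a pt n)).sup q, ?_⟩
  intro 𝒞 c K A J Q g hce hcn i hi hK i' hi' s s' hs hs'
  obtain ⟨i₁, hi₁⟩ := hi
  have m : (i, i') ∈ (prt a pt n) ×ˢ (prt a pt n) :=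
    Finset.mem_product.2 ⟨hi₁.1, mem_prt_of hi₁.1 hi'⟩
  have hle : q (i, i') ≤ ((prt a pt n) ×ˢ (prt a pt n)).sup q := Finset.le_sup (f := q) m
  exact hq (i, i') hi' ⟨i₁, hi₁⟩ 𝒞 c K A J Q g hce hcn hK s s' (by omega) hs'

end Pool.Agent.Lib.MP_4fb322_lc_h96
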