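import Pool.Agent.Lib.MP_4fb322_lc_h96.Defs

set_option autoImplicit false

/-!
# Row H14

Pigeonhole (pure). `I` is a finite set, `φ s i < L` the location of `(s, i)`; points far apart in time are in order.
Take `Cc = (L + 1) * (c + 2 * d + 1)`. If `I` is empty take `σ = 0`. Otherwise fix `i₀ ∈ I` and put `μ k = φ (k * (c +
2 * d + 1)) i₀` for `k ≤ L`: nondecreasing (each step is `≥ d`), with values `< L`, so `μ k = μ (k+1)` for some `k <
L` (otherwise `μ k ≥ k`, so `μ L ≥ L`). Take `σ = k * (c + 2 * d + 1) + d`. For `s < c` and `i ∈ I`: `μ k ≤ φ (σ + s)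
i ≤ μ (k+1)`, so all these values are equal. (About 60 lines.)
-/

namespace Pool.Agent.Lib.MP_4fb322_lc_h96

open Set Filter Pool.Agent.Lib.MP_4fb322_lc_h7

variable {Θ V : Type} [Nonempty Θ]

omit [Nonempty Θ] in
theorem pigeon (L c d : ℕ) : ∃ Cc : ℕ, ∀ (I : Set ℕ) (φ : ℕ → ℕ → ℕ),
    (∀ i ∈ I, ∀ s < Cc, φ s i < L) →
    (∀ i ∈ I, ∀ i' ∈ I, ∀ s s', s + d ≤ s' → s' < Cc → φ s i ≤ φ s' i') →
    ∃ σ, σ + c ≤ Cc ∧ ∀ s < c, ∀ i ∈ I, ∀ i' ∈ I, φ (σ + s) i' = φ (σ + s) i := by
  refine ⟨(L + 1) * (c + 2 * d + 1), ?_⟩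
  intro I φ hlt hord
  set D := c + 2 * d + 1 with hD
  rcases I.eq_empty_or_nonempty with hI | ⟨i₀, hi₀⟩
  · refine ⟨0, ?_, ?_⟩
    · have : (L + 1) * D = L * D + D := by ring
      omega
    · intro s _ i hi
      rw [hI] at hi
      exact absurd hi (Set.notMem_empty i)
  · have hCc : (L + 1) * D = L * D + D := by ring
    have hle : ∀ k, k ≤ L → k * D ≤ L * D := fun k hk => Nat.mul_le_mul_right D hk
    have hsucc : ∀ k, (k + 1) * D = k * D + D := fun k => by ring
    have hmono : ∀ k, k < L → φ (k * D) i₀ ≤ φ ((k + 1) * D) i₀ := by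
      intro k hk
      apply hord i₀ hi₀ i₀ hi₀
      · rw [hsucc]; omega
      · have := hle (k + 1) hk
        omega
    have hex : ∃ k, k < L ∧ φ (k * D) i₀ = φ ((k + 1) * D) i₀ := by
      by_contra hcon
      push Not at hcon
      have hk : ∀ k, k ≤ L → k ≤ φ (k * D) i₀ := by
        intro k
        induction k with
        | zero => intro _; exact Nat.zero_le _
        | succ k ih =>
          intro hk
          have h1 := ih (by omega)
          have h2 := hmono k (by omega)
          have h3 := hcon k (by omega)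
          omega
      have h1 := hk L le_rfl
      have h2 := hlt i₀ hi₀ (L * D) (by omega)
      omega
    obtain ⟨k, hk, hkk⟩ := hex
    have h1 := hle (k + 1) hk
    have h2 := hsucc k
    refine ⟨k * D + d, by omega, ?_⟩
    have key : ∀ s < c, ∀ i ∈ I, φ (k * D + d + s) i = φ (k * D) i₀ := by
      intro s hs i hi
      have h3 : φ (k * D) i₀ ≤ φ (k * D + d + s) i := hord i₀ hi₀ i hi _ _ (by omega) (by omega)
      have h4 : φ (k * D + d + s) i ≤ φ ((k + 1) * D) i₀ := hord i hi i₀ hi₀ _ _ (by omega) (by omega)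
      omega
    intro s hs i hi i' hi'
    rw [key s hs i hi, key s hs i' hi']

end Pool.Agent.Lib.MP_4fb322_lc_h96
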