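import Pool.Agent.Lib.MP_4fb322_lc_h96.Defs
import Pool.Agent.Lib.MP_4fb322_lc_h96.H03

set_option autoImplicit false

/-!
# Row H15

Choosing the copies of the different components separately. `CE.mem`, `CE.gm` are immediate. `CE.emb` for `(s,x) ≠
(s',x')`, `i = pt n x`, `i' = pt n x'`: if `Cmp n i` and `Cmp n i'` are equal, `σ i = σ i'` and the source value `TW
(inr (σ i + s, n, x)) (inr (σ i + s', n, x'))` equals `TW (inr (s,n,x)) (inr (s',n,x'))` (the comparison of the ranks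
does not change: `rk` is compared first by the copy). Otherwise `i ≠ i'` and not `Rig n i i'` (Rig would give the same
component), so both source values are `T x x'` by src_com. The points are different: `(σ i + s, x) ≠ (σ i' + s', x')`
(if `x = x'` then `i = i'` and `s ≠ s'`). (About 70 lines.)
-/

namespace Pool.Agent.Lib.MP_4fb322_lc_h96

open Set Filter Pool.Agent.Lib.MP_4fb322_lc_h7

variable {Θ V : Type} [Nonempty Θ]

private theorem tw_shift {op : Θ → Θ} {T : V → V → Θ} {pt : ℕ → V → ℕ} {ρ : ℕ → V → Ultrafilter V}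
    (t s s' n : ℕ) (x x' : V) :
    TW op T pt ρ (Sum.inr (t + s, n, x)) (Sum.inr (t + s', n, x')) =
      TW op T pt ρ (Sum.inr (s, n, x)) (Sum.inr (s', n, x')) := by
  have e1 : rk pt (t + s, n, x) = rk pt (t + s', n, x') ↔ rk pt (s, n, x) = rk pt (s', n, x') := by
    simp [rk]
  have e2 : rk pt (t + s, n, x) < rk pt (t + s', n, x') ↔ rk pt (s, n, x) < rk pt (s', n, x') := by
    simp [rk, Prod.Lex.toLex_lt_toLex]
  simp only [TW, e1, e2]

theorem ce_shift {op : Θ → Θ} {T : V → V → Θ} {a : ℕ → Finset V} {u : Ultrafilter (V → V)}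
    {pt : ℕ → V → ℕ} {π : ℕ → V → V} {C : ℕ → V → Set V} {ρ : ℕ → V → Ultrafilter V} (D : Dat op T a u pt π C ρ) (H : Half1 op T a u pt π C ρ)
    {loc : ℕ → ℕ → ℕ} {𝒞 : Set (Set V)} {n Cc c : ℕ} {K : Set ℕ}
    {A : Set (ℕ × ℕ)} {J Q : ℕ → ℕ → ℕ} {g : ℕ → V → V} (h : CE op T a pt ρ loc 𝒞 n Cc K A J Q g)
    (σ : ℕ → ℕ) (hσ : ∀ i ∈ prt a pt n, σ i + c ≤ Cc)
    (hσc : ∀ i ∈ prt a pt n, ∀ i' ∈ Cmp T u a pt C n i, σ i' = σ i) :
    CE op T a pt ρ loc 𝒞 n c K A (fun s i => J (σ i + s) i) (fun s i => Q (σ i + s) i)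
      (fun s x => g (σ (pt n x) + s) x) := by
  have hprt : ∀ x ∈ a n, pt n x ≠ 0 → pt n x ∈ prt a pt n := by
    intro x hx hx0
    simp only [prt, Finset.mem_erase, Finset.mem_image]
    exact ⟨hx0, x, hx, rfl⟩
  have hσ1 : ∀ i ∈ prt a pt n, ∀ s < c, σ i + s < Cc := by
    intro i hi s hs
    have := hσ i hi
    omega
  refine ⟨?_, ?_, ?_, ?_⟩
  · intro s hs i hi hiK
    exact h.mem (σ i + s) (hσ1 i hi s hs) i hi hiK
  · intro s hs x hx hx0 hxK
    exact h.gm (σ (pt n x) + s) (hσ1 _ (hprt x hx hx0) s hs) x hx hx0 hxK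
  · intro s hs x hx hx0 hxK
    exact h.self (σ (pt n x) + s) (hσ1 _ (hprt x hx hx0) s hs) x hx hx0 hxK
  · intro s hs s' hs' x hx x' hx' hx0 hx0' hxK hxK' hne
    have hi := hprt x hx hx0
    have hi' := hprt x' hx' hx0'
    have hne2 : (σ (pt n x) + s, x) ≠ (σ (pt n x') + s', x') := by
      intro e
      rw [Prod.mk.injEq] at e
      obtain ⟨e1, e2⟩ := e
      subst e2
      apply hne
      have : s = s' := by omega
      rw [this]
    have h1 := h.emb (σ (pt n x) + s) (hσ1 _ hi s hs) (σ (pt n x') + s') (hσ1 _ hi' s' hs') x hx x'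
      hx' hx0 hx0' hxK hxK' hne2
    refine ⟨h1.1, h1.2.trans ?_⟩
    by_cases hR : pt n x = pt n x' ∨ Rig T u a pt C n (pt n x) (pt n x')
    · have hσe : σ (pt n x') = σ (pt n x) := by
        rcases hR with hR | hR
        · rw [hR]
        · exact hσc _ hi _ (Relation.ReflTransGen.single hR)
      rw [hσe]
      exact tw_shift (ρ := ρ) (op := op) (T := T) (pt := pt) (σ (pt n x)) s s' n x x'
    · rw [not_or] at hR
      rw [src_com D H _ _ hx hx' hx0 hx0' hR.1 hR.2, src_com D H _ _ hx hx' hx0 hx0' hR.1 hR.2]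

end Pool.Agent.Lib.MP_4fb322_lc_h96
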