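import Pool.Agent.Lib.MP_4fb322_lc_h96.Defs
import Pool.Agent.Lib.MP_4fb322_lc_h96.H13
import Pool.Agent.Lib.MP_4fb322_lc_h96.H14
import Pool.Agent.Lib.MP_4fb322_lc_h96.H15

set_option autoImplicit false

/-!
# Row H16

Copies whose components lie in one location each. `d` from exists_far, `Cc` from pigeon `L c d`. Given a CE with `Cc`
copies of all parts: for `i ∈ prt n` let `I = Cmp n i` (contained in `prt n`). If some `Rig n i i₁` then `φ s i' = loc
(J s i') (Q s i')` satisfies the hypotheses of pigeon (`rkp` is lexicographic, so `rkp ≤ rkp` implies `loc ≤ loc`;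
exists_far applies to all `i' ∈ I`, which have a neighbour too and the same component: `Rig` is symmetric); else `I =
{i}` and any `σ` works (`σ = 0`; note `c ≤ Cc` by pigeon with `I = ∅`). Choose `σ` for each component (a function of
the set `Cmp n i`, so that it is constant on components: `Classical.choose` for the set `I`), apply ce_shift. (About
90 lines.)
-/

namespace Pool.Agent.Lib.MP_4fb322_lc_h96

open Set Filter Pool.Agent.Lib.MP_4fb322_lc_h7

variable {Θ V : Type} [Nonempty Θ]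

omit [Nonempty Θ] in
private theorem h16_symm [Nonempty Θ] {T : V → V → Θ} {a : ℕ → Finset V} {u : Ultrafilter (V → V)}
    {pt : ℕ → V → ℕ} {C : ℕ → V → Set V} {n i i' : ℕ} (h : Rig T u a pt C n i i') :
    Rig T u a pt C n i' i :=
  ⟨h.2.1, h.1, h.2.2.symm⟩

private theorem h16_refl {T : V → V → Θ} {a : ℕ → Finset V} {u : Ultrafilter (V → V)}
    {pt : ℕ → V → ℕ} {C : ℕ → V → Set V} {n i : ℕ} : i ∈ Cmp T u a pt C n i :=
  Relation.ReflTransGen.refl

private theorem h16_sym {T : V → V → Θ} {a : ℕ → Finset V} {u : Ultrafilter (V → V)}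
    {pt : ℕ → V → ℕ} {C : ℕ → V → Set V} {n i i' : ℕ} (h : i' ∈ Cmp T u a pt C n i) :
    i ∈ Cmp T u a pt C n i' := by
  have h' : Relation.ReflTransGen (Rig T u a pt C n) i i' := h
  show Relation.ReflTransGen (Rig T u a pt C n) i' i
  induction h' with
  | refl => exact Relation.ReflTransGen.refl
  | tail _ hr ih => exact Relation.ReflTransGen.head (h16_symm hr) (ih (by assumption))

private theorem h16_eq {T : V → V → Θ} {a : ℕ → Finset V} {u : Ultrafilter (V → V)}
    {pt : ℕ → V → ℕ} {C : ℕ → V → Set V} {n i i' : ℕ} (h : i' ∈ Cmp T u a pt C n i) :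
    Cmp T u a pt C n i' = Cmp T u a pt C n i := by
  ext j
  constructor
  · intro hj
    exact Relation.ReflTransGen.trans h hj
  · intro hj
    exact Relation.ReflTransGen.trans (h16_sym h) hj

private theorem h16_mem {T : V → V → Θ} {a : ℕ → Finset V} {u : Ultrafilter (V → V)}
    {pt : ℕ → V → ℕ} {C : ℕ → V → Set V} {n i i' : ℕ} (hi : i ∈ prt a pt n)
    (h : i' ∈ Cmp T u a pt C n i) : i' ∈ prt a pt n := by
  rcases Relation.ReflTransGen.cases_tail h with h1 | ⟨b, _, hb⟩
  · rw [h1]; exact hi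
  · exact hb.2.1

theorem sel [Finite Θ] {op : Θ → Θ} {T : V → V → Θ} {a : ℕ → Finset V} {u : Ultrafilter (V → V)}
    {pt : ℕ → V → ℕ} {π : ℕ → V → V} {C : ℕ → V → Set V} {ρ : ℕ → V → Ultrafilter V} (D : Dat op T a u pt π C ρ) (H : Half1 op T a u pt π C ρ)
    (loc : ℕ → ℕ → ℕ) (L n c : ℕ) :
    ∃ Cc : ℕ, ∀ (𝒞 : Set (Set V)) (A : Set (ℕ × ℕ)), cn a C n ⊆ 𝒞 → (∀ p ∈ A, p.2 < L) →
      CEX op T a pt ρ loc 𝒞 n Cc Set.univ A → ∃ J Q g, CE op T a pt ρ loc 𝒞 n c Set.univ A J Q g ∧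
        ∀ s < c, ∀ i ∈ prt a pt n, ∀ i' ∈ Cmp T u a pt C n i,
          loc (J s i') (Q s i') = loc (J s i) (Q s i) := by
  obtain ⟨d, hd⟩ := exists_far D H loc n
  obtain ⟨Cc, hCc⟩ := pigeon L c d
  refine ⟨Cc, fun 𝒞 A hcn hA hce => ?_⟩
  obtain ⟨J, Q, g, h⟩ := hce
  have hcC : c ≤ Cc := by
    obtain ⟨σ, hσ, _⟩ := hCc ∅ (fun _ _ => 0) (fun i hi => absurd hi (Set.notMem_empty i))
      (fun i hi => absurd hi (Set.notMem_empty i))
    omega
  have hex : ∀ I : Set ℕ, ∃ σ : ℕ, (∃ i ∈ prt a pt n, I = Cmp T u a pt C n i) → σ + c ≤ Cc ∧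
      ∀ s < c, ∀ i ∈ I, ∀ i' ∈ I,
        loc (J (σ + s) i') (Q (σ + s) i') = loc (J (σ + s) i) (Q (σ + s) i) := by
    intro I
    by_cases hI : ∃ i ∈ prt a pt n, I = Cmp T u a pt C n i
    · obtain ⟨i, hi, rfl⟩ := hI
      by_cases hr : ∃ i₁, Rig T u a pt C n i i₁
      · obtain ⟨σ, hσ1, hσ2⟩ := hCc (Cmp T u a pt C n i) (fun s i' => loc (J s i') (Q s i'))
          (fun i' hi' s hs => hA _ (h.mem s hs i' (h16_mem hi hi') (Set.mem_univ _)).1)
          (fun i' hi' i'' hi'' s s' hss hs' => by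
            have hn : ∃ i₁, Rig T u a pt C n i' i₁ := by
              rcases Relation.ReflTransGen.cases_tail hi' with h1 | ⟨b, _, hb⟩
              · rw [h1]; exact hr
              · exact ⟨b, h16_symm hb⟩
            have hm : i'' ∈ Cmp T u a pt C n i' := by
              rw [h16_eq hi']; exact hi''
            have hle := hd 𝒞 Cc Set.univ A J Q g h hcn i' hn (Set.subset_univ _) i'' hm s s' hss hs'
            unfold rkp at hle
            rcases Prod.Lex.toLex_le_toLex.1 hle with h1 | h1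
            · exact h1.le
            · exact h1.1.le)
        exact ⟨σ, fun _ => ⟨hσ1, hσ2⟩⟩
      · refine ⟨0, fun _ => ⟨by omega, ?_⟩⟩
        have hsing : ∀ i' ∈ Cmp T u a pt C n i, i' = i := by
          intro i' hi'
          rcases Relation.ReflTransGen.cases_head hi' with h1 | ⟨b, hb, _⟩
          · exact h1.symm
          · exact absurd ⟨b, hb⟩ hr
        intro s _ i₁ hi₁ i₂ hi₂
        rw [hsing i₁ hi₁, hsing i₂ hi₂]
    · exact ⟨0, fun h => absurd h hI⟩
  choose σ hσ using hex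
  refine ⟨_, _, _, ce_shift D H h (fun i => σ (Cmp T u a pt C n i))
    (fun i hi => (hσ _ ⟨i, hi, rfl⟩).1) (fun i _ i' hi' => by simp only [h16_eq hi']), ?_⟩
  intro s hs i hi i' hi'
  have h1 := (hσ _ ⟨i, hi, rfl⟩).2 s hs i h16_refl i' hi'
  simp only [h16_eq hi']
  exact h1

end Pool.Agent.Lib.MP_4fb322_lc_h96
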