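import Pool.Agent.Lib.MP_4fb322_lc_h96.Defs
import Pool.Agent.Lib.MP_4fb322_lc_h96.H01
import Pool.Agent.Lib.MP_4fb322_lc_h96.H02
import Pool.Agent.Lib.MP_4fb322_lc_h96.H04
import Pool.Agent.Lib.MP_4fb322_lc_h96.H08

set_option autoImplicit false

/-!
# Row H17

Fullness of the arrangements in which the locations `t ∈ S` are occupied by the last word only. `H.full_of`: almost
all `n` are in `Ω ∩ Ty` and good for all arrows `t → t`, `t ∈ S` (S is finite, contained in `range L`:
`Filter.eventually_all_finite`). For such `n`, for almost all `m`: `n < m`, `m ∈ Ty`, and for all `t ∈ S` there is `k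
∈ prt m` with `loc m k = t` and Fit (cn a C n) n (e n t) m k by a map `g_t`. Define `f x = inl (π n x)` for pins, `inr
(loc n (pt n x), n, x)` if `loc n (pt n x) ∉ S`, and `inr (t, m, g_t x)` if `loc n (pt n x) = t ∈ S` (then `pt n x = e
n t` by `hd.sing`). glue_pins; pairs: same part: same piece, `TW = T`, by PE of `g_t` resp. trivial; different parts
`pt n x < pt n y`: `loc n (pt n x) ≤ loc n (pt n y)` and not both at the same `t ∈ S` (there is only one part at `t`),
so `rk (f x) < rk (f y)`: first by the location, and if the locations are equal both points are `(.., n, ..)`.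
pair_lt. (About 120 lines.)
-/

namespace Pool.Agent.Lib.MP_4fb322_lc_h96

open Set Filter Pool.Agent.Lib.MP_4fb322_lc_h7

variable {Θ V : Type} [Nonempty Θ]

open Classical in
/-- the map of the row -/
private noncomputable def h17f (π : ℕ → V → V) (pt : ℕ → V → ℕ) (loc : ℕ → ℕ → ℕ) (S : Set ℕ)
    (G : ℕ → V → V) (n m : ℕ) (x : V) : Pt V :=
  if pt n x = 0 then Sum.inl (π n x) else
    if loc n (pt n x) ∈ S then Sum.inr (loc n (pt n x), m, G (loc n (pt n x)) x)
    else Sum.inr (loc n (pt n x), n, x)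

private theorem h17_rk_lt {pt : ℕ → V → ℕ} {z z' : ℕ × ℕ × V}
    (h : z.1 < z'.1 ∨ (z.1 = z'.1 ∧ (z.2.1 < z'.2.1 ∨ (z.2.1 = z'.2.1 ∧
      pt z.2.1 z.2.2 < pt z'.2.1 z'.2.2)))) : rk pt z < rk pt z' := by
  unfold rk
  rw [Prod.Lex.toLex_lt_toLex]
  rcases h with h | ⟨h, h'⟩
  · exact Or.inl h
  · refine Or.inr ⟨h, ?_⟩
    show toLex _ < toLex _
    rw [Prod.Lex.toLex_lt_toLex]
    exact h'

private theorem h17_tw_same {op : Θ → Θ} {T : V → V → Θ} {pt : ℕ → V → ℕ} {ρ : ℕ → V → Ultrafilter V}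
    {l j : ℕ} {x y : V} (h : pt j x = pt j y) :
    TW op T pt ρ (Sum.inr (l, j, x)) (Sum.inr (l, j, y)) = T x y := by
  have : rk pt (l, j, x) = rk pt (l, j, y) := by
    unfold rk
    simp only [h]
  simp only [TW, this, if_true]

theorem full_A1 {op : Θ → Θ} {T : V → V → Θ} {a : ℕ → Finset V} {u : Ultrafilter (V → V)}
    {pt : ℕ → V → ℕ} {π : ℕ → V → V} {C : ℕ → V → Set V} {ρ : ℕ → V → Ultrafilter V} (D : Dat op T a u pt π C ρ) (H : Half1 op T a u pt π C ρ) {α : Type}
    {col : ℕ → ℕ → α} {Ty : Set ℕ} {L : ℕ} {G : Set ℕ} {Al : ℕ → Set α} {loc e : ℕ → ℕ → ℕ}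
    (hd : Dec (prt a pt) col Ty L G Al loc e) {S : Set ℕ} (hS : ∀ t ∈ S, t < L ∧ t ∉ G ∧ Arr T a pt ρ loc e t t)
    {Ω : Set ℕ} (hΩ : ∀ᶠ j in (UF : Filter ℕ), j ∈ Ω) (hΩT : Ω ⊆ Ty) :
    FullA op T u a pt ρ loc (fun m => {p | (p.1 ∈ Ω ∧ p.1 < m ∧ p.2 < L ∧ p.2 ∉ S) ∨ (p.1 = m ∧ p.2 ∈ S)}) := by
  have hLfin : S.Finite := (Set.finite_lt_nat L).subset fun t ht => (hS t ht).1
  refine H.full_of _ ?_ ?_
  · intro m z hz
    rcases hz with hz | ⟨j, x, hx, hx0, _, rfl⟩
    · obtain ⟨p, hp, rfl⟩ := hz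
      exact Or.inl ⟨p, hp, rfl⟩
    · exact Or.inr ⟨_, j, x, hx, hx0, rfl⟩
  · have hall : ∀ᶠ n in (UF : Filter ℕ), ∀ t ∈ S, ∀ 𝒞 : Set (Set V), 𝒞.Finite →
        ∀ᶠ j in (UF : Filter ℕ), ∃ k ∈ prt a pt j, loc j k = t ∧ Fit T a pt ρ 𝒞 n (e n t) j k :=
      (Filter.eventually_all_finite hLfin).2 fun t ht => (hS t ht).2.2
    filter_upwards [hall, hΩ] with n hn hnΩ
    have hnT : n ∈ Ty := hΩT hnΩ
    have hcfin : (cn a C n).Finite := (a n).finite_toSet.image _
    have hm1 : ∀ᶠ m in (UF : Filter ℕ), ∀ t ∈ S, ∃ k ∈ prt a pt m, loc m k = t ∧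
        Fit T a pt ρ (cn a C n) n (e n t) m k :=
      (Filter.eventually_all_finite hLfin).2 fun t ht => hn t ht _ hcfin
    have hm2 : ∀ᶠ m in (UF : Filter ℕ), n < m :=
      (Filter.eventually_gt_atTop n).filter_mono Nat.hyperfilter_le_atTop
    filter_upwards [hm1, hm2] with m hm hnm
    have hex : ∀ t, ∃ k : ℕ, ∃ g : V → V, t ∈ S → (k ∈ prt a pt m ∧ loc m k = t ∧
        PE T T (part a pt n (e n t)) g ∧ ∀ x ∈ part a pt n (e n t), g x ∈ part a pt m k ∧
          ∀ B ∈ cn a C n, (B ∈ ρ m (g x) ↔ B ∈ ρ n x)) := by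
      intro t
      by_cases ht : t ∈ S
      · obtain ⟨k, hk1, hk2, g, hg1, hg2⟩ := hm t ht
        exact ⟨k, g, fun _ => ⟨hk1, hk2, hg1, hg2⟩⟩
      · exact ⟨0, id, fun h => absurd h ht⟩
    choose k g hkg using hex
    -- the part at a location in `S`
    have hpart : ∀ x ∈ a n, pt n x ≠ 0 → loc n (pt n x) ∈ S →
        x ∈ part a pt n (e n (loc n (pt n x))) := by
      intro x hx hx0 hxS
      have hp : pt n x ∈ prt a pt n := mem_prt.2 ⟨hx0, x, hx, rfl⟩
      exact ⟨hx, (hd.sing n hnT _ (hS _ hxS).1 (hS _ hxS).2.1).2.2 _ hp rfl⟩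
    -- description of the new points
    have hdesc : ∀ x ∈ a n, pt n x ≠ 0 → ∃ z : ℕ × ℕ × V,
        h17f π pt loc S g n m x = Sum.inr z ∧ z.1 = loc n (pt n x) ∧ z.2.2 ∈ a z.2.1 ∧
        pt z.2.1 z.2.2 ≠ 0 ∧ (∀ B ∈ cn a C n, (B ∈ ρ z.2.1 z.2.2 ↔ B ∈ ρ n x)) ∧
        loc z.2.1 (pt z.2.1 z.2.2) = z.1 ∧
        ((loc n (pt n x) ∈ S ∧ z.2.1 = m ∧ z.2.2 = g (loc n (pt n x)) x ∧
            pt m z.2.2 = k (loc n (pt n x))) ∨
          (loc n (pt n x) ∉ S ∧ z.2.1 = n ∧ z.2.2 = x)) := by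
      intro x hx hx0
      by_cases hxS : loc n (pt n x) ∈ S
      · obtain ⟨h1, h2, h3, h4⟩ := hkg _ hxS
        have h5 := h4 x (hpart x hx hx0 hxS)
        refine ⟨(loc n (pt n x), m, g (loc n (pt n x)) x), ?_, rfl, h5.1.1, ?_, h5.2, ?_,
          Or.inl ⟨hxS, rfl, rfl, h5.1.2⟩⟩
        · unfold h17f
          rw [if_neg hx0, if_pos hxS]
        · show pt m _ ≠ 0
          rw [h5.1.2]
          exact (mem_prt.1 h1).1
        · show loc m (pt m _) = _
          rw [h5.1.2]
          exact h2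
      · refine ⟨(loc n (pt n x), n, x), ?_, rfl, hx, hx0, fun _ _ => Iff.rfl, rfl,
          Or.inr ⟨hxS, rfl, rfl⟩⟩
        unfold h17f
        rw [if_neg hx0, if_neg hxS]
    refine ⟨h17f π pt loc S g n m, glue_pins D H _ ?_ ?_ ?_ ?_, ?_⟩
    · intro x _ hx0
      unfold h17f
      rw [if_pos hx0]
    · intro x hx hx0
      obtain ⟨z, h1, _, h3, h4, h5, _⟩ := hdesc x hx hx0
      exact ⟨z, h1, h3, h4, h5⟩
    · intro x hx hx0
      obtain ⟨⟨l, j, y⟩, h1, h2, h3, h4, h5, h6, h7⟩ := hdesc x hx hx0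
      rw [h1, h17_tw_same rfl]
      rcases h7 with ⟨hxS, hj, hy, _⟩ | ⟨_, _, hy⟩
      · simp only at hy
        rw [hy]
        exact (hkg _ hxS).2.2.1.2 x (hpart x hx hx0 hxS) x (hpart x hx hx0 hxS)
      · simp only at hy
        rw [hy]
    · -- pairs
      have hlt : ∀ x ∈ a n, ∀ y ∈ a n, pt n x ≠ 0 → pt n y ≠ 0 → pt n x < pt n y →
          h17f π pt loc S g n m x ≠ h17f π pt loc S g n m y ∧
          TW op T pt ρ (h17f π pt loc S g n m x) (h17f π pt loc S g n m y) = T x y ∧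
          TW op T pt ρ (h17f π pt loc S g n m y) (h17f π pt loc S g n m x) = T y x := by
        intro x hx y hy hx0 hy0 hxy
        have hpx : pt n x ∈ prt a pt n := mem_prt.2 ⟨hx0, x, hx, rfl⟩
        have hpy : pt n y ∈ prt a pt n := mem_prt.2 ⟨hy0, y, hy, rfl⟩
        obtain ⟨z, h1, h2, h3, h4, h5, h6, h7⟩ := hdesc x hx hx0
        obtain ⟨z', h1', h2', h3', h4', h5', h6', h7'⟩ := hdesc y hy hy0
        have hmono := hd.mono n hnT _ hpx _ hpy hxy
        have hrk : rk pt z < rk pt z' := by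
          apply h17_rk_lt
          rcases hmono.lt_or_eq with hl | hl
          · left
            rw [h2, h2']
            exact hl
          · right
            refine ⟨by rw [h2, h2', hl], ?_⟩
            rcases h7 with ⟨hxS, _⟩ | ⟨hxS, hj, hzx⟩
            · exfalso
              have e1 := (hd.sing n hnT _ (hS _ hxS).1 (hS _ hxS).2.1).2.2 _ hpx rfl
              have e2 := (hd.sing n hnT _ (hS _ hxS).1 (hS _ hxS).2.1).2.2 _ hpy hl.symm
              omega
            · rcases h7' with ⟨hyS, _⟩ | ⟨_, hj', hzy⟩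
              · exact absurd (hl ▸ hyS) hxS
              · right
                rw [hj, hj', hzx, hzy]
                exact ⟨rfl, hxy⟩
        have := pair_lt D H hx hy hx0 hy0 (Or.inl hxy) (z := z) (z' := z') ⟨h3, h4⟩ ⟨h3', h4'⟩ h5 h5' hrk
        rw [h1, h1']
        exact ⟨fun h => this.1 (Sum.inr_injective h), this.2.1, this.2.2⟩
      intro x hx y hy hx0 hy0 hxy
      rcases lt_trichotomy (pt n x) (pt n y) with h | h | h
      · have := hlt x hx y hy hx0 hy0 h
        exact ⟨this.1, this.2.1⟩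
      · -- the same part
        by_cases hxS : loc n (pt n x) ∈ S
        · have hyS : loc n (pt n y) ∈ S := h ▸ hxS
          obtain ⟨q1, q2, q3, q4⟩ := hkg _ hxS
          have p1 := hpart x hx hx0 hxS
          have p2 := hpart y hy hy0 hyS
          rw [← h] at p2
          have e1 : h17f π pt loc S g n m x = Sum.inr (loc n (pt n x), m, g (loc n (pt n x)) x) := by
            unfold h17f
            rw [if_neg hx0, if_pos hxS]
          have e2 : h17f π pt loc S g n m y = Sum.inr (loc n (pt n x), m, g (loc n (pt n x)) y) := by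
            unfold h17f
            rw [if_neg hy0, if_pos hyS, ← h]
          rw [e1, e2]
          refine ⟨fun hh => hxy (q3.1 p1 p2 ?_), ?_⟩
          · have := Sum.inr_injective hh
            simp only [Prod.mk.injEq, true_and] at this
            exact this
          · rw [h17_tw_same, q3.2 x p1 y p2]
            rw [(q4 x p1).1.2, (q4 y p2).1.2]
        · have hyS : loc n (pt n y) ∉ S := h ▸ hxS
          have e1 : h17f π pt loc S g n m x = Sum.inr (loc n (pt n x), n, x) := by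
            unfold h17f
            rw [if_neg hx0, if_neg hxS]
          have e2 : h17f π pt loc S g n m y = Sum.inr (loc n (pt n x), n, y) := by
            unfold h17f
            rw [if_neg hy0, if_neg hyS, ← h]
          rw [e1, e2]
          refine ⟨fun hh => hxy ?_, h17_tw_same h⟩
          have := Sum.inr_injective hh
          simp only [Prod.mk.injEq, true_and] at this
          exact this
      · have := hlt y hy x hx hy0 hx0 h
        exact ⟨fun hh => this.1 hh.symm, this.2.2⟩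
    · intro x hx
      by_cases hx0 : pt n x = 0
      · left
        refine ⟨π n x, (D.mrob n).rob.pin x hx hx0, ?_⟩
        unfold h17f
        rw [if_pos hx0]
      · right
        obtain ⟨⟨l, j, y⟩, h1, h2, h3, h4, h5, h6, h7⟩ := hdesc x hx hx0
        simp only at h2 h3 h4 h5 h6 h7
        have hp : pt n x ∈ prt a pt n := mem_prt.2 ⟨hx0, x, hx, rfl⟩
        refine ⟨j, y, h3, h4, ?_, by rw [h1, h6]⟩
        rw [h6, h2]
        rcases h7 with ⟨hxS, hj, _⟩ | ⟨hxS, hj, _⟩
        · right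
          exact ⟨hj, hxS⟩
        · left
          refine ⟨?_, ?_, hd.lt n hnT _ hp, hxS⟩
          · rw [hj]; exact hnΩ
          · rw [hj]; exact hnm

end Pool.Agent.Lib.MP_4fb322_lc_h96
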