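import Pool.Agent.Lib.MP_4fb322_lc_h96.Defs
import Pool.Agent.Lib.MP_4fb322_lc_h96.H01
import Pool.Agent.Lib.MP_4fb322_lc_h96.H07
import Pool.Agent.Lib.MP_4fb322_lc_h96.H10
import Pool.Agent.Lib.MP_4fb322_lc_h96.H16
import Pool.Agent.Lib.MP_4fb322_lc_h96.H17

set_option autoImplicit false

/-!
# Row H18

THE CLAIM: arbitrarily many copies of the components of the terminal parts go into the terminal parts of the last
word. PROOF. Almost all `n` satisfy: `n ∈ Ty` and for all `t ∈ S` and `l' < L`, `l' ∉ S` (so not Arr t l' by hS2)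
there is a finite `𝒞_{t,l'}` as in not_arr. Let `𝒞₁` be the union of these (finite), `Ω` = the `j ∈ Ty` such that for
all `t ∈ S`, `l' < L`, `l' ∉ S`, `k ∈ prt j` with `loc j k = l'`: not Fit 𝒞₁ n (e n t) j k (almost all `j`; Fit.mono).
full_A1. Given `c`, `𝒞`: `Cc` from sel (for `loc L n c`); ce_of_full with `𝒞' = 𝒞 ∪ 𝒞₁ ∪ cn a C n`, `Cc` copies, `K =
univ`: for almost all `m` (also `m ∈ Ty`) sel gives `J Q g` with `c` copies, components at one location each. For `i ∈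
Cmp n (e n t)`, `t ∈ S`: the location of `(s,i)` is that of `(s, e n t)`, call it `l'` (`< L`); if `l' ∉ S` then `J s
(e n t) ∈ Ω`, and `fit_of_ce` contradicts the definition of `Ω`. So `l' ∈ S`, and `CE.mem` gives `J s i = m`. So the
same `J Q g` are a CE for `K = {i | ∃ t ∈ S, i ∈ Cmp n (e n t)}` and `A = {p | p.1 = m ∧ p.2 ∈ S}` (CE with smaller 𝒞:
weaken gm). (About 120 lines.)
-/

namespace Pool.Agent.Lib.MP_4fb322_lc_h96

open Set Filter Pool.Agent.Lib.MP_4fb322_lc_h7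

variable {Θ V : Type} [Nonempty Θ]

theorem claim [Finite Θ] {op : Θ → Θ} {T : V → V → Θ} {a : ℕ → Finset V} {u : Ultrafilter (V → V)}
    {pt : ℕ → V → ℕ} {π : ℕ → V → V} {C : ℕ → V → Set V} {ρ : ℕ → V → Ultrafilter V} (D : Dat op T a u pt π C ρ) (H : Half1 op T a u pt π C ρ) {α : Type}
    {col : ℕ → ℕ → α} {Ty : Set ℕ} {L : ℕ} {G : Set ℕ} {Al : ℕ → Set α} {loc e : ℕ → ℕ → ℕ}
    (hd : Dec (prt a pt) col Ty L G Al loc e) {S : Set ℕ} (hS : ∀ t ∈ S, t < L ∧ t ∉ G ∧ Arr T a pt ρ loc e t t)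
    (hS2 : ∀ t ∈ S, ∀ l' < L, Arr T a pt ρ loc e t l' → l' ∈ S) (c : ℕ) :
    ∀ᶠ n in (UF : Filter ℕ), ∀ 𝒞 : Set (Set V), 𝒞.Finite → ∀ᶠ m in (UF : Filter ℕ),
      CEX op T a pt ρ loc 𝒞 n c {i | ∃ t ∈ S, i ∈ Cmp T u a pt C n (e n t)}
        {p | p.1 = m ∧ p.2 ∈ S} := by
  classical
  have h1 : ∀ᶠ n in (UF : Filter ℕ), ∀ t ∈ Finset.range L, ∀ l' ∈ Finset.range L,
      ∃ 𝒞 : Set (Set V), 𝒞.Finite ∧ (t ∈ S → l' ∉ S → ∀ᶠ j in (UF : Filter ℕ),
        ∀ k ∈ prt a pt j, loc j k = l' → ¬ Fit T a pt ρ 𝒞 n (e n t) j k) := by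
    rw [Filter.eventually_all_finset]
    intro t ht
    rw [Filter.eventually_all_finset]
    intro l' hl'
    by_cases htS : t ∈ S
    · by_cases hlS : l' ∈ S
      · exact Filter.Eventually.of_forall fun n => ⟨∅, Set.finite_empty, fun _ h => absurd hlS h⟩
      · have hna : ¬ Arr T a pt ρ loc e t l' := fun h => hlS (hS2 t htS l' (Finset.mem_range.mp hl') h)
        filter_upwards [not_arr hna] with n hn
        obtain ⟨𝒞, hf, hev⟩ := hn
        exact ⟨𝒞, hf, fun _ _ => hev⟩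
    · exact Filter.Eventually.of_forall fun n => ⟨∅, Set.finite_empty, fun h => absurd h htS⟩
  filter_upwards [h1, hd.typ] with n hn hnTy
  choose! Cf hCf hCev using hn
  set 𝒞₁ : Set (Set V) := ⋃ t ∈ (Finset.range L : Set ℕ), ⋃ l' ∈ (Finset.range L : Set ℕ), Cf t l'
    with h𝒞₁
  have hfin₁ : 𝒞₁.Finite := by
    apply Set.Finite.biUnion (Finset.finite_toSet _)
    intro t ht
    apply Set.Finite.biUnion (Finset.finite_toSet _)
    intro l' hl'
    exact hCf t (Finset.mem_coe.mp ht) l' (Finset.mem_coe.mp hl')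
  have hsub : ∀ t < L, ∀ l' < L, Cf t l' ⊆ 𝒞₁ := by
    intro t ht l' hl' B hB
    simp only [h𝒞₁, Set.mem_iUnion]
    exact ⟨t, Finset.mem_coe.mpr (Finset.mem_range.mpr ht), l',
      Finset.mem_coe.mpr (Finset.mem_range.mpr hl'), hB⟩
  set Ω : Set ℕ := {j | j ∈ Ty ∧ ∀ t ∈ Finset.range L, ∀ l' ∈ Finset.range L, t ∈ S → l' ∉ S →
    ∀ k ∈ prt a pt j, loc j k = l' → ¬ Fit T a pt ρ 𝒞₁ n (e n t) j k} with hΩdef
  have hΩT : Ω ⊆ Ty := fun j hj => hj.1
  have hΩ : ∀ᶠ j in (UF : Filter ℕ), j ∈ Ω := by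
    have h2 : ∀ᶠ j in (UF : Filter ℕ), ∀ t ∈ Finset.range L, ∀ l' ∈ Finset.range L, t ∈ S →
        l' ∉ S → ∀ k ∈ prt a pt j, loc j k = l' → ¬ Fit T a pt ρ 𝒞₁ n (e n t) j k := by
      rw [Filter.eventually_all_finset]
      intro t ht
      rw [Filter.eventually_all_finset]
      intro l' hl'
      by_cases htS : t ∈ S
      · by_cases hlS : l' ∈ S
        · exact Filter.Eventually.of_forall fun j _ h => absurd hlS h
        · filter_upwards [hCev t ht l' hl' htS hlS] with j hj _ _ k hk hkl hfit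
          exact hj k hk hkl (Fit.mono hfit (hsub t (Finset.mem_range.mp ht) l' (Finset.mem_range.mp hl')))
      · exact Filter.Eventually.of_forall fun j h => absurd h htS
    filter_upwards [hd.typ, h2] with j hj hj2
    exact ⟨hj, hj2⟩
  have hfull := full_A1 D H hd hS hΩ hΩT
  intro 𝒞 h𝒞
  obtain ⟨Cc, hsel⟩ := sel D H loc L n c
  have hcnf : (cn a C n).Finite := (Finset.finite_toSet (a n)).image _
  have hfin' : (𝒞 ∪ 𝒞₁ ∪ cn a C n).Finite := (h𝒞.union hfin₁).union hcnf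
  filter_upwards [ce_of_full H hfull n Cc Set.univ hfin' Set.subset_union_right] with m hm
  obtain ⟨J, Q, g, hce, hcomp⟩ := hsel (𝒞 ∪ 𝒞₁ ∪ cn a C n) _ Set.subset_union_right (by
    rintro p (hp | hp)
    · exact hp.2.2.1
    · exact (hS _ hp.2).1) hm
  have hkey : ∀ s < c, ∀ i ∈ prt a pt n, (∃ t ∈ S, i ∈ Cmp T u a pt C n (e n t)) →
      (J s i = m ∧ loc (J s i) (Q s i) ∈ S) ∧ Q s i ∈ prt a pt (J s i) := by
    rintro s hs i hi ⟨t, htS, hit⟩
    obtain ⟨htL, htG, -⟩ := hS t htS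
    have hi0 : e n t ∈ prt a pt n := (hd.sing n hnTy t htL htG).1
    have hloc := hcomp s hs (e n t) hi0 i hit
    have hmem0 := hce.mem s hs (e n t) hi0 (Set.mem_univ _)
    have hmem := hce.mem s hs i hi (Set.mem_univ _)
    have hS' : loc (J s (e n t)) (Q s (e n t)) ∈ S := by
      by_contra hcon
      rcases hmem0.1 with h | h
      · have hfit : Fit T a pt ρ 𝒞₁ n (e n t) (J s (e n t)) (Q s (e n t)) :=
          Fit.mono (fit_of_ce (u := u) (π := π) (C := C) hce hs hi0 (Set.mem_univ _))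
            (Set.subset_union_right.trans Set.subset_union_left)
        exact h.1.2 t (Finset.mem_range.mpr htL) _ (Finset.mem_range.mpr h.2.2.1) htS hcon
          (Q s (e n t)) hmem0.2 rfl hfit
      · exact hcon h.2
    have hS'' : loc (J s i) (Q s i) ∈ S := by
      rw [hloc]
      exact hS'
    refine ⟨?_, hmem.2⟩
    rcases hmem.1 with h | h
    · exact absurd hS'' h.2.2.2
    · exact h
  refine ⟨J, Q, g, ?_⟩
  exact
    { mem := fun s hs i hi hK => hkey s hs i hi hK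
      gm := fun s hs x hx hx0 _ =>
        ⟨(hce.gm s hs x hx hx0 (Set.mem_univ _)).1, fun B hB =>
          (hce.gm s hs x hx hx0 (Set.mem_univ _)).2 B (Or.inl (Or.inl hB))⟩
      self := fun s hs x hx hx0 _ => hce.self s hs x hx hx0 (Set.mem_univ _)
      emb := fun s hs s' hs' x hx x' hx' h0 h0' _ _ hne =>
        hce.emb s hs s' hs' x hx x' hx' h0 h0' (Set.mem_univ _) (Set.mem_univ _) hne }

end Pool.Agent.Lib.MP_4fb322_lc_h96
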