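import Pool.Agent.Lib.MP_4fb322_lc_h96.Defs

set_option autoImplicit false

/-!
# Row H19

Fresh indices (pure). Sets of the hyperfilter are infinite (`Set.Infinite`: a finite set is not in the hyperfilter,
`Filter.notMem_hyperfilter_of_finite`), so every `X κ` contains elements above any bound. Choose `ν` recursively: `ν 0
∈ X 0` with `M₀ ≤ ν 0`, `ν (κ+1) ∈ X (κ+1)` with `ν κ < ν (κ+1)` (strictMono_nat_of_lt_succ). (About 30 lines.)
-/

namespace Pool.Agent.Lib.MP_4fb322_lc_h96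

open Set Filter Pool.Agent.Lib.MP_4fb322_lc_h7

variable {Θ V : Type} [Nonempty Θ]

omit [Nonempty Θ] in
theorem fresh (X : ℕ → Set ℕ) (hX : ∀ κ, ∀ᶠ j in (UF : Filter ℕ), j ∈ X κ) (M₀ : ℕ) :
    ∃ ν : ℕ → ℕ, StrictMono ν ∧ ∀ κ, ν κ ∈ X κ ∧ M₀ ≤ ν κ := by
  have key : ∀ κ b : ℕ, ∃ j, j ∈ X κ ∧ b ≤ j := by
    intro κ b
    exact ((hX κ).and ((eventually_ge_atTop b).filter_mono Nat.hyperfilter_le_atTop)).exists
  choose F hF using key
  let ν : ℕ → ℕ := fun κ => Nat.rec (F 0 M₀) (fun k r => F (k + 1) (r + 1)) κ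
  have hν0 : ν 0 = F 0 M₀ := rfl
  have hνs : ∀ k, ν (k + 1) = F (k + 1) (ν k + 1) := fun k => rfl
  have hmono : StrictMono ν := by
    refine strictMono_nat_of_lt_succ fun k => ?_
    rw [hνs k]
    have := (hF (k + 1) (ν k + 1)).2
    omega
  refine ⟨ν, hmono, fun κ => ⟨?_, ?_⟩⟩
  · cases κ with
    | zero => rw [hν0]; exact (hF 0 M₀).1
    | succ k => rw [hνs k]; exact (hF (k + 1) (ν k + 1)).1
  · have h1 : M₀ ≤ ν 0 := by rw [hν0]; exact (hF 0 M₀).2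
    exact h1.trans (hmono.monotone (Nat.zero_le κ))

end Pool.Agent.Lib.MP_4fb322_lc_h96
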