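import Pool.Agent.Lib.MP_4fb322_lc_h96.Defs
import Pool.Agent.Lib.MP_4fb322_lc_h96.H12

set_option autoImplicit false

/-!
# Row H20

The order of the parts after moving. `κ i = J 0 i * L + loc (J 0 i) (Q 0 i)`. `ord_key`: if not, then `i' < i` (or `i'
= i`: excluded by `hne`) and not `Com n i' i`, so `Rig n i' i` and `Rig n i i'`, so `i' ∈ Cmp n i` and the locations
are equal by `hcomp`; ce_mono (`s = s' = 0`, `i' < i`) gives `rkp (i') ≤ rkp (i)`, so by the lexicographic order `J 0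
i' ≤ J 0 i` and `κ i' ≤ κ i`, contradiction. `ord_loc`: if the locations are different then `i'` is not in `Cmp n i`,
so not Rig, and `i ≠ i'`: `i < i'` or `i' < i` and then Com (by `¬ Rig`). `ord_rk`: as `ord_key`, without locations:
`rkp i < rkp i'` and not (..) gives Rig and ce_mono: contradiction. (About 60 lines.)
-/

namespace Pool.Agent.Lib.MP_4fb322_lc_h96

open Set Filter Pool.Agent.Lib.MP_4fb322_lc_h7

variable {Θ V : Type} [Nonempty Θ]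

private theorem ord_rig {T : V → V → Θ} {a : ℕ → Finset V} {u : Ultrafilter (V → V)}
    {pt : ℕ → V → ℕ} {C : ℕ → V → Set V} {n i i' : ℕ} (hi : i ∈ prt a pt n) (hi' : i' ∈ prt a pt n)
    (hne : i ≠ i') (hn : ¬ (i < i' ∨ (i' < i ∧ Com T u a pt C n i' i))) :
    i' < i ∧ Rig T u a pt C n i i' ∧ Rig T u a pt C n i' i := by
  rw [not_or, not_and] at hn
  have hlt : i' < i := by omega
  exact ⟨hlt, ⟨hi, hi', Or.inr ⟨hlt, hn.2 hlt⟩⟩, ⟨hi', hi, Or.inl ⟨hlt, hn.2 hlt⟩⟩⟩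

theorem ord_key [Finite Θ] {op : Θ → Θ} {T : V → V → Θ} {a : ℕ → Finset V} {u : Ultrafilter (V → V)}
    {pt : ℕ → V → ℕ} {π : ℕ → V → V} {C : ℕ → V → Set V} {ρ : ℕ → V → Ultrafilter V} (D : Dat op T a u pt π C ρ) (H : Half1 op T a u pt π C ρ)
    {loc : ℕ → ℕ → ℕ} {𝒞 : Set (Set V)} {n : ℕ} {A : Set (ℕ × ℕ)} {J Q : ℕ → ℕ → ℕ} {g : ℕ → V → V}
    (h : CE op T a pt ρ loc 𝒞 n 1 Set.univ A J Q g) (hcn : cn a C n ⊆ 𝒞)
    (hcomp : ∀ i ∈ prt a pt n, ∀ i' ∈ Cmp T u a pt C n i, loc (J 0 i') (Q 0 i') = loc (J 0 i) (Q 0 i))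
    (L : ℕ) {i i' : ℕ} (hi : i ∈ prt a pt n) (hi' : i' ∈ prt a pt n) (hne : i ≠ i')
    (hk : J 0 i * L + loc (J 0 i) (Q 0 i) < J 0 i' * L + loc (J 0 i') (Q 0 i')) :
    i < i' ∨ (i' < i ∧ Com T u a pt C n i' i) := by
  by_contra hn
  obtain ⟨hlt, hR, hR'⟩ := ord_rig hi hi' hne hn
  have hloc := hcomp i hi i' (Relation.ReflTransGen.single hR)
  have hm := ce_mono D H h hcn hR' (Set.mem_univ _) (Set.mem_univ _) Nat.zero_lt_one
    Nat.zero_lt_one (Or.inr ⟨rfl, hlt⟩)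
  rw [rkp, rkp, Prod.Lex.toLex_le_toLex] at hm
  have hJ : J 0 i' ≤ J 0 i := by
    rcases hm with hm | ⟨_, hm⟩
    · exact absurd hm (by rw [hloc]; exact lt_irrefl _)
    · simp only [Prod.Lex.toLex_le_toLex] at hm
      rcases hm with hm | hm
      · exact le_of_lt hm
      · exact le_of_eq hm.1
  rw [hloc] at hk
  have := Nat.mul_le_mul_right L hJ
  omega

theorem ord_loc {op : Θ → Θ} {T : V → V → Θ} {a : ℕ → Finset V} {u : Ultrafilter (V → V)}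
    {pt : ℕ → V → ℕ} {π : ℕ → V → V} {C : ℕ → V → Set V} {ρ : ℕ → V → Ultrafilter V} {loc : ℕ → ℕ → ℕ} {n : ℕ} {J Q : ℕ → ℕ → ℕ}
    (hcomp : ∀ i ∈ prt a pt n, ∀ i' ∈ Cmp T u a pt C n i, loc (J 0 i') (Q 0 i') = loc (J 0 i) (Q 0 i))
    {i i' : ℕ} (hi : i ∈ prt a pt n) (hi' : i' ∈ prt a pt n)
    (hk : loc (J 0 i) (Q 0 i) ≠ loc (J 0 i') (Q 0 i')) :
    i < i' ∨ (i' < i ∧ Com T u a pt C n i' i) := by
  by_contra hn
  have hne : i ≠ i' := by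
    intro e
    subst e
    exact hk rfl
  obtain ⟨_, hR, _⟩ := ord_rig hi hi' hne hn
  exact hk (hcomp i hi i' (Relation.ReflTransGen.single hR)).symm

theorem ord_rk [Finite Θ] {op : Θ → Θ} {T : V → V → Θ} {a : ℕ → Finset V} {u : Ultrafilter (V → V)}
    {pt : ℕ → V → ℕ} {π : ℕ → V → V} {C : ℕ → V → Set V} {ρ : ℕ → V → Ultrafilter V} (D : Dat op T a u pt π C ρ) (H : Half1 op T a u pt π C ρ)
    {loc : ℕ → ℕ → ℕ} {𝒞 : Set (Set V)} {n : ℕ} {A : Set (ℕ × ℕ)} {J Q : ℕ → ℕ → ℕ} {g : ℕ → V → V}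
    (h : CE op T a pt ρ loc 𝒞 n 1 Set.univ A J Q g) (hcn : cn a C n ⊆ 𝒞)
    {i i' : ℕ} (hi : i ∈ prt a pt n) (hi' : i' ∈ prt a pt n)
    (hk : rkp loc (J 0 i) (Q 0 i) < rkp loc (J 0 i') (Q 0 i')) :
    i < i' ∨ (i' < i ∧ Com T u a pt C n i' i) := by
  by_contra hn
  have hne : i ≠ i' := by
    intro e
    subst e
    exact lt_irrefl _ hk
  obtain ⟨hlt, _, hR'⟩ := ord_rig hi hi' hne hn
  exact absurd hk (not_lt_of_ge (ce_mono D H h hcn hR' (Set.mem_univ _) (Set.mem_univ _)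
    Nat.zero_lt_one Nat.zero_lt_one (Or.inr ⟨rfl, hlt⟩)))

end Pool.Agent.Lib.MP_4fb322_lc_h96
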