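import Pool.Agent.Lib.MP_4fb322_lc_h96.Defs
import Pool.Agent.Lib.MP_4fb322_lc_h96.H01
import Pool.Agent.Lib.MP_4fb322_lc_h96.H02
import Pool.Agent.Lib.MP_4fb322_lc_h96.H03
import Pool.Agent.Lib.MP_4fb322_lc_h96.H04
import Pool.Agent.Lib.MP_4fb322_lc_h96.H20

set_option autoImplicit false

/-!
# Row H21

Moving the pieces. Notation for `i ∈ prt n`: `j = J 0 i ∈ Ω ⊆ Ty`, `λ = loc (J 0 i) (Q 0 i) < L`, `κ = j * L + λ`; the
given embedding places `x ∈ part n i` at `(λ, j, g 0 x)`. If `λ ∉ G` then `Q 0 i = e j λ` (`hd.sing`). Choose the maps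
`φ κ` of `hgap` (into the part `k κ` of `a (ν κ)`) and `ψ κ` of `hlast` (into the part `e n' (r λ)` of `a n'`; both
depend only on `j`, `λ`; `κ` determines `j`, `λ` because `λ < L`). DEFINITION of `f x`: pin: `inl (π n x)`; `λ ∈ G`:
`inr (λ, j, g 0 x)`; `λ ∉ G`, `r λ ∈ G`: `inr (r λ, ν κ, φ κ (g 0 x))`; `λ ∉ G`, `r λ ∉ G` (so `r λ ∈ S`, take `i₁ = e
n' (r λ)`, in the allowed `K`, `Relation.ReflTransGen.refl`): `inr (loc m (Q' κ i₁), J' κ i₁, g' κ (ψ κ (g 0 x)))`,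
with `J' κ i₁ = m` and `loc m .. ∈ S` by `h'.mem`. Membership in `NA`: clear (`ν κ < m` by `hm`, `κ < (m₀ + 1) * L`).
glue_pins; nearness composes. Pairs `x ≠ y`, `i = pt n x`, `i' = pt n y`: (1) kinds different: the locations `λ`, `λ'`
are different, so `i ≠ i'` and ord_loc gives both orders; the indices (`< m₀`, `≥ m₀` and `< m`, `= m`) differ, so the
ranks differ: pair_lt in one of the two orders. (2) both `λ, λ' ∈ G`: `h.emb` and src_same. (3) both gap: if `κ = κ'`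
then `j = j'`, `λ = λ'`, same source piece, same new piece: `TW = T` on both sides, `φ κ` is PE, `h.emb` + src_same
give `T (g 0 x) (g 0 y) = T x y` and `g 0 x ≠ g 0 y`. If `κ ≠ κ'` then `ν κ ≠ ν κ'`; if `rk (f x) < rk (f y)` then: `λ
≠ λ'`: ord_loc; `λ = λ'`: `ν κ < ν κ'`, `κ < κ'`, ord_key; pair_lt. (4) both last: `h'.emb` reduces to the points `(κ,
n', ψ κ (g 0 x))`, `(κ', n', ψ κ' (g 0 y))`: different points; if `κ = κ'` same part of `a n'`, `TW = T`, as in (3);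
if `κ ≠ κ'` the ranks are compared by `κ`: ord_key, pair_lt. Self values `TW (f x) (f x) = T x x`: `TW = T` on equal
points; PE of the maps, `h.self`, `h'.self`. In (4) nearness of `ψ κ (g 0 x)` is with respect to `cn a C n` too, so
pair_lt applies to the points `(κ, n', ψ κ (g 0 x))`. (About 220 lines.)
-/

namespace Pool.Agent.Lib.MP_4fb322_lc_h96

open Set Filter Pool.Agent.Lib.MP_4fb322_lc_h7

variable {Θ V : Type} [Nonempty Θ]

theorem move [Finite Θ] {op : Θ → Θ} {T : V → V → Θ} {a : ℕ → Finset V} {u : Ultrafilter (V → V)}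
    {pt : ℕ → V → ℕ} {π : ℕ → V → V} {C : ℕ → V → Set V} {ρ : ℕ → V → Ultrafilter V} (D : Dat op T a u pt π C ρ) (H : Half1 op T a u pt π C ρ) {α : Type}
    {col : ℕ → ℕ → α} {Ty : Set ℕ} {L : ℕ} {G : Set ℕ} {Al : ℕ → Set α} {loc e : ℕ → ℕ → ℕ}
    (hd : Dec (prt a pt) col Ty L G Al loc e)
    {S : Set ℕ} {Ω : Set ℕ} (hΩT : Ω ⊆ Ty) {r : ℕ → ℕ} {n n' m₀ m : ℕ} {ν : ℕ → ℕ} {J Q J' Q' : ℕ → ℕ → ℕ}
    {g g' : ℕ → V → V} (hSL : ∀ t ∈ S, t < L ∧ t ∉ G) (hr : ∀ l < L, l ∉ G → r l < L ∧ (r l ∈ G ∨ r l ∈ S))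
    (h : CE op T a pt ρ loc (cn a C n) n 1 Set.univ {p | p.1 ∈ Ω ∧ p.1 < m₀ ∧ p.2 < L} J Q g)
    (hcomp : ∀ i ∈ prt a pt n, ∀ i' ∈ Cmp T u a pt C n i, loc (J 0 i') (Q 0 i') = loc (J 0 i) (Q 0 i))
    (hν : StrictMono ν) (hνT : ∀ κ, ν κ ∈ Ty ∧ m₀ ≤ ν κ)
    (hgap : ∀ j ∈ Ω, j < m₀ → ∀ l < L, l ∉ G → r l ∈ G →
      ∃ k ∈ prt a pt (ν (j * L + l)), loc (ν (j * L + l)) k = r l ∧
        Fit T a pt ρ (cn a C n) j (e j l) (ν (j * L + l)) k)
    (hn' : n' ∈ Ty) (hlast : ∀ j ∈ Ω, j < m₀ → ∀ l < L, l ∉ G → r l ∉ G →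
      Fit T a pt ρ (cn a C n) j (e j l) n' (e n' (r l)))
    (h' : CE op T a pt ρ loc (cn a C n) n' ((m₀ + 1) * L) {i | ∃ t ∈ S, i ∈ Cmp T u a pt C n' (e n' t)}
      {p | p.1 = m ∧ p.2 ∈ S} J' Q' g')
    (hm : ν ((m₀ + 1) * L) < m) :
    ∃ f : V → Pt V, PE T (TW op T pt ρ) (a n : Set V) f ∧
      ∀ x ∈ a n, f x ∈ NA u a pt loc {p | (p.1 ∈ Ty ∧ p.1 < m ∧ p.2 < L ∧ p.2 ∈ G) ∨ (p.1 = m ∧ p.2 ∈ S)} := by
  classical
  have hgap' : ∀ j l, ∃ (k : ℕ) (φ : V → V), j ∈ Ω → j < m₀ → l < L → l ∉ G → r l ∈ G →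
      k ∈ prt a pt (ν (j * L + l)) ∧ loc (ν (j * L + l)) k = r l ∧
      PE T T (part a pt j (e j l)) φ ∧ ∀ x ∈ part a pt j (e j l),
        φ x ∈ part a pt (ν (j * L + l)) k ∧
        ∀ B ∈ cn a C n, (B ∈ ρ (ν (j * L + l)) (φ x) ↔ B ∈ ρ j x) := by
    intro j l
    by_cases hc : j ∈ Ω ∧ j < m₀ ∧ l < L ∧ l ∉ G ∧ r l ∈ G
    · obtain ⟨k, hk, hk2, φ, hφ, hφ2⟩ := hgap j hc.1 hc.2.1 l hc.2.2.1 hc.2.2.2.1 hc.2.2.2.2
      exact ⟨k, φ, fun _ _ _ _ _ => ⟨hk, hk2, hφ, hφ2⟩⟩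
    · exact ⟨0, fun x => x, fun h1 h2 h3 h4 h5 => absurd ⟨h1, h2, h3, h4, h5⟩ hc⟩
  choose kf φ hφ using hgap'
  have hlast' : ∀ j l, ∃ ψ : V → V, j ∈ Ω → j < m₀ → l < L → l ∉ G → r l ∉ G →
      PE T T (part a pt j (e j l)) ψ ∧ ∀ x ∈ part a pt j (e j l),
        ψ x ∈ part a pt n' (e n' (r l)) ∧ ∀ B ∈ cn a C n, (B ∈ ρ n' (ψ x) ↔ B ∈ ρ j x) := by
    intro j l
    by_cases hc : j ∈ Ω ∧ j < m₀ ∧ l < L ∧ l ∉ G ∧ r l ∉ G
    · obtain ⟨ψ, hψ, hψ2⟩ := hlast j hc.1 hc.2.1 l hc.2.2.1 hc.2.2.2.1 hc.2.2.2.2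
      exact ⟨ψ, fun _ _ _ _ _ => ⟨hψ, hψ2⟩⟩
    · exact ⟨fun x => x, fun h1 h2 h3 h4 h5 => absurd ⟨h1, h2, h3, h4, h5⟩ hc⟩
  choose ψ hψ using hlast'
  obtain ⟨jx, hjx⟩ : ∃ jx : V → ℕ, ∀ x, jx x = J 0 (pt n x) := ⟨_, fun _ => rfl⟩
  obtain ⟨qx, hqx⟩ : ∃ qx : V → ℕ, ∀ x, qx x = Q 0 (pt n x) := ⟨_, fun _ => rfl⟩
  obtain ⟨lx, hlx⟩ : ∃ lx : V → ℕ, ∀ x, lx x = loc (jx x) (qx x) := ⟨_, fun _ => rfl⟩
  obtain ⟨kx, hkx⟩ : ∃ kx : V → ℕ, ∀ x, kx x = jx x * L + lx x := ⟨_, fun _ => rfl⟩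
  obtain ⟨ix, hix⟩ : ∃ ix : V → ℕ, ∀ x, ix x = e n' (r (lx x)) := ⟨_, fun _ => rfl⟩
  -- basic facts
  have hprt : ∀ x ∈ a n, pt n x ≠ 0 → pt n x ∈ prt a pt n := fun x hx h0 =>
    mem_prt.2 ⟨h0, x, hx, rfl⟩
  have hb1 : ∀ x ∈ a n, pt n x ≠ 0 → jx x ∈ Ω ∧ jx x < m₀ ∧ lx x < L ∧
      qx x ∈ prt a pt (jx x) := by
    intro x hx h0
    have h1 := h.mem 0 Nat.zero_lt_one _ (hprt x hx h0) (Set.mem_univ _)
    rw [← hjx, ← hqx, ← hlx] at h1
    exact ⟨h1.1.1, h1.1.2.1, h1.1.2.2, h1.2⟩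
  have hb2 : ∀ x ∈ a n, pt n x ≠ 0 → g 0 x ∈ part a pt (jx x) (qx x) ∧
      ∀ B ∈ cn a C n, (B ∈ ρ (jx x) (g 0 x) ↔ B ∈ ρ n x) := by
    intro x hx h0
    have h1 := h.gm 0 Nat.zero_lt_one x hx h0 (Set.mem_univ _)
    rw [← hjx, ← hqx] at h1
    exact h1
  have hb3 : ∀ x ∈ a n, pt n x ≠ 0 → lx x ∉ G → qx x = e (jx x) (lx x) := by
    intro x hx h0 hG
    obtain ⟨h1, h2, h3, h4⟩ := hb1 x hx h0
    exact (hd.sing (jx x) (hΩT h1) (lx x) h3 hG).2.2 _ h4 (hlx x).symm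
  have hemb : ∀ x ∈ a n, ∀ y ∈ a n, pt n x ≠ 0 → pt n y ≠ 0 → x ≠ y →
      (lx x, jx x, g 0 x) ≠ (lx y, jx y, g 0 y) ∧
      TW op T pt ρ (Sum.inr (lx x, jx x, g 0 x)) (Sum.inr (lx y, jx y, g 0 y)) = T x y := by
    intro x hx y hy hx0 hy0 hxy
    have h1 := h.emb 0 Nat.zero_lt_one 0 Nat.zero_lt_one x hx y hy hx0 hy0 (Set.mem_univ _)
      (Set.mem_univ _) (fun hh => hxy (congrArg Prod.snd hh))
    rw [← hjx, ← hqx, ← hlx, ← hjx, ← hqx, ← hlx] at h1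
    obtain ⟨h2, h3⟩ := h1
    exact ⟨h2, h3.trans (src_same D H hx hy hx0 hy0)⟩
  have hself : ∀ x ∈ a n, pt n x ≠ 0 → T (g 0 x) (g 0 x) = T x x := fun x hx h0 =>
    h.self 0 Nat.zero_lt_one x hx h0 (Set.mem_univ _)
  -- same source piece
  have hsame : ∀ x ∈ a n, ∀ y ∈ a n, pt n x ≠ 0 → pt n y ≠ 0 → x ≠ y → jx x = jx y →
      lx x = lx y → lx x ∉ G → g 0 x ≠ g 0 y ∧ T (g 0 x) (g 0 y) = T x y := by
    intro x hx y hy hx0 hy0 hxy hj hl hG
    obtain ⟨h1, h2⟩ := hemb x hx y hy hx0 hy0 hxy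
    have hq : qx x = qx y := by
      rw [hb3 x hx hx0 hG, hb3 y hy hy0 (by rw [← hl]; exact hG), hj, hl]
    have hr1 : rk pt (lx x, jx x, g 0 x) = rk pt (lx y, jx y, g 0 y) := by
      simp only [rk]
      rw [(hb2 x hx hx0).1.2, (hb2 y hy hy0).1.2, hj, hl, hq]
    have h3 : TW op T pt ρ (Sum.inr (lx x, jx x, g 0 x)) (Sum.inr (lx y, jx y, g 0 y)) =
        T (g 0 x) (g 0 y) := if_pos hr1
    refine ⟨fun hg => h1 (by rw [hj, hl, hg]), ?_⟩
    rw [← h3, h2]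
  -- order of the parts
  have hL0 : ∀ x ∈ a n, pt n x ≠ 0 → 0 < L := fun x hx h0 =>
    lt_of_le_of_lt (Nat.zero_le _) (hb1 x hx h0).2.2.1
  have hklt : ∀ x ∈ a n, pt n x ≠ 0 → kx x < (m₀ + 1) * L := by
    intro x hx h0
    obtain ⟨h1, h2, h3, h4⟩ := hb1 x hx h0
    rw [hkx]
    calc jx x * L + lx x < jx x * L + L := by omega
      _ = (jx x + 1) * L := by ring
      _ ≤ (m₀ + 1) * L := Nat.mul_le_mul_right _ (by omega)
  have hkinj : ∀ x ∈ a n, ∀ y ∈ a n, pt n x ≠ 0 → pt n y ≠ 0 → kx x = kx y →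
      jx x = jx y ∧ lx x = lx y := by
    intro x hx y hy hx0 hy0 hk
    obtain ⟨-, -, h3, -⟩ := hb1 x hx hx0
    obtain ⟨-, -, h3', -⟩ := hb1 y hy hy0
    rw [hkx, hkx] at hk
    have e1 : jx x = (jx x * L + lx x) / L := by
      rw [Nat.mul_comm, Nat.mul_add_div (by omega), Nat.div_eq_of_lt h3, Nat.add_zero]
    have e2 : jx y = (jx y * L + lx y) / L := by
      rw [Nat.mul_comm, Nat.mul_add_div (by omega), Nat.div_eq_of_lt h3', Nat.add_zero]
    have e3 : jx x = jx y := by rw [e1, e2, hk]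
    refine ⟨e3, ?_⟩
    rw [e3] at hk
    omega
  have hordl : ∀ x ∈ a n, ∀ y ∈ a n, pt n x ≠ 0 → pt n y ≠ 0 → lx x ≠ lx y →
      pt n x < pt n y ∨ (pt n y < pt n x ∧ Com T u a pt C n (pt n y) (pt n x)) := by
    intro x hx y hy hx0 hy0 hl
    refine ord_loc (op := op) (π := π) (ρ := ρ) hcomp (hprt x hx hx0) (hprt y hy hy0) ?_
    rw [hlx, hlx, hjx, hjx, hqx, hqx] at hl
    exact hl
  have hordk : ∀ x ∈ a n, ∀ y ∈ a n, pt n x ≠ 0 → pt n y ≠ 0 → kx x < kx y →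
      pt n x < pt n y ∨ (pt n y < pt n x ∧ Com T u a pt C n (pt n y) (pt n x)) := by
    intro x hx y hy hx0 hy0 hk
    refine ord_key D H h subset_rfl hcomp L (hprt x hx hx0) (hprt y hy hy0) ?_ ?_
    · intro hh
      have : kx x = kx y := by
        rw [hkx, hkx, hlx, hlx, hjx, hjx, hqx, hqx, hh]
      omega
    · rw [hkx, hkx, hlx, hlx, hjx, hjx, hqx, hqx] at hk
      exact hk
  -- the new points
  obtain ⟨Z, hZ⟩ : ∃ Z : V → ℕ × ℕ × V, ∀ x, Z x = if lx x ∈ G then (lx x, jx x, g 0 x) else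
      if r (lx x) ∈ G then (r (lx x), ν (kx x), φ (jx x) (lx x) (g 0 x)) else
      (loc (J' (kx x) (ix x)) (Q' (kx x) (ix x)), J' (kx x) (ix x),
        g' (kx x) (ψ (jx x) (lx x) (g 0 x))) := ⟨_, fun _ => rfl⟩
  have hZ1 : ∀ x, lx x ∈ G → Z x = (lx x, jx x, g 0 x) := fun x hG => by
    rw [hZ, if_pos hG]
  have hZ2 : ∀ x, lx x ∉ G → r (lx x) ∈ G → Z x = (r (lx x), ν (kx x),
      φ (jx x) (lx x) (g 0 x)) := fun x hG hG2 => by rw [hZ, if_neg hG, if_pos hG2]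
  have hZ3 : ∀ x, lx x ∉ G → r (lx x) ∉ G → Z x = (loc (J' (kx x) (ix x)) (Q' (kx x) (ix x)),
      J' (kx x) (ix x), g' (kx x) (ψ (jx x) (lx x) (g 0 x))) := fun x hG hG2 => by
    rw [hZ, if_neg hG, if_neg hG2]
  -- kind 2
  have hk2 : ∀ x ∈ a n, pt n x ≠ 0 → lx x ∉ G → r (lx x) ∈ G →
      kf (jx x) (lx x) ∈ prt a pt (ν (kx x)) ∧ loc (ν (kx x)) (kf (jx x) (lx x)) = r (lx x) ∧
      φ (jx x) (lx x) (g 0 x) ∈ part a pt (ν (kx x)) (kf (jx x) (lx x)) ∧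
      ∀ B ∈ cn a C n, (B ∈ ρ (ν (kx x)) (φ (jx x) (lx x) (g 0 x)) ↔ B ∈ ρ n x) := by
    intro x hx h0 hG hG2
    obtain ⟨h1, h2, h3, h4⟩ := hb1 x hx h0
    obtain ⟨c1, c2, c3, c4⟩ := hφ (jx x) (lx x) h1 h2 h3 hG hG2
    rw [← hkx] at c1 c2 c4
    obtain ⟨b1, b2⟩ := hb2 x hx h0
    rw [hb3 x hx h0 hG] at b1
    obtain ⟨d1, d2⟩ := c4 _ b1
    exact ⟨c1, c2, d1, fun B hB => (d2 B hB).trans (b2 B hB)⟩
  -- kind 3
  have hk3 : ∀ x ∈ a n, pt n x ≠ 0 → lx x ∉ G → r (lx x) ∉ G →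
      ix x ∈ prt a pt n' ∧ (∃ t ∈ S, ix x ∈ Cmp T u a pt C n' (e n' t)) ∧
      ψ (jx x) (lx x) (g 0 x) ∈ part a pt n' (ix x) ∧
      (∀ B ∈ cn a C n, (B ∈ ρ n' (ψ (jx x) (lx x) (g 0 x)) ↔ B ∈ ρ n x)) ∧
      J' (kx x) (ix x) = m ∧ loc (J' (kx x) (ix x)) (Q' (kx x) (ix x)) ∈ S ∧
      Q' (kx x) (ix x) ∈ prt a pt (J' (kx x) (ix x)) ∧
      g' (kx x) (ψ (jx x) (lx x) (g 0 x)) ∈ part a pt (J' (kx x) (ix x)) (Q' (kx x) (ix x)) ∧
      ∀ B ∈ cn a C n, (B ∈ ρ (J' (kx x) (ix x)) (g' (kx x) (ψ (jx x) (lx x) (g 0 x))) ↔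
        B ∈ ρ n x) := by
    intro x hx h0 hG hG2
    obtain ⟨h1, h2, h3, h4⟩ := hb1 x hx h0
    obtain ⟨c3, c4⟩ := hψ (jx x) (lx x) h1 h2 h3 hG hG2
    obtain ⟨b1, b2⟩ := hb2 x hx h0
    rw [hb3 x hx h0 hG] at b1
    obtain ⟨d1, d2⟩ := c4 _ b1
    rw [← hix] at d1
    have hrS : r (lx x) ∈ S := (hr _ h3 hG).2.resolve_left hG2
    have hi1 : ix x ∈ prt a pt n' := by
      rw [hix]
      exact (hd.sing n' hn' _ (hSL _ hrS).1 (hSL _ hrS).2).1
    have hiK : ix x ∈ {i | ∃ t ∈ S, i ∈ Cmp T u a pt C n' (e n' t)} :=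
      ⟨r (lx x), hrS, by rw [hix]; exact Relation.ReflTransGen.refl⟩
    have hmem := h'.mem (kx x) (hklt x hx h0) (ix x) hi1 hiK
    have hy0 : pt n' (ψ (jx x) (lx x) (g 0 x)) ≠ 0 := by
      rw [d1.2]
      exact (mem_prt.1 hi1).1
    have hgm := h'.gm (kx x) (hklt x hx h0) (ψ (jx x) (lx x) (g 0 x)) d1.1 hy0
      (by rw [d1.2]; exact hiK)
    rw [d1.2] at hgm
    exact ⟨hi1, hiK, d1, fun B hB => (d2 B hB).trans (b2 B hB), hmem.1.1, hmem.1.2, hmem.2,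
      hgm.1, fun B hB => ((hgm.2 B hB).trans (d2 B hB)).trans (b2 B hB)⟩
  -- validity and nearness of the new points
  have hval : ∀ x ∈ a n, pt n x ≠ 0 → ((Z x).2.2 ∈ a (Z x).2.1 ∧ pt (Z x).2.1 (Z x).2.2 ≠ 0) ∧
      ∀ B ∈ cn a C n, (B ∈ ρ (Z x).2.1 (Z x).2.2 ↔ B ∈ ρ n x) := by
    intro x hx h0
    by_cases hG : lx x ∈ G
    · rw [hZ1 x hG]
      obtain ⟨b1, b2⟩ := hb2 x hx h0
      refine ⟨⟨b1.1, ?_⟩, b2⟩
      change pt (jx x) (g 0 x) ≠ 0
      rw [b1.2]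
      exact (mem_prt.1 (hb1 x hx h0).2.2.2).1
    · by_cases hG2 : r (lx x) ∈ G
      · rw [hZ2 x hG hG2]
        obtain ⟨c1, c2, c3, c4⟩ := hk2 x hx h0 hG hG2
        refine ⟨⟨c3.1, ?_⟩, c4⟩
        change pt (ν (kx x)) (φ (jx x) (lx x) (g 0 x)) ≠ 0
        rw [c3.2]
        exact (mem_prt.1 c1).1
      · rw [hZ3 x hG hG2]
        obtain ⟨c1, c2, c3, c4, c5, c6, c7, c8, c9⟩ := hk3 x hx h0 hG hG2
        refine ⟨⟨c8.1, ?_⟩, c9⟩
        change pt (J' (kx x) (ix x)) (g' (kx x) (ψ (jx x) (lx x) (g 0 x))) ≠ 0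
        rw [c8.2]
        exact (mem_prt.1 c7).1
  -- comparison of two new points by rank
  have hcmp : ∀ x ∈ a n, ∀ y ∈ a n, pt n x ≠ 0 → pt n y ≠ 0 →
      (rk pt (Z x) < rk pt (Z y) → pt n x < pt n y ∨
        (pt n y < pt n x ∧ Com T u a pt C n (pt n y) (pt n x))) →
      rk pt (Z x) < rk pt (Z y) → (Z x ≠ Z y ∧
        TW op T pt ρ (Sum.inr (Z x)) (Sum.inr (Z y)) = T x y) ∧
        TW op T pt ρ (Sum.inr (Z y)) (Sum.inr (Z x)) = T y x := by
    intro x hx y hy hx0 hy0 hord hlt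
    obtain ⟨v1, v2⟩ := hval x hx hx0
    obtain ⟨w1, w2⟩ := hval y hy hy0
    obtain ⟨p1, p2, p3⟩ := pair_lt D H hx hy hx0 hy0 (hord hlt) v1 w1 v2 w2 hlt
    exact ⟨⟨p1, p2⟩, p3⟩
  have hcmp2 : ∀ x ∈ a n, ∀ y ∈ a n, pt n x ≠ 0 → pt n y ≠ 0 →
      (rk pt (Z x) < rk pt (Z y) → pt n x < pt n y ∨
        (pt n y < pt n x ∧ Com T u a pt C n (pt n y) (pt n x))) →
      (rk pt (Z y) < rk pt (Z x) → pt n y < pt n x ∨
        (pt n x < pt n y ∧ Com T u a pt C n (pt n x) (pt n y))) →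
      rk pt (Z x) ≠ rk pt (Z y) → Z x ≠ Z y ∧
        TW op T pt ρ (Sum.inr (Z x)) (Sum.inr (Z y)) = T x y := by
    intro x hx y hy hx0 hy0 h1 h2 hne
    rcases lt_or_gt_of_ne hne with hlt | hlt
    · exact (hcmp x hx y hy hx0 hy0 h1 hlt).1
    · obtain ⟨p1, p2⟩ := hcmp y hy x hx hy0 hx0 h2 hlt
      exact ⟨fun hh => p1.1 hh.symm, p2⟩
  have hrkidx : ∀ z z' : ℕ × ℕ × V, z.2.1 ≠ z'.2.1 → rk pt z ≠ rk pt z' := by
    intro z z' hne hh
    apply hne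
    have h1 : ofLex (rk pt z) = ofLex (rk pt z') := by rw [hh]
    have h2 := congrArg Prod.snd h1
    have h3 := congrArg (fun w => (ofLex w).1) h2
    exact h3
  have hm0 : m₀ < m := lt_of_le_of_lt (hνT _).2 hm
  have hνlt : ∀ x ∈ a n, pt n x ≠ 0 → ν (kx x) < m := fun x hx h0 =>
    (hν (hklt x hx h0)).trans hm
  have hdiff : ∀ x ∈ a n, ∀ y ∈ a n, pt n x ≠ 0 → pt n y ≠ 0 → lx x ≠ lx y →
      (Z x).2.1 ≠ (Z y).2.1 → Z x ≠ Z y ∧
        TW op T pt ρ (Sum.inr (Z x)) (Sum.inr (Z y)) = T x y := by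
    intro x hx y hy hx0 hy0 hl hidx
    exact hcmp2 x hx y hy hx0 hy0 (fun _ => hordl x hx y hy hx0 hy0 hl)
      (fun _ => hordl y hy x hx hy0 hx0 (fun hh => hl hh.symm)) (hrkidx _ _ hidx)
  -- pairs
  have hpair : ∀ x ∈ a n, ∀ y ∈ a n, pt n x ≠ 0 → pt n y ≠ 0 → x ≠ y → Z x ≠ Z y ∧
      TW op T pt ρ (Sum.inr (Z x)) (Sum.inr (Z y)) = T x y := by
    intro x hx y hy hx0 hy0 hxy
    obtain ⟨x1, x2, x3, x4⟩ := hb1 x hx hx0
    obtain ⟨y1, y2, y3, y4⟩ := hb1 y hy hy0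
    by_cases hGx : lx x ∈ G
    · by_cases hGy : lx y ∈ G
      · rw [hZ1 x hGx, hZ1 y hGy]
        exact hemb x hx y hy hx0 hy0 hxy
      · have hl : lx x ≠ lx y := fun hh => hGy (hh ▸ hGx)
        refine hdiff x hx y hy hx0 hy0 hl ?_
        by_cases hG2 : r (lx y) ∈ G
        · rw [hZ1 x hGx, hZ2 y hGy hG2]
          change jx x ≠ ν (kx y)
          have := (hνT (kx y)).2
          omega
        · rw [hZ1 x hGx, hZ3 y hGy hG2]
          change jx x ≠ J' (kx y) (ix y)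
          rw [(hk3 y hy hy0 hGy hG2).2.2.2.2.1]
          omega
    · by_cases hGy : lx y ∈ G
      · have hl : lx x ≠ lx y := fun hh => hGx (hh ▸ hGy)
        refine hdiff x hx y hy hx0 hy0 hl ?_
        by_cases hG2 : r (lx x) ∈ G
        · rw [hZ1 y hGy, hZ2 x hGx hG2]
          change ν (kx x) ≠ jx y
          have := (hνT (kx x)).2
          omega
        · rw [hZ1 y hGy, hZ3 x hGx hG2]
          change J' (kx x) (ix x) ≠ jx y
          rw [(hk3 x hx hx0 hGx hG2).2.2.2.2.1]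
          omega
      · by_cases hG2x : r (lx x) ∈ G
        · by_cases hG2y : r (lx y) ∈ G
          · -- both of kind 2
            obtain ⟨c1, c2, c3, c4⟩ := hk2 x hx hx0 hGx hG2x
            obtain ⟨d1, d2, d3, d4⟩ := hk2 y hy hy0 hGy hG2y
            by_cases hk : kx x = kx y
            · obtain ⟨hj, hl⟩ := hkinj x hx y hy hx0 hy0 hk
              obtain ⟨s1, s2⟩ := hsame x hx y hy hx0 hy0 hxy hj hl hGx
              obtain ⟨-, -, f3, -⟩ := hφ (jx x) (lx x) x1 x2 x3 hGx hG2x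
              have gx := (hb2 x hx hx0).1
              rw [hb3 x hx hx0 hGx] at gx
              have gy := (hb2 y hy hy0).1
              rw [hb3 y hy hy0 hGy, ← hj, ← hl] at gy
              rw [hZ2 x hGx hG2x, hZ2 y hGy hG2y]
              have hrr : rk pt (r (lx x), ν (kx x), φ (jx x) (lx x) (g 0 x)) =
                  rk pt (r (lx y), ν (kx y), φ (jx y) (lx y) (g 0 y)) := by
                simp only [rk]
                rw [c3.2, d3.2, hk, hj, hl]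
              refine ⟨fun hh => s1 (f3.1 gx gy ?_), ?_⟩
              · have := congrArg (fun w : ℕ × ℕ × V => w.2.2) hh
                simp only at this
                rw [this, hj, hl]
              · refine Eq.trans (if_pos hrr) ?_
                change T (φ (jx x) (lx x) (g 0 x)) (φ (jx y) (lx y) (g 0 y)) = T x y
                rw [← hj, ← hl, f3.2 _ gx _ gy, s2]
            · have hidx : (Z x).2.1 ≠ (Z y).2.1 := by
                rw [hZ2 x hGx hG2x, hZ2 y hGy hG2y]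
                exact fun hh => hk (hν.injective hh)
              have hkey : ∀ x ∈ a n, ∀ y ∈ a n, pt n x ≠ 0 → pt n y ≠ 0 → lx x ∉ G → lx y ∉ G →
                  r (lx x) ∈ G → r (lx y) ∈ G → kx x ≠ kx y → rk pt (Z x) < rk pt (Z y) →
                  pt n x < pt n y ∨ (pt n y < pt n x ∧ Com T u a pt C n (pt n y) (pt n x)) := by
                intro x hx y hy hx0 hy0 g1 g2 g3 g4 hk hlt
                by_cases hl : lx x = lx y
                · rw [hZ2 x g1 g3, hZ2 y g2 g4, rk, rk, Prod.Lex.toLex_lt_toLex] at hlt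
                  rcases hlt with hlt | ⟨-, hlt⟩
                  · simp only [hl, lt_irrefl] at hlt
                  · rw [Prod.Lex.toLex_lt_toLex] at hlt
                    rcases hlt with hlt | ⟨hlt, -⟩
                    · exact hordk x hx y hy hx0 hy0 (hν.lt_iff_lt.1 hlt)
                    · exact absurd (hν.injective hlt) hk
                · exact hordl x hx y hy hx0 hy0 hl
              exact hcmp2 x hx y hy hx0 hy0 (hkey x hx y hy hx0 hy0 hGx hGy hG2x hG2y hk)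
                (hkey y hy x hx hy0 hx0 hGy hGx hG2y hG2x (fun hh => hk hh.symm))
                (hrkidx _ _ hidx)
          · have hl : lx x ≠ lx y := fun hh => hG2y (hh ▸ hG2x)
            refine hdiff x hx y hy hx0 hy0 hl ?_
            rw [hZ2 x hGx hG2x, hZ3 y hGy hG2y]
            change ν (kx x) ≠ J' (kx y) (ix y)
            rw [(hk3 y hy hy0 hGy hG2y).2.2.2.2.1]
            exact ne_of_lt (hνlt x hx hx0)
        · by_cases hG2y : r (lx y) ∈ G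
          · have hl : lx x ≠ lx y := fun hh => hG2x (hh ▸ hG2y)
            refine hdiff x hx y hy hx0 hy0 hl ?_
            rw [hZ3 x hGx hG2x, hZ2 y hGy hG2y]
            change J' (kx x) (ix x) ≠ ν (kx y)
            rw [(hk3 x hx hx0 hGx hG2x).2.2.2.2.1]
            exact (ne_of_lt (hνlt y hy hy0)).symm
          · -- both of kind 3
            obtain ⟨c1, c2, c3, c4, c5, c6, c7, c8, c9⟩ := hk3 x hx hx0 hGx hG2x
            obtain ⟨d1, d2, d3, d4, d5, d6, d7, d8, d9⟩ := hk3 y hy hy0 hGy hG2y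
            have yx0 : pt n' (ψ (jx x) (lx x) (g 0 x)) ≠ 0 := by
              rw [c3.2]
              exact (mem_prt.1 c1).1
            have yy0 : pt n' (ψ (jx y) (lx y) (g 0 y)) ≠ 0 := by
              rw [d3.2]
              exact (mem_prt.1 d1).1
            have gx := (hb2 x hx hx0).1
            rw [hb3 x hx hx0 hGx] at gx
            obtain ⟨f3, -⟩ := hψ (jx x) (lx x) x1 x2 x3 hGx hG2x
            -- the pair in the source of the last embedding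
            have hsrc : (kx x, ψ (jx x) (lx x) (g 0 x)) ≠ (kx y, ψ (jx y) (lx y) (g 0 y)) ∧
                TW op T pt ρ (Sum.inr (kx x, n', ψ (jx x) (lx x) (g 0 x)))
                  (Sum.inr (kx y, n', ψ (jx y) (lx y) (g 0 y))) = T x y := by
              by_cases hk : kx x = kx y
              · obtain ⟨hj, hl⟩ := hkinj x hx y hy hx0 hy0 hk
                obtain ⟨s1, s2⟩ := hsame x hx y hy hx0 hy0 hxy hj hl hGx
                have gy := (hb2 y hy hy0).1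
                rw [hb3 y hy hy0 hGy, ← hj, ← hl] at gy
                have hiy : ix y = ix x := by rw [hix, hix, hl]
                refine ⟨fun hh => s1 (f3.1 gx gy ?_), ?_⟩
                · have := congrArg Prod.snd hh
                  simp only at this
                  rw [this, hj, hl]
                · have hrr : rk pt (kx x, n', ψ (jx x) (lx x) (g 0 x)) =
                      rk pt (kx y, n', ψ (jx y) (lx y) (g 0 y)) := by
                    simp only [rk]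
                    rw [c3.2, d3.2, hk, hiy]
                  refine Eq.trans (if_pos hrr) ?_
                  change T (ψ (jx x) (lx x) (g 0 x)) (ψ (jx y) (lx y) (g 0 y)) = T x y
                  rw [← hj, ← hl, f3.2 _ gx _ gy, s2]
              · refine ⟨fun hh => hk (congrArg Prod.fst hh), ?_⟩
                rcases lt_or_gt_of_ne hk with hlt | hlt
                · have hrr : rk pt (kx x, n', ψ (jx x) (lx x) (g 0 x)) <
                      rk pt (kx y, n', ψ (jx y) (lx y) (g 0 y)) := by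
                    unfold rk
                    rw [Prod.Lex.toLex_lt_toLex]
                    exact Or.inl hlt
                  exact (pair_lt D H hx hy hx0 hy0 (hordk x hx y hy hx0 hy0 hlt)
                    (z := (kx x, n', ψ (jx x) (lx x) (g 0 x)))
                    (z' := (kx y, n', ψ (jx y) (lx y) (g 0 y))) ⟨c3.1, yx0⟩ ⟨d3.1, yy0⟩ c4 d4
                    hrr).2.1
                · have hrr : rk pt (kx y, n', ψ (jx y) (lx y) (g 0 y)) <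
                      rk pt (kx x, n', ψ (jx x) (lx x) (g 0 x)) := by
                    unfold rk
                    rw [Prod.Lex.toLex_lt_toLex]
                    exact Or.inl hlt
                  exact (pair_lt D H hy hx hy0 hx0 (hordk y hy x hx hy0 hx0 hlt)
                    (z := (kx y, n', ψ (jx y) (lx y) (g 0 y)))
                    (z' := (kx x, n', ψ (jx x) (lx x) (g 0 x))) ⟨d3.1, yy0⟩ ⟨c3.1, yx0⟩ d4 c4
                    hrr).2.2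
            have he := h'.emb (kx x) (hklt x hx hx0) (kx y) (hklt y hy hy0)
              (ψ (jx x) (lx x) (g 0 x)) c3.1 (ψ (jx y) (lx y) (g 0 y)) d3.1 yx0 yy0
              (by rw [c3.2]; exact c2) (by rw [d3.2]; exact d2) hsrc.1
            rw [c3.2, d3.2] at he
            rw [hZ3 x hGx hG2x, hZ3 y hGy hG2y]
            exact ⟨he.1, he.2.trans hsrc.2⟩
  have hselfZ : ∀ x ∈ a n, pt n x ≠ 0 → T (Z x).2.2 (Z x).2.2 = T x x := by
    intro x hx h0
    obtain ⟨x1, x2, x3, x4⟩ := hb1 x hx h0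
    by_cases hG : lx x ∈ G
    · rw [hZ1 x hG]
      exact hself x hx h0
    · have gx := (hb2 x hx h0).1
      rw [hb3 x hx h0 hG] at gx
      by_cases hG2 : r (lx x) ∈ G
      · rw [hZ2 x hG hG2]
        obtain ⟨-, -, f3, -⟩ := hφ (jx x) (lx x) x1 x2 x3 hG hG2
        change T (φ (jx x) (lx x) (g 0 x)) (φ (jx x) (lx x) (g 0 x)) = T x x
        rw [f3.2 _ gx _ gx, hself x hx h0]
      · rw [hZ3 x hG hG2]
        obtain ⟨f3, -⟩ := hψ (jx x) (lx x) x1 x2 x3 hG hG2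
        obtain ⟨c1, c2, c3, -⟩ := hk3 x hx h0 hG hG2
        have y0 : pt n' (ψ (jx x) (lx x) (g 0 x)) ≠ 0 := by
          rw [c3.2]
          exact (mem_prt.1 c1).1
        change T (g' (kx x) (ψ (jx x) (lx x) (g 0 x))) (g' (kx x) (ψ (jx x) (lx x) (g 0 x))) =
          T x x
        rw [h'.self (kx x) (hklt x hx h0) _ c3.1 y0 (by rw [c3.2]; exact c2),
          f3.2 _ gx _ gx, hself x hx h0]
  refine ⟨fun x => if pt n x = 0 then Sum.inl (π n x) else Sum.inr (Z x), ?_, ?_⟩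
  · refine glue_pins D H _ (fun x _ h0 => by simp only [if_pos h0]) (fun x hx h0 => ?_)
      (fun x hx h0 => ?_) (fun x hx y hy hx0 hy0 hxy => ?_)
    · obtain ⟨v1, v2⟩ := hval x hx h0
      exact ⟨Z x, by simp only [if_neg h0], v1.1, v1.2, v2⟩
    · simp only [if_neg h0]
      exact Eq.trans (if_pos rfl) (hselfZ x hx h0)
    · simp only [if_neg hx0, if_neg hy0]
      obtain ⟨p1, p2⟩ := hpair x hx y hy hx0 hy0 hxy
      exact ⟨fun hh => p1 (Sum.inr.inj hh), p2⟩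
  · intro x hx
    by_cases h0 : pt n x = 0
    · simp only [if_pos h0]
      exact Or.inl ⟨_, (D.mrob n).rob.pin x hx h0, rfl⟩
    · simp only [if_neg h0]
      obtain ⟨x1, x2, x3, x4⟩ := hb1 x hx h0
      obtain ⟨⟨v1, v2⟩, -⟩ := hval x hx h0
      refine Or.inr ⟨(Z x).2.1, (Z x).2.2, v1, v2, ?_, ?_⟩
      · by_cases hG : lx x ∈ G
        · refine Or.inl ?_
          rw [hZ1 x hG]
          change jx x ∈ Ty ∧ jx x < m ∧ loc (jx x) (pt (jx x) (g 0 x)) < L ∧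
            loc (jx x) (pt (jx x) (g 0 x)) ∈ G
          rw [(hb2 x hx h0).1.2, ← hlx]
          exact ⟨hΩT x1, by omega, x3, hG⟩
        · by_cases hG2 : r (lx x) ∈ G
          · refine Or.inl ?_
            rw [hZ2 x hG hG2]
            obtain ⟨c1, c2, c3, c4⟩ := hk2 x hx h0 hG hG2
            change ν (kx x) ∈ Ty ∧ ν (kx x) < m ∧
              loc (ν (kx x)) (pt (ν (kx x)) (φ (jx x) (lx x) (g 0 x))) < L ∧
              loc (ν (kx x)) (pt (ν (kx x)) (φ (jx x) (lx x) (g 0 x))) ∈ G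
            rw [c3.2, c2]
            exact ⟨(hνT _).1, hνlt x hx h0, (hr _ x3 hG).1, hG2⟩
          · refine Or.inr ?_
            rw [hZ3 x hG hG2]
            obtain ⟨c1, c2, c3, c4, c5, c6, c7, c8, c9⟩ := hk3 x hx h0 hG hG2
            change J' (kx x) (ix x) = m ∧ loc (J' (kx x) (ix x)) (pt (J' (kx x) (ix x))
              (g' (kx x) (ψ (jx x) (lx x) (g 0 x)))) ∈ S
            rw [c8.2]
            exact ⟨c5, c6⟩
      · have hfst : (Z x).1 = loc (Z x).2.1 (pt (Z x).2.1 (Z x).2.2) := by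
          by_cases hG : lx x ∈ G
          · rw [hZ1 x hG]
            change lx x = loc (jx x) (pt (jx x) (g 0 x))
            rw [(hb2 x hx h0).1.2, hlx]
          · by_cases hG2 : r (lx x) ∈ G
            · rw [hZ2 x hG hG2]
              obtain ⟨c1, c2, c3, c4⟩ := hk2 x hx h0 hG hG2
              change r (lx x) = loc (ν (kx x)) (pt (ν (kx x)) (φ (jx x) (lx x) (g 0 x)))
              rw [c3.2, c2]
            · rw [hZ3 x hG hG2]
              obtain ⟨c1, c2, c3, c4, c5, c6, c7, c8, c9⟩ := hk3 x hx h0 hG hG2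
              change loc (J' (kx x) (ix x)) (Q' (kx x) (ix x)) = loc (J' (kx x) (ix x))
                (pt (J' (kx x) (ix x)) (g' (kx x) (ψ (jx x) (lx x) (g 0 x))))
              rw [c8.2]
        rw [← hfst]

end Pool.Agent.Lib.MP_4fb322_lc_h96
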