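import Pool.Agent.Lib.MP_4fb322_lc_h96.Defs
import Pool.Agent.Lib.MP_4fb322_lc_h96.H07
import Pool.Agent.Lib.MP_4fb322_lc_h96.H08
import Pool.Agent.Lib.MP_4fb322_lc_h96.H16
import Pool.Agent.Lib.MP_4fb322_lc_h96.H19
import Pool.Agent.Lib.MP_4fb322_lc_h96.H21

set_option autoImplicit false

/-!
# Row H22

Fullness of the arrangements `A0 m`: single locations of the last word in `S`, gaps of all words. Choose the route `r
l` for `l < L`, `l ∉ G`: `r l < L`, Arr l (r l), `r l ∈ G ∨ r l ∈ S` (from `hS3`; `S ⊆ [0,L)` by `hS`; classical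
choice). `Ω` = the `j ∈ Ty` such that for all `l < L`, `l ∉ G`, all finite `𝒞`: for almost all `j'` there is `k ∈ prt
j'` with `loc j' k = r l`, Fit 𝒞 j (e j l) j' k (almost all `j` are in `Ω`: finite intersection over `l < L`).
`H.full_of`: let `n` be arbitrary (`∀ᶠ n` holds for all `n`), `𝒞 = cn a C n` (finite). `Cc` from sel (`c = 1`);
full_typ for `Ω`; ce_of_full gives some `m₀` with CEX; sel gives `J Q g` and hcomp. `fresh` with `X κ = {j' ∈ Ty |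
(for j = κ / L, l = κ % L: if j ∈ Ω, l ∉ G, then ∃ k ∈ prt j', loc j' k = r l ∧ Fit 𝒞 j (e j l) j' k)}` and `M₀ = m₀`
(`(j * L + l) / L = j`, `(j * L + l) % L = l` for `l < L`). Then choose `n'`: in `Ty`, good for the claim `hclaim`
with `c = (m₀ + 1) * L`, and for all `j ∈ Ω`, `j < m₀`, `l < L`, `l ∉ G`, `r l ∉ G`: there is `k ∈ prt n'` with `loc
n' k = r l` and Fit; `k = e n' (r l)` by `hd.sing` (finitely many conditions, each for almost all `n'`). Finally for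
almost all `m`: the CEX of `hclaim` for `𝒞` (finite) and `ν ((m₀+1)*L) < m`; `move`. (About 120 lines.)
-/

namespace Pool.Agent.Lib.MP_4fb322_lc_h96

open Set Filter Pool.Agent.Lib.MP_4fb322_lc_h7

variable {Θ V : Type} [Nonempty Θ]

theorem full_A0 [Finite Θ] {op : Θ → Θ} {T : V → V → Θ} {a : ℕ → Finset V} {u : Ultrafilter (V → V)}
    {pt : ℕ → V → ℕ} {π : ℕ → V → V} {C : ℕ → V → Set V} {ρ : ℕ → V → Ultrafilter V} (D : Dat op T a u pt π C ρ) (H : Half1 op T a u pt π C ρ) {α : Type}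
    {col : ℕ → ℕ → α} {Ty : Set ℕ} {L : ℕ} {G : Set ℕ} {Al : ℕ → Set α} {loc e : ℕ → ℕ → ℕ}
    (hd : Dec (prt a pt) col Ty L G Al loc e) {S : Set ℕ} (hS : ∀ t ∈ S, t < L ∧ t ∉ G)
    (hS3 : ∀ l < L, l ∉ G → (∃ l' < L, l' ∈ G ∧ Arr T a pt ρ loc e l l') ∨ ∃ t ∈ S, Arr T a pt ρ loc e l t)
    (hclaim : ∀ c : ℕ, ∀ᶠ n in (UF : Filter ℕ), ∀ 𝒞 : Set (Set V), 𝒞.Finite → ∀ᶠ m in (UF : Filter ℕ),
      CEX op T a pt ρ loc 𝒞 n c {i | ∃ t ∈ S, i ∈ Cmp T u a pt C n (e n t)} {p | p.1 = m ∧ p.2 ∈ S}) :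
    FullA op T u a pt ρ loc (fun m => {p | (p.1 ∈ Ty ∧ p.1 < m ∧ p.2 < L ∧ p.2 ∈ G) ∨ (p.1 = m ∧ p.2 ∈ S)}) := by
  have hrex : ∀ l, ∃ r, l < L → l ∉ G → (r < L ∧ (r ∈ G ∨ r ∈ S) ∧ Arr T a pt ρ loc e l r) := by
    intro l
    by_cases hl : l < L ∧ l ∉ G
    · rcases hS3 l hl.1 hl.2 with ⟨l', h1, h2, h3⟩ | ⟨t, h1, h2⟩
      · exact ⟨l', fun _ _ => ⟨h1, Or.inl h2, h3⟩⟩
      · exact ⟨t, fun _ _ => ⟨(hS t h1).1, Or.inr h1, h2⟩⟩
    · exact ⟨0, fun h1 h2 => absurd ⟨h1, h2⟩ hl⟩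
  choose r hr using hrex
  set Ω : Set ℕ := {j | j ∈ Ty ∧ ∀ l ∈ {l | l < L ∧ l ∉ G}, ∀ 𝒞 : Set (Set V), 𝒞.Finite →
    ∀ᶠ j' in (UF : Filter ℕ), ∃ k ∈ prt a pt j', loc j' k = r l ∧ Fit T a pt ρ 𝒞 j (e j l) j' k} with hΩdef
  have hΩT : Ω ⊆ Ty := fun j hj => hj.1
  have hLfin : ({l | l < L ∧ l ∉ G} : Set ℕ).Finite :=
    (Set.finite_lt_nat L).subset fun l hl => hl.1
  have hΩ : ∀ᶠ j in (UF : Filter ℕ), j ∈ Ω := by
    have h1 : ∀ᶠ j in (UF : Filter ℕ), ∀ l ∈ {l | l < L ∧ l ∉ G}, ∀ 𝒞 : Set (Set V), 𝒞.Finite →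
        ∀ᶠ j' in (UF : Filter ℕ), ∃ k ∈ prt a pt j', loc j' k = r l ∧ Fit T a pt ρ 𝒞 j (e j l) j' k :=
      (Filter.eventually_all_finite hLfin).2 fun l hl => (hr l hl.1 hl.2).2.2
    filter_upwards [hd.typ, h1] with j hj1 hj2
    exact ⟨hj1, hj2⟩
  refine H.full_of _ ?_ (Filter.Eventually.of_forall fun n => ?_)
  · intro m z hz
    rcases hz with hz | ⟨j, x, hx, hx0, _, rfl⟩
    · obtain ⟨p, hp, rfl⟩ := hz
      exact Or.inl ⟨p, hp, rfl⟩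
    · exact Or.inr ⟨_, j, x, hx, hx0, rfl⟩
  · have hcfin : (cn a C n).Finite := (a n).finite_toSet.image _
    obtain ⟨Cc, hCc⟩ := sel D H loc L n 1
    have hfull := full_typ D H hd hΩ hΩT
    obtain ⟨m₀, hm₀⟩ := (ce_of_full H hfull n Cc Set.univ hcfin subset_rfl).exists
    obtain ⟨J, Q, g, h, hcomp⟩ := hCc (cn a C n) _ subset_rfl (fun p hp => hp.2.2) hm₀
    obtain ⟨ν, hν, hνX⟩ := fresh (fun κ => {j' | j' ∈ Ty ∧ (κ / L ∈ Ω → κ % L < L → κ % L ∉ G →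
      ∃ k ∈ prt a pt j', loc j' k = r (κ % L) ∧
        Fit T a pt ρ (cn a C n) (κ / L) (e (κ / L) (κ % L)) j' k)}) (fun κ => by
        by_cases hκ : κ / L ∈ Ω ∧ κ % L < L ∧ κ % L ∉ G
        · filter_upwards [hd.typ, hκ.1.2 (κ % L) ⟨hκ.2.1, hκ.2.2⟩ _ hcfin] with j' h1 h2
          exact ⟨h1, fun _ _ _ => h2⟩
        · filter_upwards [hd.typ] with j' h1
          exact ⟨h1, fun h2 h3 h4 => absurd ⟨h2, h3, h4⟩ hκ⟩) m₀
    -- the last word for the source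
    have hPfin : ({p : ℕ × ℕ | p.1 < m₀ ∧ p.2 < L ∧ p.1 ∈ Ω ∧ p.2 ∉ G} : Set (ℕ × ℕ)).Finite :=
      ((Set.finite_lt_nat m₀).prod (Set.finite_lt_nat L)).subset fun p hp => ⟨hp.1, hp.2.1⟩
    have hn1 : ∀ᶠ n' in (UF : Filter ℕ), ∀ p ∈ {p : ℕ × ℕ | p.1 < m₀ ∧ p.2 < L ∧ p.1 ∈ Ω ∧ p.2 ∉ G},
        ∃ k ∈ prt a pt n', loc n' k = r p.2 ∧ Fit T a pt ρ (cn a C n) p.1 (e p.1 p.2) n' k :=
      (Filter.eventually_all_finite hPfin).2 fun p hp => hp.2.2.1.2 p.2 ⟨hp.2.1, hp.2.2.2⟩ _ hcfin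
    obtain ⟨n', hn'T, hn'1, hn'2⟩ := (hd.typ.and (hn1.and (hclaim ((m₀ + 1) * L)))).exists
    have hev : ∀ᶠ m in (UF : Filter ℕ), ν ((m₀ + 1) * L) < m :=
      (Filter.eventually_gt_atTop _).filter_mono Nat.hyperfilter_le_atTop
    filter_upwards [hn'2 _ hcfin, hev] with m hm1 hm2
    obtain ⟨J', Q', g', h'⟩ := hm1
    refine move D H hd hΩT (r := r) (ν := ν) hS (fun l hl hlG => ⟨(hr l hl hlG).1, (hr l hl hlG).2.1⟩) h
      (fun i hi i' hi' => hcomp 0 (by omega) i hi i' hi') hν (fun κ => ⟨(hνX κ).1.1, (hνX κ).2⟩)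
      ?_ hn'T ?_ h' hm2
    · intro j hj hjm l hl hlG _
      have hL : 0 < L := by omega
      have e1 : (j * L + l) / L = j := by
        rw [Nat.add_comm, Nat.add_mul_div_right _ _ hL, Nat.div_eq_of_lt hl, Nat.zero_add]
      have e2 : (j * L + l) % L = l := by
        rw [Nat.add_comm, Nat.add_mul_mod_self_right, Nat.mod_eq_of_lt hl]
      have h3 := (hνX (j * L + l)).1.2
      rw [e1, e2] at h3
      exact h3 hj hl hlG
    · intro j hj hjm l hl hlG hrG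
      obtain ⟨k, hk1, hk2, hk3⟩ := hn'1 (j, l) ⟨hjm, hl, hj, hlG⟩
      have hk : k = e n' (r l) := (hd.sing n' hn'T (r l) (hr l hl hlG).1 hrG).2.2 k hk1 hk2
      rw [← hk]
      exact hk3

end Pool.Agent.Lib.MP_4fb322_lc_h96
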