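import Pool.Agent.Lib.MP_4fb322_lc_h96.Defs

set_option autoImplicit false

/-!
# Row H23

Richness in terms of finite sets (pure). For the list `z = List.ofFn (fun i => w (P.orderIsoOfFin rfl i))` of length
`P.card ≤ N` over `Al l`; there are finitely many lists of length `≤ N` over a finite type (`List.finite_length_le`)
and finitely many `l < L`, so for almost all `m` all of them are subwords (`Filter.eventually_all_finite`). `s p` =
the value at the index of `p` (`(P.orderIsoOfFin rfl).symm`), and 0 outside `P`. (About 60 lines.)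
-/

namespace Pool.Agent.Lib.MP_4fb322_lc_h96

open Set Filter Pool.Agent.Lib.MP_4fb322_lc_h7

variable {Θ V : Type} [Nonempty Θ]

omit [Nonempty Θ] in
private theorem h23_ofFn {α : Type} {Q : ℕ → Prop} {colm : ℕ → α} {n : ℕ} (f : Fin n → α)
    (h : ∃ s : Fin (List.ofFn f).length → ℕ, StrictMono s ∧
      ∀ i, Q (s i) ∧ colm (s i) = (List.ofFn f).get i) :
    ∃ s : Fin n → ℕ, StrictMono s ∧ ∀ i, Q (s i) ∧ colm (s i) = f i := by
  obtain ⟨s, hs, h1⟩ := h
  refine ⟨fun i => s (Fin.cast List.length_ofFn.symm i), ?_, ?_⟩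
  · intro i j hij
    exact hs (by simpa using hij)
  · intro i
    refine ⟨(h1 _).1, ?_⟩
    rw [(h1 _).2, List.get_ofFn]
    rfl

omit [Nonempty Θ] in
theorem rich_set {P : ℕ → Finset ℕ} {α : Type} [Finite α] {col : ℕ → ℕ → α} {Ty : Set ℕ} {L : ℕ} {G : Set ℕ}
    {Al : ℕ → Set α} {loc e : ℕ → ℕ → ℕ} (hd : Dec P col Ty L G Al loc e) (N : ℕ) :
    ∀ᶠ m in (UF : Filter ℕ), ∀ l < L, l ∈ G → ∀ R : Finset (ℕ ×ₗ ℕ), R.card ≤ N →
      ∀ w : ℕ ×ₗ ℕ → α, (∀ p ∈ R, w p ∈ Al l) → ∃ s : ℕ ×ₗ ℕ → ℕ,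
        (∀ p ∈ R, s p ∈ P m ∧ loc m (s p) = l ∧ col m (s p) = w p) ∧
          ∀ p ∈ R, ∀ q ∈ R, p < q → s p < s q := by
  classical
  have hfin : ({z : List α | z.length ≤ N}).Finite := List.finite_length_le α N
  have hev : ∀ᶠ m in (UF : Filter ℕ), ∀ l ∈ {l : ℕ | l < L}, ∀ z ∈ {z : List α | z.length ≤ N},
      l ∈ G → (∀ c ∈ z, c ∈ Al l) → ∃ s : Fin z.length → ℕ, StrictMono s ∧
        ∀ i, s i ∈ P m ∧ loc m (s i) = l ∧ col m (s i) = z.get i := by
    rw [Filter.eventually_all_finite (Set.finite_lt_nat L)]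
    intro l hl
    rw [Filter.eventually_all_finite hfin]
    intro z _
    by_cases hG : l ∈ G
    · by_cases hz : ∀ c ∈ z, c ∈ Al l
      · filter_upwards [hd.rich l hG hl z hz] with m hm _ _
        exact hm
      · exact Filter.Eventually.of_forall (fun m _ h => absurd h hz)
    · exact Filter.Eventually.of_forall (fun m h => absurd h hG)
  filter_upwards [hev] with m hm l hl hG R hR w hw
  let f : Fin R.card → α := fun i => w (R.orderEmbOfFin rfl i)
  have h1 := hm l hl (List.ofFn f) (by simp only [List.length_ofFn]; exact hR) hG (by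
    intro c hc
    rw [List.mem_ofFn] at hc
    obtain ⟨i, rfl⟩ := hc
    exact hw _ (Finset.orderEmbOfFin_mem R rfl i))
  obtain ⟨s, hs, h2⟩ := h23_ofFn (Q := fun k => k ∈ P m ∧ loc m k = l) (colm := col m) f (by
    obtain ⟨s, hs, h2⟩ := h1
    exact ⟨s, hs, fun i => ⟨⟨(h2 i).1, (h2 i).2.1⟩, (h2 i).2.2⟩⟩)
  refine ⟨fun p => if h : p ∈ R then s ((R.orderIsoOfFin rfl).symm ⟨p, h⟩) else 0, ?_, ?_⟩
  · intro p hp
    simp only [dif_pos hp]
    obtain ⟨⟨h3, h4⟩, h5⟩ := h2 ((R.orderIsoOfFin rfl).symm ⟨p, hp⟩)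
    refine ⟨h3, h4, ?_⟩
    rw [h5]
    simp only [f]
    have h6 : R.orderEmbOfFin rfl ((R.orderIsoOfFin rfl).symm ⟨p, hp⟩) = p := by
      rw [← Finset.coe_orderIsoOfFin_apply]
      simp
    rw [h6]
  · intro p hp q hq hpq
    simp only [dif_pos hp, dif_pos hq]
    apply hs
    rw [OrderIso.lt_iff_lt]
    exact hpq

end Pool.Agent.Lib.MP_4fb322_lc_h96
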