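import Pool.Agent.Lib.MP_4fb322_lc_h96.Defs
import Pool.Agent.Lib.MP_4fb322_lc_h96.H01
import Pool.Agent.Lib.MP_4fb322_lc_h96.H02
import Pool.Agent.Lib.MP_4fb322_lc_h96.H03
import Pool.Agent.Lib.MP_4fb322_lc_h96.H04
import Pool.Agent.Lib.MP_4fb322_lc_h96.H08
import Pool.Agent.Lib.MP_4fb322_lc_h96.H20

set_option autoImplicit false

/-!
# Row H24

The end, construction of the forbidden embedding. Notation for `i ∈ prt 0`: `(j, k) = (J 0 i, Q 0 i)`, `λ = loc j k`,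
`I i = {i' ∈ prt 0 | (J 0 i', Q 0 i') = (J 0 i, Q 0 i)}` as a set of the subtype; by `h.gm`, `h.emb` (+ src_same),
`h.self` the map `g 0` shows FitS .. 0 (Subtype.val '' I i) j k, so `I i ∈ colE .. j k`; if `λ ∈ G` (then `j ∈ Ty`)
the letter `colE j k ∈ Al λ` (`hd.lett`). `hrich` for `l ∈ G`, `R = ` the image of `{i ∈ prt 0 | λ i = l}` under `i ↦
toLex (J 0 i, Q 0 i)` (card `≤` card of `prt 0`), `w p = colE p.1 p.2`, gives `s_l`. For `i` with `λ ∈ G`: new part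
`k' = s_λ (toLex (j,k)) ∈ prt m`, `loc m k' = λ`, `colE m k' = colE j k ∋ I i`: map `h_i` (depends on `i` only through
`(j,k)`; choose it as a function of `(j,k)`). DEFINITION of `F : V → V`: pin `x`: the `y` of `hpins`; `λ ∈ S`: `g 0 x`
(`J 0 i = m`, part `Q 0 i`); `λ ∈ G`: `h_i x`. Let `f x = inl (π m (F x))` for pins (`= inl (π 0 x)`), else `inr (loc
m (pt m (F x)), m, F x)`, i.e. `f = (emb_word map of a m) ∘ F`. CLAIM: `PE T TW (a 0) f` by glue_pins. The new rank of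
part `i` is `(λ, m, new part)`, the old one `rkp = (λ, j, k)`: if new `<` new' then old `<` old' (first the location;
at equal location both kinds are the same, `λ ∈ S`: same `j = m`, part `Q 0 i`; `λ ∈ G`: `s_λ` is strictly increasing,
so by trichotomy) and equal new ranks imply equal `(λ,j,k)`. Different ranks: ord_rk + pair_lt. Equal ranks: same
piece, `TW = T`, `λ ∈ S`: `h.emb` + src_same; `λ ∈ G`: PE of `h_i`. Since `emb_word` (`m ∈ Ty`) is a PE of `a m` and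
`f = E ∘ F`, `F` is injective on `a 0` and preserves `T`: `T (F x) (F y) = TW (E (F x)) (E (F y)) = T x y`. (About 200
lines.)
-/

namespace Pool.Agent.Lib.MP_4fb322_lc_h96

open Set Filter Pool.Agent.Lib.MP_4fb322_lc_h7

variable {Θ V : Type} [Nonempty Θ]

private theorem tw_same (op : Θ → Θ) (T : V → V → Θ) (pt : ℕ → V → ℕ) (ρ : ℕ → V → Ultrafilter V)
    (l j : ℕ) {x y : V} (h : pt j x = pt j y) :
    TW op T pt ρ (Sum.inr (l, j, x)) (Sum.inr (l, j, y)) = T x y := by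
  simp [TW, rk, h]

/-- the set of parts which are moved to the piece `(j, k)` -/
private def II (a : ℕ → Finset V) (pt : ℕ → V → ℕ) (J Q : ℕ → ℕ → ℕ) (j k : ℕ) : Set ↥(prt a pt 0) :=
  {i | J 0 i.1 = j ∧ Q 0 i.1 = k}

private theorem g_pair {op : Θ → Θ} {T : V → V → Θ} {a : ℕ → Finset V} {u : Ultrafilter (V → V)}
    {pt : ℕ → V → ℕ} {π : ℕ → V → V} {C : ℕ → V → Set V} {ρ : ℕ → V → Ultrafilter V} (D : Dat op T a u pt π C ρ) (H : Half1 op T a u pt π C ρ)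
    {loc : ℕ → ℕ → ℕ} {A : Set (ℕ × ℕ)} {J Q : ℕ → ℕ → ℕ} {g : ℕ → V → V}
    (h : CE op T a pt ρ loc (cn a C 0) 0 1 Set.univ A J Q g) {x y : V} (hx : x ∈ a 0) (hy : y ∈ a 0)
    (hx0 : pt 0 x ≠ 0) (hy0 : pt 0 y ≠ 0) (hJ : J 0 (pt 0 x) = J 0 (pt 0 y))
    (hQ : Q 0 (pt 0 x) = Q 0 (pt 0 y)) (hne : x ≠ y) :
    g 0 x ≠ g 0 y ∧ T (g 0 x) (g 0 y) = T x y := by
  have h1 := h.emb 0 Nat.zero_lt_one 0 Nat.zero_lt_one x hx y hy hx0 hy0 (Set.mem_univ _) (Set.mem_univ _)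
    (fun e => hne (Prod.mk.inj e).2)
  have hgx := (h.gm 0 Nat.zero_lt_one x hx hx0 (Set.mem_univ _)).1
  have hgy := (h.gm 0 Nat.zero_lt_one y hy hy0 (Set.mem_univ _)).1
  simp only [hJ, hQ] at h1
  rw [src_same D H hx hy hx0 hy0] at h1
  have h2 : pt (J 0 (pt 0 y)) (g 0 x) = pt (J 0 (pt 0 y)) (g 0 y) := by
    rw [hgy.2, ← hJ, hgx.2, hQ]
  rw [tw_same op T pt ρ _ _ h2] at h1
  refine ⟨?_, h1.2⟩
  intro e
  exact h1.1 (by rw [e])

private theorem col_mem {op : Θ → Θ} {T : V → V → Θ} {a : ℕ → Finset V} {u : Ultrafilter (V → V)}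
    {pt : ℕ → V → ℕ} {π : ℕ → V → V} {C : ℕ → V → Set V} {ρ : ℕ → V → Ultrafilter V} (D : Dat op T a u pt π C ρ) (H : Half1 op T a u pt π C ρ)
    {loc : ℕ → ℕ → ℕ} {A : Set (ℕ × ℕ)} {J Q : ℕ → ℕ → ℕ} {g : ℕ → V → V}
    (h : CE op T a pt ρ loc (cn a C 0) 0 1 Set.univ A J Q g) (j k : ℕ) :
    II a pt J Q j k ∈ colE T a pt C ρ j k := by
  have key : ∀ x, pt 0 x ∈ (Subtype.val '' II a pt J Q j k : Set ℕ) → J 0 (pt 0 x) = j ∧ Q 0 (pt 0 x) = k := by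
    rintro x ⟨i, hi, hix⟩
    rw [← hix]
    exact hi
  refine ⟨g 0, ⟨?_, ?_⟩, ?_⟩
  · rintro x ⟨hx, hx0, hxI⟩ y ⟨hy, hy0, hyI⟩ e
    by_contra hne
    exact (g_pair D H h hx hy hx0 hy0 ((key x hxI).1.trans (key y hyI).1.symm)
      ((key x hxI).2.trans (key y hyI).2.symm) hne).1 e
  · rintro x ⟨hx, hx0, hxI⟩ y ⟨hy, hy0, hyI⟩
    by_cases hne : x = y
    · subst hne
      exact h.self 0 Nat.zero_lt_one x hx hx0 (Set.mem_univ _)
    · exact (g_pair D H h hx hy hx0 hy0 ((key x hxI).1.trans (key y hyI).1.symm)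
        ((key x hxI).2.trans (key y hyI).2.symm) hne).2
  · intro x hx hx0 hxI
    have h1 := h.gm 0 Nat.zero_lt_one x hx hx0 (Set.mem_univ _)
    rw [(key x hxI).1, (key x hxI).2] at h1
    exact h1

theorem end_emb [Finite Θ] {op : Θ → Θ} {T : V → V → Θ} {a : ℕ → Finset V} {u : Ultrafilter (V → V)}
    {pt : ℕ → V → ℕ} {π : ℕ → V → V} {C : ℕ → V → Set V} {ρ : ℕ → V → Ultrafilter V} (D : Dat op T a u pt π C ρ) (H : Half1 op T a u pt π C ρ)
    {Ty : Set ℕ} {L : ℕ} {G : Set ℕ} {Al : ℕ → Set (Set (Set ↥(prt a pt 0)))} {loc e : ℕ → ℕ → ℕ}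
    (hd : Dec (prt a pt) (colE T a pt C ρ) Ty L G Al loc e) {S : Set ℕ} (hS : ∀ t ∈ S, t < L ∧ t ∉ G)
    {m : ℕ} (hm : m ∈ Ty) {J Q : ℕ → ℕ → ℕ} {g : ℕ → V → V}
    (h : CE op T a pt ρ loc (cn a C 0) 0 1 Set.univ {p | (p.1 ∈ Ty ∧ p.1 < m ∧ p.2 < L ∧ p.2 ∈ G) ∨ (p.1 = m ∧ p.2 ∈ S)} J Q g)
    (hrich : ∀ l < L, l ∈ G → ∀ R : Finset (ℕ ×ₗ ℕ), R.card ≤ (prt a pt 0).card →
      ∀ w : ℕ ×ₗ ℕ → Set (Set ↥(prt a pt 0)), (∀ p ∈ R, w p ∈ Al l) → ∃ s : ℕ ×ₗ ℕ → ℕ,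
        (∀ p ∈ R, s p ∈ prt a pt m ∧ loc m (s p) = l ∧ colE T a pt C ρ m (s p) = w p) ∧
          ∀ p ∈ R, ∀ q ∈ R, p < q → s p < s q)
    (hpins : ∀ x ∈ a 0, pt 0 x = 0 → ∃ y ∈ a m, pt m y = 0 ∧ π m y = π 0 x) :
    ∃ F : V → V, PE T T (a 0 : Set V) F ∧ ∀ x ∈ a 0, F x ∈ a m := by
  classical
  -- the parts of the points
  have hprt : ∀ x ∈ a 0, pt 0 x ≠ 0 → pt 0 x ∈ prt a pt 0 := fun x hx hx0 =>
    mem_prt.mpr ⟨hx0, x, hx, rfl⟩
  have hA := fun i (hi : i ∈ prt a pt 0) => h.mem 0 Nat.zero_lt_one i hi (Set.mem_univ _)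
  -- at locations in the gaps
  have hG : ∀ i ∈ prt a pt 0, loc (J 0 i) (Q 0 i) ∈ G → J 0 i ∈ Ty ∧ loc (J 0 i) (Q 0 i) < L := by
    intro i hi hl
    rcases (hA i hi).1 with h1 | h1
    · exact ⟨h1.1, h1.2.2.1⟩
    · exact absurd hl (hS _ h1.2).2
  have hnG : ∀ i ∈ prt a pt 0, loc (J 0 i) (Q 0 i) ∉ G → J 0 i = m := by
    intro i hi hl
    rcases (hA i hi).1 with h1 | h1
    · exact absurd h1.2.2.2 hl
    · exact h1.1
  -- the new parts in the gaps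
  let R : ℕ → Finset (ℕ ×ₗ ℕ) := fun l =>
    ((prt a pt 0).filter (fun i => loc (J 0 i) (Q 0 i) = l)).image (fun i => toLex (J 0 i, Q 0 i))
  have hs : ∀ l, ∃ s : ℕ ×ₗ ℕ → ℕ, l < L → l ∈ G →
      (∀ p ∈ R l, s p ∈ prt a pt m ∧ loc m (s p) = l ∧
        colE T a pt C ρ m (s p) = colE T a pt C ρ (ofLex p).1 (ofLex p).2) ∧
      ∀ p ∈ R l, ∀ q ∈ R l, p < q → s p < s q := by
    intro l
    by_cases hl : l < L ∧ l ∈ G
    · have hcard : (R l).card ≤ (prt a pt 0).card :=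
        Finset.card_image_le.trans (Finset.card_le_card (Finset.filter_subset _ _))
      obtain ⟨s, hs1, hs2⟩ := hrich l hl.1 hl.2 (R l) hcard
        (fun p => colE T a pt C ρ (ofLex p).1 (ofLex p).2) (by
          intro p hp
          obtain ⟨i, hi, rfl⟩ := Finset.mem_image.mp hp
          rw [Finset.mem_filter] at hi
          have h1 : loc (J 0 i) (Q 0 i) ∈ G := by rw [hi.2]; exact hl.2
          have h2 := hd.lett (J 0 i) (hG i hi.1 h1).1 (Q 0 i) (hA i hi.1).2 h1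
          rw [hi.2] at h2
          exact h2)
      exact ⟨s, fun _ _ => ⟨hs1, hs2⟩⟩
    · exact ⟨fun _ => 0, fun h1 h2 => absurd ⟨h1, h2⟩ hl⟩
  choose s hs using hs
  have hR : ∀ i ∈ prt a pt 0, toLex (J 0 i, Q 0 i) ∈ R (loc (J 0 i) (Q 0 i)) := by
    intro i hi
    exact Finset.mem_image.mpr ⟨i, Finset.mem_filter.mpr ⟨hi, rfl⟩, rfl⟩
  -- the maps in the gaps
  have hh : ∀ j k, ∃ f : V → V, (∃ i ∈ prt a pt 0, J 0 i = j ∧ Q 0 i = k) → loc j k ∈ G →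
      PE T T {x | x ∈ a 0 ∧ pt 0 x ≠ 0 ∧ pt 0 x ∈ (Subtype.val '' II a pt J Q j k : Set ℕ)} f ∧
      ∀ x ∈ a 0, pt 0 x ≠ 0 → pt 0 x ∈ (Subtype.val '' II a pt J Q j k : Set ℕ) →
        f x ∈ part a pt m (s (loc j k) (toLex (j, k))) ∧
          ∀ B ∈ cn a C 0, (B ∈ ρ m (f x) ↔ B ∈ ρ 0 x) := by
    intro j k
    by_cases hjk : (∃ i ∈ prt a pt 0, J 0 i = j ∧ Q 0 i = k) ∧ loc j k ∈ G
    · obtain ⟨⟨i, hi, hij, hik⟩, hl⟩ := hjk
      have h1 : loc (J 0 i) (Q 0 i) ∈ G := by rw [hij, hik]; exact hl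
      have h2 := (hs _ (hG i hi h1).2 h1).1 _ (hR i hi)
      have h3 : II a pt J Q j k ∈ colE T a pt C ρ m (s (loc j k) (toLex (j, k))) := by
        have h4 := h2.2.2
        rw [hij, hik] at h4
        rw [h4]
        exact col_mem D H h j k
      obtain ⟨f, hf1, hf2⟩ := h3
      exact ⟨f, fun _ _ => ⟨hf1, hf2⟩⟩
    · exact ⟨fun x => x, fun h1 h2 => absurd ⟨h1, h2⟩ hjk⟩
  choose hh hhh using hh
  have hpins' : ∀ x, ∃ y, x ∈ a 0 → pt 0 x = 0 → y ∈ a m ∧ pt m y = 0 ∧ π m y = π 0 x := by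
    intro x
    by_cases hx : x ∈ a 0 ∧ pt 0 x = 0
    · obtain ⟨y, h1, h2, h3⟩ := hpins x hx.1 hx.2
      exact ⟨y, fun _ _ => ⟨h1, h2, h3⟩⟩
    · exact ⟨x, fun h1 h2 => absurd ⟨h1, h2⟩ hx⟩
  choose yy hyy using hpins'
  -- the map
  let F : V → V := fun x => if pt 0 x = 0 then yy x else
    if loc (J 0 (pt 0 x)) (Q 0 (pt 0 x)) ∈ G then hh (J 0 (pt 0 x)) (Q 0 (pt 0 x)) x else g 0 x
  have F0 : ∀ x, pt 0 x = 0 → F x = yy x := fun x hx => if_pos hx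
  have F1 : ∀ x, pt 0 x ≠ 0 → loc (J 0 (pt 0 x)) (Q 0 (pt 0 x)) ∈ G →
      F x = hh (J 0 (pt 0 x)) (Q 0 (pt 0 x)) x := fun x hx hl => (if_neg hx).trans (if_pos hl)
  have F2 : ∀ x, pt 0 x ≠ 0 → loc (J 0 (pt 0 x)) (Q 0 (pt 0 x)) ∉ G →
      F x = g 0 x := fun x hx hl => (if_neg hx).trans (if_neg hl)
  have hIx : ∀ x, x ∈ a 0 → pt 0 x ≠ 0 → ∀ j k, J 0 (pt 0 x) = j → Q 0 (pt 0 x) = k →
      pt 0 x ∈ (Subtype.val '' II a pt J Q j k : Set ℕ) := by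
    intro x hx hx0 j k hj hk
    exact ⟨⟨pt 0 x, hprt x hx hx0⟩, ⟨hj, hk⟩, rfl⟩
  -- properties of the map at the other points
  have hF : ∀ x ∈ a 0, pt 0 x ≠ 0 → F x ∈ a m ∧ pt m (F x) ∈ prt a pt m ∧
      loc m (pt m (F x)) = loc (J 0 (pt 0 x)) (Q 0 (pt 0 x)) ∧
      (∀ B ∈ cn a C 0, (B ∈ ρ m (F x) ↔ B ∈ ρ 0 x)) ∧ T (F x) (F x) = T x x ∧
      (loc (J 0 (pt 0 x)) (Q 0 (pt 0 x)) ∈ G →
        pt m (F x) = s (loc (J 0 (pt 0 x)) (Q 0 (pt 0 x))) (toLex (J 0 (pt 0 x), Q 0 (pt 0 x)))) ∧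
      (loc (J 0 (pt 0 x)) (Q 0 (pt 0 x)) ∉ G → pt m (F x) = Q 0 (pt 0 x)) := by
    intro x hx hx0
    have hi := hprt x hx hx0
    by_cases hl : loc (J 0 (pt 0 x)) (Q 0 (pt 0 x)) ∈ G
    · obtain ⟨h1, h2⟩ := hhh (J 0 (pt 0 x)) (Q 0 (pt 0 x)) ⟨pt 0 x, hi, rfl, rfl⟩ hl
      have hIx' := hIx x hx hx0 _ _ rfl rfl
      obtain ⟨h3, h4⟩ := h2 x hx hx0 hIx'
      obtain ⟨h5, h6, _⟩ := (hs _ (hG _ hi hl).2 hl).1 _ (hR _ hi)
      rw [← F1 x hx0 hl] at h3 h4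
      have h7 : T (F x) (F x) = T x x := by
        rw [F1 x hx0 hl]
        exact h1.2 x ⟨hx, hx0, hIx'⟩ x ⟨hx, hx0, hIx'⟩
      refine ⟨h3.1, ?_, ?_, h4, h7, fun _ => h3.2, fun hn => absurd hl hn⟩
      · rw [h3.2]; exact h5
      · rw [h3.2]; exact h6
    · have hJ := hnG _ hi hl
      obtain ⟨h3, h4⟩ := h.gm 0 Nat.zero_lt_one x hx hx0 (Set.mem_univ _)
      have h5 := (hA _ hi).2
      rw [← F2 x hx0 hl, hJ] at h3 h4
      rw [hJ] at h5
      have h7 : T (F x) (F x) = T x x := by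
        rw [F2 x hx0 hl]
        exact h.self 0 Nat.zero_lt_one x hx hx0 (Set.mem_univ _)
      refine ⟨h3.1, ?_, ?_, h4, h7, fun hn => absurd hn hl, fun _ => h3.2⟩
      · rw [h3.2]; exact h5
      · rw [h3.2, hJ]
  have hFam : ∀ x ∈ a 0, F x ∈ a m := by
    intro x hx
    by_cases hx0 : pt 0 x = 0
    · rw [F0 x hx0]
      exact (hyy x hx hx0).1
    · exact (hF x hx hx0).1
  -- same new part
  have hsame : ∀ x ∈ a 0, ∀ y ∈ a 0, pt 0 x ≠ 0 → pt 0 y ≠ 0 → x ≠ y → pt m (F x) = pt m (F y) →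
      F x ≠ F y ∧ T (F x) (F y) = T x y := by
    intro x hx y hy hx0 hy0 hne hp
    obtain ⟨-, -, x3, -, -, x6, x7⟩ := hF x hx hx0
    obtain ⟨-, -, y3, -, -, y6, y7⟩ := hF y hy hy0
    have hix := hprt x hx hx0
    have hiy := hprt y hy hy0
    have hll : loc (J 0 (pt 0 x)) (Q 0 (pt 0 x)) = loc (J 0 (pt 0 y)) (Q 0 (pt 0 y)) := by
      rw [← x3, ← y3, hp]
    by_cases hl : loc (J 0 (pt 0 x)) (Q 0 (pt 0 x)) ∈ G
    · have hl' : loc (J 0 (pt 0 y)) (Q 0 (pt 0 y)) ∈ G := by rw [← hll]; exact hl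
      have hpp : toLex (J 0 (pt 0 x), Q 0 (pt 0 x)) = toLex (J 0 (pt 0 y), Q 0 (pt 0 y)) := by
        have hRx := hR _ hix
        have hRy := hR _ hiy
        rw [← hll] at hRy
        have e1 := x6 hl
        have e2 := y6 hl'
        rw [← hll] at e2
        have hst := (hs _ (hG _ hix hl).2 hl).2
        rcases lt_trichotomy (toLex (J 0 (pt 0 x), Q 0 (pt 0 x))) (toLex (J 0 (pt 0 y), Q 0 (pt 0 y))) with
          h1 | h1 | h1
        · have := hst _ hRx _ hRy h1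
          omega
        · exact h1
        · have := hst _ hRy _ hRx h1
          omega
      have hpp' : (J 0 (pt 0 x), Q 0 (pt 0 x)) = (J 0 (pt 0 y), Q 0 (pt 0 y)) := toLex.injective hpp
      obtain ⟨hJ, hQ⟩ := Prod.mk.inj hpp'
      obtain ⟨h1, _⟩ := hhh (J 0 (pt 0 x)) (Q 0 (pt 0 x)) ⟨pt 0 x, hix, rfl, rfl⟩ hl
      have hIx' := hIx x hx hx0 _ _ rfl rfl
      have hIy' := hIx y hy hy0 _ _ hJ.symm hQ.symm
      have e1 := F1 x hx0 hl
      have e2 := F1 y hy0 hl'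
      rw [← hJ, ← hQ] at e2
      rw [e1, e2]
      exact ⟨fun e => hne (h1.1 ⟨hx, hx0, hIx'⟩ ⟨hy, hy0, hIy'⟩ e),
        h1.2 x ⟨hx, hx0, hIx'⟩ y ⟨hy, hy0, hIy'⟩⟩
    · have hl' : loc (J 0 (pt 0 y)) (Q 0 (pt 0 y)) ∉ G := by rw [← hll]; exact hl
      rw [F2 x hx0 hl, F2 y hy0 hl']
      refine g_pair D H h hx hy hx0 hy0 ?_ ?_ hne
      · rw [hnG _ hix hl, hnG _ hiy hl']
      · rw [← x7 hl, ← y7 hl', hp]
  -- different new parts
  have hlt : ∀ x ∈ a 0, ∀ y ∈ a 0, pt 0 x ≠ 0 → pt 0 y ≠ 0 →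
      rk pt (loc m (pt m (F x)), m, F x) < rk pt (loc m (pt m (F y)), m, F y) →
      TW op T pt ρ (Sum.inr (loc m (pt m (F x)), m, F x)) (Sum.inr (loc m (pt m (F y)), m, F y)) = T x y ∧
      TW op T pt ρ (Sum.inr (loc m (pt m (F y)), m, F y)) (Sum.inr (loc m (pt m (F x)), m, F x)) = T y x := by
    intro x hx y hy hx0 hy0 hr
    obtain ⟨x1, x2, x3, x4, -, x6, x7⟩ := hF x hx hx0
    obtain ⟨y1, y2, y3, y4, -, y6, y7⟩ := hF y hy hy0
    have hix := hprt x hx hx0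
    have hiy := hprt y hy hy0
    have hold : rkp loc (J 0 (pt 0 x)) (Q 0 (pt 0 x)) < rkp loc (J 0 (pt 0 y)) (Q 0 (pt 0 y)) := by
      unfold rk at hr
      simp only at hr
      unfold rkp
      rw [Prod.Lex.toLex_lt_toLex] at hr ⊢
      rcases hr with hr | ⟨hr1, hr2⟩
      · left
        simp only at hr ⊢
        rw [← x3, ← y3]
        exact hr
      · right
        simp only at hr1 hr2 ⊢
        have hll : loc (J 0 (pt 0 x)) (Q 0 (pt 0 x)) = loc (J 0 (pt 0 y)) (Q 0 (pt 0 y)) := by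
          rw [← x3, ← y3, hr1]
        refine ⟨hll, ?_⟩
        rw [Prod.Lex.toLex_lt_toLex] at hr2
        have hr3 : pt m (F x) < pt m (F y) := by
          rcases hr2 with hr2 | hr2
          · exact absurd hr2 (lt_irrefl _)
          · exact hr2.2
        by_cases hl : loc (J 0 (pt 0 x)) (Q 0 (pt 0 x)) ∈ G
        · have hl' : loc (J 0 (pt 0 y)) (Q 0 (pt 0 y)) ∈ G := by rw [← hll]; exact hl
          have hRx := hR _ hix
          have hRy := hR _ hiy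
          rw [← hll] at hRy
          have e1 := x6 hl
          have e2 := y6 hl'
          rw [← hll] at e2
          have hst := (hs _ (hG _ hix hl).2 hl).2
          rcases lt_trichotomy (toLex (J 0 (pt 0 x), Q 0 (pt 0 x))) (toLex (J 0 (pt 0 y), Q 0 (pt 0 y))) with
            h1 | h1 | h1
          · exact h1
          · rw [h1] at e1
            omega
          · have := hst _ hRy _ hRx h1
            omega
        · have hl' : loc (J 0 (pt 0 y)) (Q 0 (pt 0 y)) ∉ G := by rw [← hll]; exact hl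
          rw [Prod.Lex.toLex_lt_toLex]
          right
          simp only
          rw [hnG _ hix hl, hnG _ hiy hl', ← x7 hl, ← y7 hl']
          exact ⟨rfl, hr3⟩
    have hord := ord_rk D H h (le_refl _) hix hiy hold
    have h1 := pair_lt D H hx hy hx0 hy0 hord (z := (loc m (pt m (F x)), m, F x))
      (z' := (loc m (pt m (F y)), m, F y)) ⟨x1, (mem_prt.mp x2).1⟩ ⟨y1, (mem_prt.mp y2).1⟩ x4 y4 hr
    exact h1.2
  -- the embedding into the words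
  let E : V → Pt V := fun x => if pt m x = 0 then Sum.inl (π m x) else Sum.inr (loc m (pt m x), m, x)
  have hE : PE T (TW op T pt ρ) (a m : Set V) E := emb_word D H hd hm
  have hEF : ∀ x ∈ a 0, pt 0 x ≠ 0 → E (F x) = Sum.inr (loc m (pt m (F x)), m, F x) := by
    intro x hx hx0
    exact if_neg (mem_prt.mp (hF x hx hx0).2.1).1
  have hf : PE T (TW op T pt ρ) (a 0 : Set V) (fun x => E (F x)) := by
    refine glue_pins D H (fun x => E (F x)) ?_ ?_ ?_ ?_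
    · intro x hx hx0
      obtain ⟨-, h2, h3⟩ := hyy x hx hx0
      show E (F x) = Sum.inl (π 0 x)
      rw [F0 x hx0]
      show (if pt m (yy x) = 0 then Sum.inl (π m (yy x)) else Sum.inr (loc m (pt m (yy x)), m, yy x)) = _
      rw [if_pos h2, h3]
    · intro x hx hx0
      obtain ⟨x1, x2, x3, x4, -, -, -⟩ := hF x hx hx0
      exact ⟨(loc m (pt m (F x)), m, F x), hEF x hx hx0, x1, (mem_prt.mp x2).1, x4⟩
    · intro x hx hx0
      show TW op T pt ρ (E (F x)) (E (F x)) = T x x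
      rw [hEF x hx hx0, tw_same op T pt ρ _ _ rfl]
      exact (hF x hx hx0).2.2.2.2.1
    · intro x hx y hy hx0 hy0 hne
      show E (F x) ≠ E (F y) ∧ TW op T pt ρ (E (F x)) (E (F y)) = T x y
      rw [hEF x hx hx0, hEF y hy hy0]
      rcases lt_trichotomy (rk pt (loc m (pt m (F x)), m, F x)) (rk pt (loc m (pt m (F y)), m, F y)) with
        hr | hr | hr
      · refine ⟨?_, (hlt x hx y hy hx0 hy0 hr).1⟩
        intro e
        rw [Sum.inr.inj e] at hr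
        exact lt_irrefl _ hr
      · have hp : pt m (F x) = pt m (F y) := by
          unfold rk at hr
          have h1 := toLex.injective hr
          have h2 := toLex.injective (Prod.mk.inj h1).2
          exact (Prod.mk.inj h2).2
        obtain ⟨h1, h2⟩ := hsame x hx y hy hx0 hy0 hne hp
        refine ⟨?_, ?_⟩
        · intro e
          exact h1 (Prod.mk.inj (Prod.mk.inj (Sum.inr.inj e)).2).2
        · rw [hp, tw_same op T pt ρ _ _ hp]
          exact h2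
      · refine ⟨?_, (hlt y hy x hx hy0 hx0 hr).2⟩
        intro e
        rw [Sum.inr.inj e] at hr
        exact lt_irrefl _ hr
  refine ⟨F, ⟨?_, ?_⟩, hFam⟩
  · intro x hx y hy e
    exact hf.1 hx hy (congrArg E e)
  · intro x hx y hy
    rw [← hE.2 _ (hFam x hx) _ (hFam y hy)]
    exact hf.2 x hx y hy

end Pool.Agent.Lib.MP_4fb322_lc_h96
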