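import Pool.Agent.Lib.MP_4fb322_lc_h96.Defs
import Pool.Agent.Lib.MP_4fb322_lc_h96.H06
import Pool.Agent.Lib.MP_4fb322_lc_h96.H07
import Pool.Agent.Lib.MP_4fb322_lc_h96.H09
import Pool.Agent.Lib.MP_4fb322_lc_h96.H10
import Pool.Agent.Lib.MP_4fb322_lc_h96.H11
import Pool.Agent.Lib.MP_4fb322_lc_h96.H18
import Pool.Agent.Lib.MP_4fb322_lc_h96.H22
import Pool.Agent.Lib.MP_4fb322_lc_h96.H23
import Pool.Agent.Lib.MP_4fb322_lc_h96.H24

set_option autoImplicit false

/-!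
# Row H25

The second half.
-/

namespace Pool.Agent.Lib.MP_4fb322_lc_h96

open Set Filter Pool.Agent.Lib.MP_4fb322_lc_h7

variable {Θ V : Type} [Nonempty Θ]

theorem half2 [Finite Θ] {op : Θ → Θ} {T : V → V → Θ} {a : ℕ → Finset V} {u : Ultrafilter (V → V)}
    {pt : ℕ → V → ℕ} {π : ℕ → V → V} {C : ℕ → V → Set V} {ρ : ℕ → V → Ultrafilter V} (D : Dat op T a u pt π C ρ) (H : Half1 op T a u pt π C ρ) : False := by
  classical
  obtain ⟨Ty, L, G, Al, loc, e, hd⟩ := words_dec (prt a pt) (colE T a pt C ρ)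
  obtain ⟨S, hS1, hS2, hS3⟩ := exists_term (L := L) (G := G) (R := Arr T a pt ρ loc e)
    (fun l hl hlG => arr_out D H hd hl hlG)
    (fun l l' l'' hl hlG h h' => arr_trans hd hl hlG h h')
  have hS4 : ∀ t ∈ S, t < L ∧ t ∉ G := fun t ht => ⟨(hS1 t ht).1, (hS1 t ht).2.1⟩
  have hcl := fun c => claim D H hd hS1 hS2 c
  have hA0 := full_A0 D H hd hS4 hS3 hcl
  have hfin : (cn a C 0).Finite := (a 0).finite_toSet.image _
  have hce := ce_of_full H hA0 0 1 Set.univ hfin (le_refl _)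
  have hrich := rich_set hd (prt a pt 0).card
  have hpins : ∀ᶠ m in (UF : Filter ℕ), ∀ x ∈ a 0, pt 0 x = 0 → ∃ y ∈ a m, pt m y = 0 ∧
      π m y = π 0 x := by
    rw [Filter.eventually_all_finset]
    intro x hx
    by_cases h0 : pt 0 x = 0
    · filter_upwards [H.pins (π 0 x) ((D.mrob 0).rob.pin x hx h0)] with m hm _
      exact hm
    · exact Filter.Eventually.of_forall (fun m h => absurd h h0)
  have hne : ∀ᶠ m in (UF : Filter ℕ), m ≠ 0 := by
    have : ∀ᶠ m in (Filter.cofinite : Filter ℕ), m ≠ 0 := by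
      simp [Filter.eventually_cofinite]
    exact Filter.hyperfilter_le_cofinite this
  obtain ⟨m, hmT, ⟨J, Q, g, hm1⟩, hm2, hm3, hm4⟩ :=
    (hd.typ.and (hce.and (hrich.and (hpins.and hne)))).exists
  exact D.anti 0 m (Ne.symm hm4) (end_emb D H hd hS4 hmT hm1 hm2 hm3)

end Pool.Agent.Lib.MP_4fb322_lc_h96
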